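import Mathlib

/-!
# Fans, smooth fans, endpoint-generated fans, endpoint-homogeneous fans

Definitions for problem MP_0958cc_gt.  `F` is always a metric space, arcs are homeomorphic images
of the unit interval `[0,1]`.
-/

set_option autoImplicit false

open Set Topology Filter unitInterval

namespace Pool.Agent.Helper40.Fans

section Defs

variable {F : Type} [MetricSpace F]

/-- `A` is an arc with end points `x` and `y`: the image of a continuous injection of `[0,1]`
sending `0` to `x` and `1` to `y`. (As `[0,1]` is compact, such an injection is a homeomorphism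
onto its image.) -/
def IsArc (A : Set F) (x y : F) : Prop :=
  ∃ f : I → F, Continuous f ∧ Function.Injective f ∧ range f = A ∧ f 0 = x ∧ f 1 = y

/-- A subcontinuum: a closed connected (in particular nonempty) subset. It is used in compact
spaces only. -/
def IsSubcontinuum (A : Set F) : Prop := IsClosed A ∧ IsConnected A

variable (F) in
/-- A dendroid: an arcwise connected, hereditarily unicoherent continuum. -/
structure IsDendroid : Prop where
  /-- the space is compact -/
  compact : CompactSpace F
  /-- the space is connected and nonempty -/
  connected : ConnectedSpace F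
  /-- any two different points are the end points of an arc -/
  arcwise : ∀ x y : F, x ≠ y → ∃ A : Set F, IsArc A x y
  /-- each subcontinuum `K` is unicoherent: if `K` is the union of subcontinua `A` and `B`, then
  `A ∩ B` is connected -/
  unicoherent : ∀ K A B : Set F, IsSubcontinuum K → IsSubcontinuum A → IsSubcontinuum B →
    K = A ∪ B → IsConnected (A ∩ B)

/-- `e` is an endpoint of the space: it is an end point of every arc that contains it. -/
def IsEndpoint (e : F) : Prop := ∀ (A : Set F) (x y : F), IsArc A x y → e ∈ A → e = x ∨ e = y

variable (F) in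
/-- The set of endpoints of the space. -/
def endpoints : Set F := {e | IsEndpoint e}

/-- `p` is a ramification point: the branch point of a simple triod, i.e. the common end point of
three arcs any two of which meet in `p` only. -/
def IsRamificationPoint (p : F) : Prop :=
  ∃ (A B C : Set F) (a b c : F), IsArc A p a ∧ IsArc B p b ∧ IsArc C p c ∧
    A ∩ B = {p} ∧ A ∩ C = {p} ∧ B ∩ C = {p}

/-- `F` is a fan with top `t`: a dendroid whose only ramification point is `t`. -/
def IsFan (t : F) : Prop := IsDendroid F ∧ ∀ p : F, IsRamificationPoint p ↔ p = t

/-- `A` is the (possibly degenerate) arc `[t, x]`. -/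
def IsSegment (A : Set F) (t x : F) : Prop := (x = t ∧ A = {t}) ∨ IsArc A t x

/-- `F` is smooth with respect to `t`: if `x n → y`, then the arcs `[t, x n]` converge to the arc
`[t, y]` in the Hausdorff metric. -/
def IsSmoothAt (t : F) : Prop :=
  ∀ (x : ℕ → F) (y : F) (A : ℕ → Set F) (B : Set F), Tendsto x atTop (𝓝 y) →
    (∀ n, IsSegment (A n) t (x n)) → IsSegment B t y →
    Tendsto (fun n => Metric.hausdorffEDist (A n) B) atTop (𝓝 0)

/-- `F`, a fan with top `t`, is `X`-endpoint-generated: for each blade `B = [t, e]` there is a
homeomorphism `φ` of `[0,1]` onto `B` with `φ 0 = t`, `φ 1 = e` and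
`φ '' X = B ∩ closure (E(F) \ B)`. -/
def IsEPG (X : Set I) (t : F) : Prop :=
  ∀ (e : F) (B : Set F), e ∈ endpoints F → IsArc B t e →
    ∃ φ : I → F, Continuous φ ∧ Function.Injective φ ∧ range φ = B ∧ φ 0 = t ∧ φ 1 = e ∧
      φ '' X = B ∩ closure (endpoints F \ B)

variable (F) in
/-- `F` is endpoint-homogeneous: any endpoint is mapped to any other one by a homeomorphism of
`F` onto itself. -/
def IsEndpointHomogeneous : Prop :=
  ∀ e ∈ endpoints F, ∀ e' ∈ endpoints F, ∃ h : F ≃ₜ F, h e = e'

end Defs

end Pool.Agent.Helper40.Fans
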