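import Mathlib
import Pool.Agent.Helper40.FanDefs

/-!
# Compact planar sets that are starlike about the origin with countably many directions

We show that such a set is a smooth dendroid in which the only possible ramification point is the
origin, and describe its arcs.
-/

set_option autoImplicit false

open Set Topology Filter unitInterval

namespace Pool.Agent.Helper40.Fans

/-- The direction (slope) of a point. -/
noncomputable def dir (p : ℝ × ℝ) : ℝ := p.2 / p.1

/-- Compact planar sets, starlike about `0`, contained in the open right half plane apart from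
`0`, with countably many directions. -/
structure Starlike (F : Set (ℝ × ℝ)) : Prop where
  compact : IsCompact F
  zero_mem : (0 : ℝ × ℝ) ∈ F
  star : ∀ p ∈ F, ∀ u : ℝ, 0 ≤ u → u ≤ 1 → u • p ∈ F
  pos : ∀ p ∈ F, p ≠ 0 → 0 < p.1
  countable : {c : ℝ | ∃ p ∈ F, p ≠ 0 ∧ dir p = c}.Countable

theorem eq_of_dir {p : ℝ × ℝ} (hp : 0 < p.1) : p = (p.1, p.1 * dir p) := by
  ext
  · rfl
  · simp only [dir]
    field_simp

theorem dir_smul {p : ℝ × ℝ} {u : ℝ} (hu : u ≠ 0) : dir (u • p) = dir p := by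
  simp only [dir, Prod.smul_snd, Prod.smul_fst, smul_eq_mul]
  rw [mul_div_mul_left _ _ hu]

theorem dir_mk {r d : ℝ} (hr : r ≠ 0) : dir (r, r * d) = d := by
  simp only [dir]
  field_simp

variable {F : Set (ℝ × ℝ)}

theorem Starlike.dir_eq (hF : Starlike F) {S : Set (ℝ × ℝ)} (hS : S ⊆ F)
    (hc : IsPreconnected S) (h0 : (0 : ℝ × ℝ) ∉ S) {p q : ℝ × ℝ} (hp : p ∈ S) (hq : q ∈ S) :
    dir p = dir q := by
  have hpos : ∀ p ∈ S, 0 < p.1 := by
    intro p hp
    apply hF.pos p (hS hp)
    rintro rfl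
    exact h0 hp
  have hcont : ContinuousOn dir S := by
    unfold dir
    apply ContinuousOn.div continuous_snd.continuousOn continuous_fst.continuousOn
    intro x hx
    exact (hpos x hx).ne'
  have h1 : IsPreconnected (dir '' S) := hc.image _ hcont
  have h2 : dir '' S ⊆ {c : ℝ | ∃ p ∈ F, p ≠ 0 ∧ dir p = c} := by
    rintro _ ⟨x, hx, rfl⟩
    refine ⟨x, hS hx, ?_, rfl⟩
    rintro rfl
    exact h0 hx
  exact hF.countable.isTotallyDisconnected _ h2 h1 (mem_image_of_mem _ hp)
    (mem_image_of_mem _ hq)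

theorem Starlike.smul_mem (hF : Starlike F) {S : Set (ℝ × ℝ)} (hS : S ⊆ F)
    (hcl : IsClosed S) (hc : IsPreconnected S) (h0 : (0 : ℝ × ℝ) ∈ S) {p : ℝ × ℝ} (hp : p ∈ S)
    {u : ℝ} (hu0 : 0 ≤ u) (hu1 : u ≤ 1) : u • p ∈ S := by
  by_contra hup
  have hu0' : 0 < u := by
    rcases hu0.eq_or_lt with h | h
    · rw [← h, zero_smul] at hup
      exact absurd h0 hup
    · exact h
  have hp0 : p ≠ 0 := by
    rintro rfl
    rw [smul_zero] at hup
    exact hup h0
  have hu1' : u < 1 := by
    rcases hu1.eq_or_lt with h | h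
    · rw [h, one_smul] at hup
      exact absurd hp hup
    · exact h
  have hp1 : 0 < p.1 := hF.pos p (hS hp) hp0
  obtain ⟨ε, hε, hball⟩ := Metric.isOpen_iff.1 hcl.isOpen_compl (u • p) hup
  set D : Set ℝ := {c : ℝ | ∃ p ∈ F, p ≠ 0 ∧ dir p = c} with hD
  have hdense : Dense Dᶜ := hF.countable.dense_compl ℝ
  have hur : 0 < u * p.1 := mul_pos hu0' hp1
  have hδ : 0 < ε / (u * p.1) := div_pos hε hur
  obtain ⟨a, haD, ha1, ha2⟩ := hdense.exists_between
    (show dir p - ε / (u * p.1) < dir p by linarith)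
  obtain ⟨b, hbD, hb1, hb2⟩ := hdense.exists_between
    (show dir p < dir p + ε / (u * p.1) by linarith)
  let U : Set (ℝ × ℝ) := {q | u * p.1 < q.1 ∧ a * q.1 < q.2 ∧ q.2 < b * q.1}
  let V : Set (ℝ × ℝ) := {q | q.1 < u * p.1 ∨ q.2 < a * q.1 ∨ b * q.1 < q.2}
  have hU : IsOpen U := by
    apply (isOpen_lt continuous_const continuous_fst).inter
    exact (isOpen_lt (by fun_prop) continuous_snd).inter
      (isOpen_lt continuous_snd (by fun_prop))
  have hV : IsOpen V := by
    apply (isOpen_lt continuous_fst continuous_const).union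
    exact (isOpen_lt continuous_snd (by fun_prop)).union
      (isOpen_lt (by fun_prop) continuous_snd)
  have hSUV : S ⊆ U ∪ V := by
    intro q hq
    by_cases hqV : q ∈ V
    · exact Or.inr hqV
    · left
      have hqV' : ¬ (q.1 < u * p.1 ∨ q.2 < a * q.1 ∨ b * q.1 < q.2) := hqV
      push Not at hqV'
      obtain ⟨h1, h2, h3⟩ := hqV'
      have hq1 : 0 < q.1 := lt_of_lt_of_le hur h1
      have hq0 : q ≠ 0 := by
        rintro rfl
        simp at hq1
      have hqD : dir q ∈ D := ⟨q, hS hq, hq0, rfl⟩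
      have hqa : dir q ≠ a := by
        rintro rfl
        exact haD hqD
      have hqb : dir q ≠ b := by
        rintro rfl
        exact hbD hqD
      have hq2 : q.2 = dir q * q.1 := by
        simp only [dir]
        field_simp
      have ha : a < dir q := by
        apply lt_of_le_of_ne _ (Ne.symm hqa)
        rw [hq2] at h2
        exact le_of_mul_le_mul_right h2 hq1
      have hb : dir q < b := by
        apply lt_of_le_of_ne _ hqb
        rw [hq2] at h3
        exact le_of_mul_le_mul_right h3 hq1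
      refine ⟨?_, ?_, ?_⟩
      · apply lt_of_le_of_ne h1
        intro heq
        have : q ∈ Metric.ball (u • p) ε := by
          rw [Metric.mem_ball, Prod.dist_eq, max_lt_iff]
          constructor
          · rw [Prod.smul_fst, smul_eq_mul, ← heq, dist_self]
            exact hε
          · rw [Prod.smul_snd, smul_eq_mul, Real.dist_eq, hq2]
            have hp2 : p.2 = dir p * p.1 := by
              simp only [dir]
              field_simp
            rw [hp2, ← heq]
            have : dir q * (u * p.1) - u * (dir p * p.1) = (dir q - dir p) * (u * p.1) := by ring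
            rw [this, abs_mul, abs_of_pos hur, ← lt_div_iff₀ hur, abs_lt]
            constructor <;> linarith
        exact hball this hq
      · rw [hq2]
        exact mul_lt_mul_of_pos_right ha hq1
      · rw [hq2]
        exact mul_lt_mul_of_pos_right hb hq1
  have hpU : p ∈ U := by
    have hp2 : p.2 = dir p * p.1 := by
      simp only [dir]
      field_simp
    refine ⟨?_, ?_, ?_⟩
    · nlinarith
    · rw [hp2]
      exact mul_lt_mul_of_pos_right ha2 hp1
    · rw [hp2]
      exact mul_lt_mul_of_pos_right hb1 hp1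
  have h0V : (0 : ℝ × ℝ) ∈ V := by
    left
    exact hur
  obtain ⟨q, _, hqU, hqV⟩ := hc U V hU hV hSUV ⟨p, hp, hpU⟩ ⟨0, h0, h0V⟩
  obtain ⟨h1, h2, h3⟩ := hqU
  rcases hqV with h | h | h
  · exact absurd h1 (not_lt.2 h.le)
  · exact absurd h2 (not_lt.2 h.le)
  · exact absurd h3 (not_lt.2 h.le)

theorem Starlike.mem_between (hF : Starlike F) {S : Set (ℝ × ℝ)} (hS : S ⊆ F)
    (hc : IsPreconnected S) (h0 : (0 : ℝ × ℝ) ∉ S) {p q : ℝ × ℝ} (hp : p ∈ S) (hq : q ∈ S)
    {r : ℝ} (h1 : p.1 ≤ r) (h2 : r ≤ q.1) : (r, r * dir p) ∈ S := by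
  have h3 : IsPreconnected (Prod.fst '' S) := hc.image _ continuous_fst.continuousOn
  have h4 : r ∈ Prod.fst '' S :=
    h3.ordConnected.out (mem_image_of_mem _ hp) (mem_image_of_mem _ hq) ⟨h1, h2⟩
  obtain ⟨x, hx, rfl⟩ := h4
  have hx0 : x ≠ 0 := by
    rintro rfl
    exact h0 hx
  rw [hF.dir_eq hS hc h0 hp hx, ← eq_of_dir (hF.pos x (hS hx) hx0)]
  exact hx

theorem Starlike.inter_preconnected (hF : Starlike F) {S T : Set (ℝ × ℝ)} (hS : S ⊆ F)
    (hScl : IsClosed S) (hSc : IsPreconnected S) (hT : T ⊆ F)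
    (hTcl : IsClosed T) (hTc : IsPreconnected T) : IsPreconnected (S ∩ T) := by
  by_cases h0 : (0 : ℝ × ℝ) ∈ S ∩ T
  · apply isPreconnected_of_forall (0 : ℝ × ℝ)
    intro y hy
    refine ⟨(fun u : ℝ => u • y) '' Icc 0 1, ?_, ⟨0, ⟨le_rfl, zero_le_one⟩, zero_smul _ _⟩,
      ⟨1, ⟨zero_le_one, le_rfl⟩, one_smul _ _⟩, ?_⟩
    · rintro _ ⟨u, hu, rfl⟩
      exact ⟨hF.smul_mem hS hScl hSc h0.1 hy.1 hu.1 hu.2,
        hF.smul_mem hT hTcl hTc h0.2 hy.2 hu.1 hu.2⟩
    · exact isPreconnected_Icc.image _ (by fun_prop)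
  · rcases (S ∩ T).eq_empty_or_nonempty with he | ⟨p0, hp0⟩
    · rw [he]
      exact isPreconnected_empty
    · have hp0ne : p0 ≠ 0 := by
        rintro rfl
        exact h0 hp0
      -- all points of the intersection have the direction of `p0`
      have key : ∀ p ∈ S ∩ T, dir p = dir p0 := by
        intro p hp
        by_cases h0S : (0 : ℝ × ℝ) ∈ S
        · have h0T : (0 : ℝ × ℝ) ∉ T := fun h => h0 ⟨h0S, h⟩
          exact hF.dir_eq hT hTc h0T hp.2 hp0.2
        · exact hF.dir_eq hS hSc h0S hp.1 hp0.1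
      have hpos : ∀ p ∈ S ∩ T, 0 < p.1 := by
        intro p hp
        apply hF.pos p (hS hp.1)
        rintro rfl
        exact h0 hp
      -- auxiliary: each of the two sets contains the points in between
      have aux : ∀ R : Set (ℝ × ℝ), R ⊆ F → IsClosed R → IsPreconnected R →
          ∀ p q : ℝ × ℝ, p ∈ R → q ∈ R → 0 < p.1 → dir p = dir q → ∀ r : ℝ, p.1 ≤ r → r ≤ q.1 →
          (r, r * dir p) ∈ R := by
        intro R hR hRcl hRc p q hp hq hp1 hpq r h1 h2
        by_cases h0R : (0 : ℝ × ℝ) ∈ R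
        · have hq1 : 0 < q.1 := lt_of_lt_of_le (lt_of_lt_of_le hp1 h1) h2
          have hr : 0 < r := lt_of_lt_of_le hp1 h1
          have h3 : (r / q.1) • q ∈ R :=
            hF.smul_mem hR hRcl hRc h0R hq (div_nonneg hr.le hq1.le) ((div_le_one hq1).2 h2)
          have h4 : (r / q.1) • q = (r, r * dir p) := by
            rw [hpq]
            ext
            · simp only [Prod.smul_fst, smul_eq_mul]
              field_simp
            · simp only [Prod.smul_snd, smul_eq_mul, dir]
              field_simp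
          rwa [← h4]
        · exact hF.mem_between hR hRc h0R hp hq h1 h2
      let L : Set ℝ := {r | 0 < r ∧ (r, r * dir p0) ∈ S ∩ T}
      have hL : L.OrdConnected := by
        constructor
        intro r1 hr1 r2 hr2 r hr
        have hr0 : 0 < r := lt_of_lt_of_le hr1.1 hr.1
        refine ⟨hr0, ?_, ?_⟩
        · have := aux S hS hScl hSc _ _ hr1.2.1 hr2.2.1 hr1.1
            (by rw [dir_mk hr1.1.ne', dir_mk hr2.1.ne']) r hr.1 hr.2
          rwa [dir_mk hr1.1.ne'] at this
        · have := aux T hT hTcl hTc _ _ hr1.2.2 hr2.2.2 hr1.1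
            (by rw [dir_mk hr1.1.ne', dir_mk hr2.1.ne']) r hr.1 hr.2
          rwa [dir_mk hr1.1.ne'] at this
      have himg : S ∩ T = (fun r : ℝ => (r, r * dir p0)) '' L := by
        ext p
        constructor
        · intro hp
          have h1 := eq_of_dir (hpos p hp)
          rw [key p hp] at h1
          refine ⟨p.1, ⟨hpos p hp, ?_⟩, h1.symm⟩
          rw [← h1]
          exact hp
        · rintro ⟨r, hr, rfl⟩
          exact hr.2
      rw [himg]
      exact hL.isPreconnected.image _ (by fun_prop)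

/-! ### Arcs in the subspace `F` -/

/-- The origin as a point of `F`. -/
def Starlike.top (hF : Starlike F) : F := ⟨0, hF.zero_mem⟩

theorem Starlike.coe_top (hF : Starlike F) : ((hF.top : F) : ℝ × ℝ) = 0 := rfl

theorem ne_top_iff (hF : Starlike F) {p : F} : p ≠ hF.top ↔ (p : ℝ × ℝ) ≠ 0 := by
  rw [Ne, Ne, Subtype.ext_iff]
  rfl

/-- The segment from the origin to `p`. -/
def seg (p : F) : Set F := {q | ∃ u : ℝ, 0 ≤ u ∧ u ≤ 1 ∧ (q : ℝ × ℝ) = u • (p : ℝ × ℝ)}

/-- Linear arcs inside a ray. -/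
theorem Starlike.isArc_ray (hF : Starlike F) {p : F} (hp : p ≠ hF.top) {a b : ℝ}
    (ha0 : 0 ≤ a) (ha1 : a ≤ 1) (hb0 : 0 ≤ b) (hb1 : b ≤ 1) (hab : a ≠ b) :
    ∃ A : Set F, IsArc A ⟨a • (p : ℝ × ℝ), hF.star p p.2 a ha0 ha1⟩
      ⟨b • (p : ℝ × ℝ), hF.star p p.2 b hb0 hb1⟩ ∧
      ∀ q : F, q ∈ A ↔ ∃ v : ℝ, 0 ≤ v ∧ v ≤ 1 ∧ (q : ℝ × ℝ) = ((1 - v) * a + v * b) • (p : ℝ × ℝ) := by
  have hu : ∀ v : I, 0 ≤ (1 - (v : ℝ)) * a + v * b ∧ (1 - (v : ℝ)) * a + v * b ≤ 1 := by
    intro v
    have h1 := v.2.1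
    have h2 := v.2.2
    constructor
    · nlinarith
    · nlinarith
  let f : I → F := fun v =>
    ⟨((1 - (v : ℝ)) * a + v * b) • (p : ℝ × ℝ), hF.star p p.2 _ (hu v).1 (hu v).2⟩
  refine ⟨range f, ⟨f, ?_, ?_, rfl, ?_, ?_⟩, ?_⟩
  · apply Continuous.subtype_mk
    fun_prop
  · intro v w hvw
    have h1 : ((1 - (v : ℝ)) * a + v * b) • (p : ℝ × ℝ) =
        ((1 - (w : ℝ)) * a + w * b) • (p : ℝ × ℝ) := congrArg Subtype.val hvw
    have h2 := smul_left_injective ℝ ((ne_top_iff hF).1 hp) h1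
    have h3 : ((v : ℝ) - w) * (b - a) = 0 := by
      have : (1 - (v : ℝ)) * a + v * b = (1 - (w : ℝ)) * a + w * b := h2
      linarith
    rcases mul_eq_zero.1 h3 with h | h
    · ext
      linarith
    · exact absurd (by linarith) hab
  · apply Subtype.ext
    simp [f]
  · apply Subtype.ext
    simp [f]
  · intro q
    constructor
    · rintro ⟨v, rfl⟩
      exact ⟨v, v.2.1, v.2.2, rfl⟩
    · rintro ⟨v, h0, h1, hv⟩
      exact ⟨⟨v, h0, h1⟩, Subtype.ext hv.symm⟩

theorem Starlike.isArc_seg (hF : Starlike F) {p : F} (hp : p ≠ hF.top) :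
    IsArc (seg p) hF.top p := by
  obtain ⟨A, hA, hA'⟩ := hF.isArc_ray hp le_rfl zero_le_one zero_le_one le_rfl zero_ne_one
  have h1 : A = seg p := by
    ext q
    rw [hA']
    simp [seg]
  have h2 : (⟨(0 : ℝ) • (p : ℝ × ℝ), hF.star p p.2 0 le_rfl zero_le_one⟩ : F) = hF.top := by
    apply Subtype.ext
    simp [Starlike.top]
  have h3 : (⟨(1 : ℝ) • (p : ℝ × ℝ), hF.star p p.2 1 zero_le_one le_rfl⟩ : F) = p := by
    apply Subtype.ext
    simp
  rw [h1, h2, h3] at hA
  exact hA

theorem IsArc.symm {X : Type} [MetricSpace X] {A : Set X} {x y : X} (h : IsArc A x y) :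
    IsArc A y x := by
  obtain ⟨f, hf, hinj, hr, h0, h1⟩ := h
  refine ⟨f ∘ unitInterval.symm, hf.comp unitInterval.continuous_symm,
    hinj.comp unitInterval.symm_bijective.injective, ?_, ?_, ?_⟩
  · rw [range_comp, unitInterval.symm_bijective.surjective.range_eq, image_univ, hr]
  · simp [h1]
  · simp [h0]

theorem IsArc.left_mem {X : Type} [MetricSpace X] {A : Set X} {x y : X} (h : IsArc A x y) :
    x ∈ A := by
  obtain ⟨f, hf, hinj, hr, h0, h1⟩ := h
  rw [← hr, ← h0]
  exact mem_range_self _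

theorem IsArc.right_mem {X : Type} [MetricSpace X] {A : Set X} {x y : X} (h : IsArc A x y) :
    y ∈ A := h.symm.left_mem

theorem IsArc.ne {X : Type} [MetricSpace X] {A : Set X} {x y : X} (h : IsArc A x y) :
    x ≠ y := by
  obtain ⟨f, hf, hinj, hr, h0, h1⟩ := h
  rw [← h0, ← h1]
  exact fun h => zero_ne_one (hinj h)

theorem IsArc.image {X Y : Type} [MetricSpace X] [MetricSpace Y] {A : Set X} {x y : X}
    (h : IsArc A x y) (g : X ≃ₜ Y) : IsArc (g '' A) (g x) (g y) := by
  obtain ⟨f, hf, hinj, hr, h0, h1⟩ := h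
  refine ⟨g ∘ f, g.continuous.comp hf, g.injective.comp hinj, ?_, ?_, ?_⟩
  · rw [range_comp, hr]
  · simp [h0]
  · simp [h1]

/-- Two rays joined at the origin form an arc. -/
theorem Starlike.isArc_two (hF : Starlike F) {p q : F} (hp : p ≠ hF.top) (hq : q ≠ hF.top)
    (hpq : dir p ≠ dir q) : ∃ A : Set F, IsArc A p q ∧ hF.top ∈ A := by
  have hp0 := (ne_top_iff hF).1 hp
  have hq0 := (ne_top_iff hF).1 hq
  have hp1 := hF.pos p p.2 hp0
  have hq1 := hF.pos q q.2 hq0
  let g : I → ℝ × ℝ := fun v =>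
    (max (1 - 2 * (v : ℝ)) 0) • (p : ℝ × ℝ) + (max (2 * (v : ℝ) - 1) 0) • (q : ℝ × ℝ)
  have hg1 : ∀ v : I, (v : ℝ) ≤ 1 / 2 → g v = (1 - 2 * (v : ℝ)) • (p : ℝ × ℝ) := by
    intro v hv
    have h1 : max (1 - 2 * (v : ℝ)) 0 = 1 - 2 * (v : ℝ) := max_eq_left (by linarith)
    have h2 : max (2 * (v : ℝ) - 1) 0 = 0 := max_eq_right (by linarith)
    simp only [g, h1, h2, zero_smul, add_zero]
  have hg2 : ∀ v : I, 1 / 2 ≤ (v : ℝ) → g v = (2 * (v : ℝ) - 1) • (q : ℝ × ℝ) := by
    intro v hv
    have h1 : max (1 - 2 * (v : ℝ)) 0 = 0 := max_eq_right (by linarith)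
    have h2 : max (2 * (v : ℝ) - 1) 0 = 2 * (v : ℝ) - 1 := max_eq_left (by linarith)
    simp only [g, h1, h2, zero_smul, zero_add]
  have hgF : ∀ v : I, g v ∈ F := by
    intro v
    rcases le_total (v : ℝ) (1 / 2) with h | h
    · rw [hg1 v h]
      exact hF.star p p.2 _ (by linarith) (by linarith [v.2.1])
    · rw [hg2 v h]
      exact hF.star q q.2 _ (by linarith) (by linarith [v.2.2])
  have hinj : Function.Injective g := by
    -- two points of different parts
    have key : ∀ v w : I, (v : ℝ) ≤ 1 / 2 → 1 / 2 ≤ (w : ℝ) → g v = g w → v = w := by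
      intro v w hv hw hvw
      rw [hg1 v hv, hg2 w hw] at hvw
      by_cases h1 : (1 - 2 * (v : ℝ)) = 0
      · rw [h1, zero_smul] at hvw
        have h2 : 2 * (w : ℝ) - 1 = 0 := by
          rcases smul_eq_zero.1 hvw.symm with h | h
          · exact h
          · exact absurd h hq0
        ext
        linarith
      · by_cases h2 : 2 * (w : ℝ) - 1 = 0
        · rw [h2, zero_smul] at hvw
          rcases smul_eq_zero.1 hvw with h | h
          · exact absurd h h1
          · exact absurd h hp0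
        · exfalso
          apply hpq
          rw [← dir_smul h1 (p := (p : ℝ × ℝ)), ← dir_smul h2 (p := (q : ℝ × ℝ)), hvw]
    intro v w hvw
    rcases le_total (v : ℝ) (1 / 2) with h | h
    · rcases le_total (w : ℝ) (1 / 2) with h' | h'
      · rw [hg1 v h, hg1 w h'] at hvw
        have := smul_left_injective ℝ hp0 hvw
        ext
        have h3 : 1 - 2 * (v : ℝ) = 1 - 2 * (w : ℝ) := this
        linarith
      · exact key v w h h' hvw
    · rcases le_total (w : ℝ) (1 / 2) with h' | h'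
      · exact (key w v h' h hvw.symm).symm
      · rw [hg2 v h, hg2 w h'] at hvw
        have := smul_left_injective ℝ hq0 hvw
        ext
        have h3 : 2 * (v : ℝ) - 1 = 2 * (w : ℝ) - 1 := this
        linarith
  refine ⟨range (fun v : I => (⟨g v, hgF v⟩ : F)), ⟨fun v : I => (⟨g v, hgF v⟩ : F), ?_, ?_, rfl,
    ?_, ?_⟩, ⟨⟨1 / 2, by norm_num, by norm_num⟩, ?_⟩⟩
  · apply Continuous.subtype_mk
    simp only [g]
    fun_prop
  · intro v w hvw
    exact hinj (congrArg Subtype.val hvw)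
  · apply Subtype.ext
    have := hg1 0 (by simp)
    simp [this]
  · apply Subtype.ext
    have := hg2 1 (by norm_num)
    simp only [this]
    norm_num
  · apply Subtype.ext
    have := hg1 ⟨1 / 2, by norm_num, by norm_num⟩ le_rfl
    simp only [this]
    simp [Starlike.top]

/-- A parametrization of an arc of `F` by a function of a real variable. -/
theorem IsArc.real_param {A : Set F} {x y : F} (h : IsArc A x y) :
    ∃ g : ℝ → ℝ × ℝ, Continuous g ∧ InjOn g (Icc 0 1) ∧ (∀ v, ∃ q ∈ A, (q : ℝ × ℝ) = g v) ∧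
      (∀ q ∈ A, ∃ v ∈ Icc (0 : ℝ) 1, g v = q) ∧ g 0 = x ∧ g 1 = y := by
  obtain ⟨f, hf, hinj, hr, h0, h1⟩ := h
  refine ⟨fun v => (f (projIcc 0 1 zero_le_one v) : ℝ × ℝ), ?_, ?_, ?_, ?_, ?_, ?_⟩
  · exact continuous_subtype_val.comp (hf.comp continuous_projIcc)
  · intro v hv w hw hvw
    have h2 : f (projIcc 0 1 zero_le_one v) = f (projIcc 0 1 zero_le_one w) := Subtype.ext hvw
    have h3 := hinj h2
    rw [projIcc_of_mem _ hv, projIcc_of_mem _ hw] at h3
    exact congrArg Subtype.val h3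
  · intro v
    refine ⟨f (projIcc 0 1 zero_le_one v), ?_, rfl⟩
    rw [← hr]
    exact mem_range_self _
  · intro q hq
    rw [← hr] at hq
    obtain ⟨v, rfl⟩ := hq
    refine ⟨v, v.2, ?_⟩
    simp only [projIcc_val]
  · simp only [projIcc_left]
    rw [← h0]
    rfl
  · simp only [projIcc_right]
    rw [← h1]
    rfl

/-- On an interval where a path in `F` avoids the origin, its direction is constant. -/
theorem Starlike.dir_const (hF : Starlike F) {g : ℝ → ℝ × ℝ} (hg : Continuous g)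
    (hgF : ∀ v, g v ∈ F) {a b : ℝ} (h0 : ∀ v ∈ Icc a b, g v ≠ 0) {v w : ℝ}
    (hv : v ∈ Icc a b) (hw : w ∈ Icc a b) : dir (g v) = dir (g w) := by
  apply hF.dir_eq (S := g '' Icc a b)
  · rintro _ ⟨x, _, rfl⟩
    exact hgF x
  · exact isPreconnected_Icc.image _ hg.continuousOn
  · rintro ⟨x, hx, h⟩
    exact h0 x hx h
  · exact mem_image_of_mem _ hv
  · exact mem_image_of_mem _ hw

/-- An arc starting at a point `p` other than the origin contains a small part of the ray
through `p` on one of the two sides of `p`. -/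
theorem Starlike.one_side (hF : Starlike F) {A : Set F} {p a : F} (hp : p ≠ hF.top)
    (hA : IsArc A p a) : ∃ ε > 0,
      (∀ r, (p : ℝ × ℝ).1 ≤ r → r ≤ (p : ℝ × ℝ).1 + ε →
        ∃ q ∈ A, (q : ℝ × ℝ) = (r, r * dir p)) ∨
      (∀ r, (p : ℝ × ℝ).1 - ε ≤ r → r ≤ (p : ℝ × ℝ).1 →
        ∃ q ∈ A, (q : ℝ × ℝ) = (r, r * dir p)) := by
  obtain ⟨g, hg, hinj, hgA, hAg, hg0, hg1⟩ := hA.real_param
  have hgF : ∀ v, g v ∈ F := by
    intro v
    obtain ⟨q, _, hq⟩ := hgA v
    rw [← hq]
    exact q.2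
  have hp0 := (ne_top_iff hF).1 hp
  have hopen : IsOpen {v : ℝ | g v ≠ 0} := isOpen_ne_fun hg continuous_const
  obtain ⟨δ, hδ, hball⟩ := Metric.isOpen_iff.1 hopen 0 (by rw [← hg0] at hp0; exact hp0)
  set b : ℝ := min (δ / 2) 1 with hb
  have hb0 : 0 < b := lt_min (by linarith) one_pos
  have hb1 : b ≤ 1 := min_le_right _ _
  have hne : ∀ v ∈ Icc 0 b, g v ≠ 0 := by
    intro v hv
    apply hball
    rw [Metric.mem_ball, dist_zero_right, Real.norm_eq_abs, abs_of_nonneg hv.1]
    have := hv.2.trans (min_le_left _ _)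
    linarith
  have hdir : ∀ v ∈ Icc 0 b, g v = ((g v).1, (g v).1 * dir p) := by
    intro v hv
    have h1 := hF.dir_const hg hgF hne hv (left_mem_Icc.2 hb0.le)
    rw [hg0] at h1
    rw [← h1]
    exact eq_of_dir (hF.pos _ (hgF v) (hne v hv))
  have hcont : Continuous fun v => (g v).1 := continuous_fst.comp hg
  have hne2 : (g 0).1 ≠ (g b).1 := by
    intro h
    have h1 := hdir 0 (left_mem_Icc.2 hb0.le)
    have h2 := hdir b (right_mem_Icc.2 hb0.le)
    have h3 : g 0 = g b := by
      rw [h1, h2, h]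
    have h4 := hinj ⟨le_rfl, zero_le_one⟩ ⟨hb0.le, hb1⟩ h3
    exact hb0.ne h4
  rcases lt_or_gt_of_ne hne2 with h | h
  · refine ⟨(g b).1 - (g 0).1, by linarith, Or.inl ?_⟩
    intro r hr1 hr2
    rw [← hg0] at hr1 hr2
    obtain ⟨v, hv, hvr⟩ := intermediate_value_Icc hb0.le hcont.continuousOn
      (show r ∈ Icc (g 0).1 (g b).1 from ⟨hr1, by linarith⟩)
    obtain ⟨q, hq, hqv⟩ := hgA v
    refine ⟨q, hq, ?_⟩
    rw [hqv, hdir v hv]
    simp only at hvr
    rw [hvr]
  · refine ⟨(g 0).1 - (g b).1, by linarith, Or.inr ?_⟩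
    intro r hr1 hr2
    rw [← hg0] at hr1 hr2
    obtain ⟨v, hv, hvr⟩ := intermediate_value_Icc' hb0.le hcont.continuousOn
      (show r ∈ Icc (g b).1 (g 0).1 from ⟨by linarith, hr2⟩)
    obtain ⟨q, hq, hqv⟩ := hgA v
    refine ⟨q, hq, ?_⟩
    rw [hqv, hdir v hv]
    simp only at hvr
    rw [hvr]

/-- Only the origin can be a ramification point. -/
theorem Starlike.eq_top_of_ramification (hF : Starlike F) {p : F}
    (hp : IsRamificationPoint p) : p = hF.top := by
  by_contra hne
  obtain ⟨A, B, C, a, b, c, hA, hB, hC, hAB, hAC, hBC⟩ := hp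
  have hp1 : 0 < (p : ℝ × ℝ).1 := hF.pos p p.2 ((ne_top_iff hF).1 hne)
  -- two arcs leaving `p` on the same side meet outside `p`
  have up : ∀ A B : Set F, A ∩ B = {p} → ∀ ε > 0, ∀ ε' > 0,
      (∀ r, (p : ℝ × ℝ).1 ≤ r → r ≤ (p : ℝ × ℝ).1 + ε →
        ∃ q ∈ A, (q : ℝ × ℝ) = (r, r * dir p)) →
      (∀ r, (p : ℝ × ℝ).1 ≤ r → r ≤ (p : ℝ × ℝ).1 + ε' →
        ∃ q ∈ B, (q : ℝ × ℝ) = (r, r * dir p)) → False := by
    intro A B hAB ε hε ε' hε' h1 h2
    have hm : 0 < min ε ε' := lt_min hε hε'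
    obtain ⟨q, hq, hqe⟩ := h1 ((p : ℝ × ℝ).1 + min ε ε') (by linarith)
      (by linarith [min_le_left ε ε'])
    obtain ⟨q', hq', hqe'⟩ := h2 ((p : ℝ × ℝ).1 + min ε ε') (by linarith)
      (by linarith [min_le_right ε ε'])
    have hqq : q = q' := Subtype.ext (hqe.trans hqe'.symm)
    have : q ∈ A ∩ B := ⟨hq, hqq ▸ hq'⟩
    rw [hAB, mem_singleton_iff] at this
    rw [this] at hqe
    have h3 : (p : ℝ × ℝ).1 = (p : ℝ × ℝ).1 + min ε ε' := congrArg Prod.fst hqe
    linarith
  have down : ∀ A B : Set F, A ∩ B = {p} → ∀ ε > 0, ∀ ε' > 0,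
      (∀ r, (p : ℝ × ℝ).1 - ε ≤ r → r ≤ (p : ℝ × ℝ).1 →
        ∃ q ∈ A, (q : ℝ × ℝ) = (r, r * dir p)) →
      (∀ r, (p : ℝ × ℝ).1 - ε' ≤ r → r ≤ (p : ℝ × ℝ).1 →
        ∃ q ∈ B, (q : ℝ × ℝ) = (r, r * dir p)) → False := by
    intro A B hAB ε hε ε' hε' h1 h2
    have hm : 0 < min ε ε' := lt_min hε hε'
    obtain ⟨q, hq, hqe⟩ := h1 ((p : ℝ × ℝ).1 - min ε ε') (by linarith [min_le_left ε ε'])
      (by linarith)
    obtain ⟨q', hq', hqe'⟩ := h2 ((p : ℝ × ℝ).1 - min ε ε') (by linarith [min_le_right ε ε'])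
      (by linarith)
    have hqq : q = q' := Subtype.ext (hqe.trans hqe'.symm)
    have : q ∈ A ∩ B := ⟨hq, hqq ▸ hq'⟩
    rw [hAB, mem_singleton_iff] at this
    rw [this] at hqe
    have h3 : (p : ℝ × ℝ).1 = (p : ℝ × ℝ).1 - min ε ε' := congrArg Prod.fst hqe
    linarith
  obtain ⟨εA, hεA, hA'⟩ := hF.one_side hne hA
  obtain ⟨εB, hεB, hB'⟩ := hF.one_side hne hB
  obtain ⟨εC, hεC, hC'⟩ := hF.one_side hne hC
  rcases hA' with hA' | hA'
  · rcases hB' with hB' | hB'
    · exact up A B hAB εA hεA εB hεB hA' hB'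
    · rcases hC' with hC' | hC'
      · exact up A C hAC εA hεA εC hεC hA' hC'
      · exact down B C hBC εB hεB εC hεC hB' hC'
  · rcases hB' with hB' | hB'
    · rcases hC' with hC' | hC'
      · exact up B C hBC εB hεB εC hεC hB' hC'
      · exact down A C hAC εA hεA εC hεC hA' hC'
    · exact down A B hAB εA hεA εB hεB hA' hB'

/-- Points at the far end of their ray are endpoints. -/
theorem Starlike.isEndpoint (hF : Starlike F) {p : F} (hp : p ≠ hF.top)
    (hmax : ∀ q ∈ F, q ≠ 0 → dir q = dir p → q.1 ≤ (p : ℝ × ℝ).1) : IsEndpoint p := by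
  intro A x y hA hpA
  obtain ⟨g, hg, hinj, hgA, hAg, hg0, hg1⟩ := hA.real_param
  have hgF : ∀ v, g v ∈ F := by
    intro v
    obtain ⟨q, _, hq⟩ := hgA v
    rw [← hq]
    exact q.2
  have hp0 := (ne_top_iff hF).1 hp
  obtain ⟨u, hu, hgu⟩ := hAg p hpA
  by_contra hcon
  push Not at hcon
  have hu0 : 0 < u := by
    rcases hu.1.eq_or_lt with h | h
    · exfalso
      apply hcon.1
      apply Subtype.ext
      rw [← hgu, ← h, hg0]
    · exact h
  have hu1 : u < 1 := by
    rcases hu.2.eq_or_lt with h | h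
    · exfalso
      apply hcon.2
      apply Subtype.ext
      rw [← hgu, h, hg1]
    · exact h
  have hopen : IsOpen {v : ℝ | g v ≠ 0} := isOpen_ne_fun hg continuous_const
  obtain ⟨δ, hδ, hball⟩ := Metric.isOpen_iff.1 hopen u (by rw [← hgu] at hp0; exact hp0)
  set η : ℝ := min (δ / 2) (min u (1 - u)) with hη
  have hη0 : 0 < η := lt_min (by linarith) (lt_min hu0 (by linarith))
  have hη1 : η ≤ δ / 2 := min_le_left _ _
  have hη2 : η ≤ u := (min_le_right _ _).trans (min_le_left _ _)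
  have hη3 : η ≤ 1 - u := (min_le_right _ _).trans (min_le_right _ _)
  have hne : ∀ v ∈ Icc (u - η) (u + η), g v ≠ 0 := by
    intro v hv
    apply hball
    rw [Metric.mem_ball, Real.dist_eq, abs_lt]
    constructor
    · linarith [hv.1]
    · linarith [hv.2]
  have hmemu : u ∈ Icc (u - η) (u + η) := ⟨by linarith, by linarith⟩
  have hdir0 : ∀ v ∈ Icc (u - η) (u + η), dir (g v) = dir p := by
    intro v hv
    have h1 := hF.dir_const hg hgF hne hv hmemu
    rw [hgu] at h1
    exact h1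
  have hdir : ∀ v ∈ Icc (u - η) (u + η), g v = ((g v).1, (g v).1 * dir p) := by
    intro v hv
    rw [← hdir0 v hv]
    exact eq_of_dir (hF.pos _ (hgF v) (hne v hv))
  have hle : ∀ v ∈ Icc (u - η) (u + η), (g v).1 ≤ (g u).1 := by
    intro v hv
    rw [hgu]
    exact hmax _ (hgF v) (hne v hv) (hdir0 v hv)
  have hinj' : InjOn (fun v => (g v).1) (Icc (u - η) (u + η)) := by
    intro v hv w hw hvw
    have hvw' : (g v).1 = (g w).1 := hvw
    apply hinj
    · exact ⟨by linarith [hv.1], by linarith [hv.2]⟩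
    · exact ⟨by linarith [hw.1], by linarith [hw.2]⟩
    · rw [hdir v hv, hdir w hw, hvw']
  have hcont : ContinuousOn (fun v => (g v).1) (Icc (u - η) (u + η)) :=
    (continuous_fst.comp hg).continuousOn
  rcases hcont.strictMonoOn_of_injOn_Icc' (by linarith) hinj' with h | h
  · have h1 := h hmemu (right_mem_Icc.2 (by linarith)) (by linarith : u < u + η)
    have h2 := hle (u + η) (right_mem_Icc.2 (by linarith))
    exact absurd h1 (not_lt.2 h2)
  · have h1 := h (left_mem_Icc.2 (by linarith)) hmemu (by linarith : u - η < u)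
    have h2 := hle (u - η) (left_mem_Icc.2 (by linarith))
    exact absurd h1 (not_lt.2 h2)

/-- The arc from the origin to `p` is unique. -/
theorem Starlike.arc_unique (hF : Starlike F) {A : Set F} {p : F}
    (hA : IsArc A hF.top p) : A = seg p := by
  have hp : p ≠ hF.top := hA.ne.symm
  obtain ⟨g, hg, hinj, hgA, hAg, hg0, hg1⟩ := hA.real_param
  have hgF : ∀ v, g v ∈ F := by
    intro v
    obtain ⟨q, _, hq⟩ := hgA v
    rw [← hq]
    exact q.2
  have hp0 := (ne_top_iff hF).1 hp
  have hg0' : g 0 = 0 := hg0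
  -- pieces of the arc starting at the origin are closed and contain segments
  have key : ∀ v ∈ Icc (0 : ℝ) 1, ∀ u : ℝ, 0 ≤ u → u ≤ 1 →
      ∃ w ∈ Icc 0 v, g w = u • g v := by
    intro v hv u hu0 hu1
    have h1 : u • g v ∈ g '' Icc 0 v := by
      apply hF.smul_mem (S := g '' Icc 0 v) _ _ _ _ _ hu0 hu1
      · rintro _ ⟨x, _, rfl⟩
        exact hgF x
      · exact (isCompact_Icc.image hg).isClosed
      · exact isPreconnected_Icc.image _ hg.continuousOn
      · exact ⟨0, ⟨le_rfl, hv.1⟩, hg0'⟩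
      · exact ⟨v, ⟨hv.1, le_rfl⟩, rfl⟩
    exact h1
  ext q
  constructor
  · intro hq
    obtain ⟨v, hv, hgv⟩ := hAg q hq
    rcases hv.1.eq_or_lt with h | h
    · refine ⟨0, le_rfl, zero_le_one, ?_⟩
      rw [← hgv, ← h, hg0', zero_smul]
    · have hne : ∀ w ∈ Icc v 1, g w ≠ 0 := by
        intro w hw hgw
        have h1 : g w = g 0 := by rw [hgw, hg0']
        have h2 := hinj ⟨h.le.trans hw.1, hw.2⟩ ⟨le_rfl, zero_le_one⟩ h1
        linarith [hw.1]
      have hd := hF.dir_const hg hgF hne (left_mem_Icc.2 hv.2) (right_mem_Icc.2 hv.2)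
      have hq1 : 0 < (g v).1 := hF.pos _ (hgF v) (hne v (left_mem_Icc.2 hv.2))
      have hp1 : 0 < (g 1).1 := hF.pos _ (hgF 1) (hne 1 (right_mem_Icc.2 hv.2))
      rcases le_total (g v).1 (g 1).1 with h1 | h1
      · refine ⟨(g v).1 / (g 1).1, by positivity, (div_le_one hp1).2 h1, ?_⟩
        rw [← hgv, ← hg1]
        ext
        · simp only [Prod.smul_fst, smul_eq_mul]
          field_simp
        · simp only [Prod.smul_snd, smul_eq_mul]
          simp only [dir] at hd
          field_simp at hd ⊢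
          linarith
      · -- then `p` lies on the segment to `q`, hence `q = p`
        obtain ⟨w, hw, hgw⟩ := key v hv ((g 1).1 / (g v).1) (by positivity)
          ((div_le_one hq1).2 h1)
        have h2 : g w = g 1 := by
          rw [hgw]
          ext
          · simp only [Prod.smul_fst, smul_eq_mul]
            field_simp
          · simp only [Prod.smul_snd, smul_eq_mul]
            simp only [dir] at hd
            field_simp at hd ⊢
            linarith
        have h3 := hinj ⟨hw.1, hw.2.trans hv.2⟩ ⟨zero_le_one, le_rfl⟩ h2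
        have h4 : v = 1 := le_antisymm hv.2 (h3 ▸ hw.2)
        refine ⟨1, zero_le_one, le_rfl, ?_⟩
        rw [one_smul, ← hgv, ← hg1, h4]
  · rintro ⟨u, hu0, hu1, hq⟩
    obtain ⟨w, hw, hgw⟩ := key 1 ⟨zero_le_one, le_rfl⟩ u hu0 hu1
    obtain ⟨q', hq', hqw⟩ := hgA w
    have : q = q' := by
      apply Subtype.ext
      rw [hq, hqw, hgw, hg1]
    rw [this]
    exact hq'

/-- A segment in `F` is determined by its end point. -/
theorem Starlike.isSegment_eq (hF : Starlike F) {A : Set F} {p : F}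
    (hA : IsSegment A hF.top p) : A = seg p := by
  rcases hA with ⟨rfl, rfl⟩ | hA
  · ext q
    simp only [mem_singleton_iff, seg, Starlike.top, smul_zero]
    constructor
    · rintro rfl
      exact ⟨0, le_rfl, zero_le_one, rfl⟩
    · rintro ⟨_, _, _, h⟩
      exact Subtype.ext h
  · exact hF.arc_unique hA

theorem Starlike.isSmoothAt (hF : Starlike F) : IsSmoothAt hF.top := by
  intro x y A B hx hA hB
  have hB' := hF.isSegment_eq hB
  have hle : ∀ n, Metric.hausdorffEDist (A n) B ≤ edist (x n) y := by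
    intro n
    rw [hB', hF.isSegment_eq (hA n)]
    have key : ∀ (u : ℝ) (a b : ℝ × ℝ), 0 ≤ u → u ≤ 1 → edist (u • a) (u • b) ≤ edist a b := by
      intro u a b hu0 hu1
      rw [edist_dist, edist_dist]
      apply ENNReal.ofReal_le_ofReal
      rw [dist_smul₀, Real.norm_eq_abs, abs_of_nonneg hu0]
      exact mul_le_of_le_one_left dist_nonneg hu1
    apply Metric.hausdorffEDist_le_of_mem_edist
    · rintro q ⟨u, hu0, hu1, hq⟩
      refine ⟨⟨u • (y : ℝ × ℝ), hF.star y y.2 u hu0 hu1⟩, ⟨u, hu0, hu1, rfl⟩, ?_⟩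
      rw [Subtype.edist_eq, Subtype.edist_eq, hq]
      exact key u _ _ hu0 hu1
    · rintro q ⟨u, hu0, hu1, hq⟩
      refine ⟨⟨u • (x n : ℝ × ℝ), hF.star (x n) (x n).2 u hu0 hu1⟩, ⟨u, hu0, hu1, rfl⟩, ?_⟩
      rw [Subtype.edist_eq, Subtype.edist_eq, hq, edist_comm (x n : ℝ × ℝ)]
      exact key u _ _ hu0 hu1
  have h0 : Tendsto (fun n => edist (x n) y) atTop (𝓝 0) := by
    rw [← tendsto_iff_edist_tendsto_0]
    exact hx
  exact tendsto_of_tendsto_of_tendsto_of_le_of_le tendsto_const_nhds h0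
    (fun n => bot_le) hle

theorem Starlike.isDendroid (hF : Starlike F) : IsDendroid F where
  compact := isCompact_iff_compactSpace.1 hF.compact
  connected := by
    rw [← isConnected_iff_connectedSpace]
    refine ⟨⟨0, hF.zero_mem⟩, ?_⟩
    apply isPreconnected_of_forall (0 : ℝ × ℝ)
    intro y hy
    refine ⟨(fun u : ℝ => u • y) '' Icc 0 1, ?_, ⟨0, ⟨le_rfl, zero_le_one⟩, zero_smul _ _⟩,
      ⟨1, ⟨zero_le_one, le_rfl⟩, one_smul _ _⟩, ?_⟩
    · rintro _ ⟨u, hu, rfl⟩
      exact hF.star y hy u hu.1 hu.2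
    · exact isPreconnected_Icc.image _ (by fun_prop)
  arcwise := by
    intro x y hxy
    by_cases hx : x = hF.top
    · subst hx
      exact ⟨seg y, hF.isArc_seg (Ne.symm hxy)⟩
    · by_cases hy : y = hF.top
      · subst hy
        exact ⟨seg x, (hF.isArc_seg hx).symm⟩
      · by_cases hd : dir x = dir y
        · have hx1 := hF.pos x x.2 ((ne_top_iff hF).1 hx)
          have hy1 := hF.pos y y.2 ((ne_top_iff hF).1 hy)
          -- both points are multiples of the farther one
          have key : ∀ x y : F, x ≠ hF.top → y ≠ hF.top → x ≠ y → dir x = dir y →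
              (x : ℝ × ℝ).1 ≤ (y : ℝ × ℝ).1 → ∃ A : Set F, IsArc A x y := by
            intro x y hx hy hxy hd hle
            have hx1 := hF.pos x x.2 ((ne_top_iff hF).1 hx)
            have hy1 := hF.pos y y.2 ((ne_top_iff hF).1 hy)
            have h1 : (x : ℝ × ℝ) = ((x : ℝ × ℝ).1 / (y : ℝ × ℝ).1) • (y : ℝ × ℝ) := by
              ext
              · simp only [Prod.smul_fst, smul_eq_mul]
                field_simp
              · simp only [Prod.smul_snd, smul_eq_mul]
                simp only [dir] at hd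
                field_simp at hd ⊢
                linarith
            have h2 : (x : ℝ × ℝ).1 / (y : ℝ × ℝ).1 ≠ 1 := by
              intro h
              rw [h, one_smul] at h1
              exact hxy (Subtype.ext h1)
            obtain ⟨A, hA, _⟩ := hF.isArc_ray hy (a := (x : ℝ × ℝ).1 / (y : ℝ × ℝ).1) (b := 1)
              (by positivity) ((div_le_one hy1).2 hle) zero_le_one le_rfl h2
            refine ⟨A, ?_⟩
            have h3 : (⟨((x : ℝ × ℝ).1 / (y : ℝ × ℝ).1) • (y : ℝ × ℝ),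
                hF.star y y.2 _ (by positivity) ((div_le_one hy1).2 hle)⟩ : F) = x :=
              Subtype.ext h1.symm
            have h4 : (⟨(1 : ℝ) • (y : ℝ × ℝ), hF.star y y.2 1 zero_le_one le_rfl⟩ : F) = y := by
              apply Subtype.ext
              simp
            rw [h3, h4] at hA
            exact hA
          rcases le_total (x : ℝ × ℝ).1 (y : ℝ × ℝ).1 with h | h
          · exact key x y hx hy hxy hd h
          · obtain ⟨A, hA⟩ := key y x hy hx (Ne.symm hxy) hd.symm h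
            exact ⟨A, hA.symm⟩
        · obtain ⟨A, hA, _⟩ := hF.isArc_two hx hy hd
          exact ⟨A, hA⟩
  unicoherent := by
    intro K A B hK hA hB hKAB
    have hcpt : CompactSpace F := isCompact_iff_compactSpace.1 hF.compact
    have himg : ∀ A : Set F, IsSubcontinuum A → (Subtype.val '' A ⊆ F) ∧
        IsClosed (Subtype.val '' A) ∧ IsPreconnected (Subtype.val '' A) := by
      intro A hA
      refine ⟨?_, ?_, ?_⟩
      · rintro _ ⟨x, _, rfl⟩
        exact x.2
      · exact (hA.1.isCompact.image continuous_subtype_val).isClosed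
      · exact hA.2.isPreconnected.image _ continuous_subtype_val.continuousOn
    have hpre : IsPreconnected (A ∩ B) := by
      have h1 : IsPreconnected (Subtype.val '' (A ∩ B) : Set (ℝ × ℝ)) := by
        rw [image_inter Subtype.val_injective]
        exact hF.inter_preconnected (himg A hA).1 (himg A hA).2.1 (himg A hA).2.2
          (himg B hB).1 (himg B hB).2.1 (himg B hB).2.2
      exact IsInducing.subtypeVal.isPreconnected_image.1 h1
    refine ⟨?_, hpre⟩
    -- nonempty, because `K = A ∪ B` is connected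
    by_contra hemp
    rw [not_nonempty_iff_eq_empty] at hemp
    have hKc := hK.2.isPreconnected
    rw [isPreconnected_closed_iff] at hKc
    obtain ⟨x, hx⟩ := hKc A B hA.1 hB.1 (by rw [hKAB])
      (by
        obtain ⟨a, ha⟩ := hA.2.nonempty
        exact ⟨a, by rw [hKAB]; exact Or.inl ha, ha⟩)
      (by
        obtain ⟨b, hb⟩ := hB.2.nonempty
        exact ⟨b, by rw [hKAB]; exact Or.inr hb, hb⟩)
    have : x ∈ A ∩ B := hx.2
    rw [hemp] at this
    exact this

theorem seg_inter (hF : Starlike F) {p q : F} (hp : p ≠ hF.top) (hq : q ≠ hF.top)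
    (hpq : dir p ≠ dir q) : seg p ∩ seg q = {hF.top} := by
  ext x
  simp only [mem_inter_iff, mem_singleton_iff]
  constructor
  · rintro ⟨⟨u, hu0, hu1, hu⟩, ⟨v, hv0, hv1, hv⟩⟩
    by_contra hx
    have hx0 := (ne_top_iff hF).1 hx
    have hu' : u ≠ 0 := by
      rintro rfl
      rw [zero_smul] at hu
      exact hx0 hu
    have hv' : v ≠ 0 := by
      rintro rfl
      rw [zero_smul] at hv
      exact hx0 hv
    apply hpq
    have h1 : dir (x : ℝ × ℝ) = dir (p : ℝ × ℝ) := by rw [hu, dir_smul hu']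
    have h2 : dir (x : ℝ × ℝ) = dir (q : ℝ × ℝ) := by rw [hv, dir_smul hv']
    rw [← h1, h2]
  · rintro rfl
    exact ⟨⟨0, le_rfl, zero_le_one, by simp [Starlike.top]⟩,
      ⟨0, le_rfl, zero_le_one, by simp [Starlike.top]⟩⟩

/-- A compact starlike planar set with countably many directions, at least three of them, is a
fan with the origin as its top. -/
theorem Starlike.isFan (hF : Starlike F) {a b c : F} (ha : a ≠ hF.top) (hb : b ≠ hF.top)
    (hc : c ≠ hF.top) (hab : dir a ≠ dir b) (hac : dir a ≠ dir c) (hbc : dir b ≠ dir c) :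
    IsFan hF.top := by
  refine ⟨hF.isDendroid, ?_⟩
  intro p
  constructor
  · exact hF.eq_top_of_ramification
  · rintro rfl
    exact ⟨seg a, seg b, seg c, a, b, c, hF.isArc_seg ha, hF.isArc_seg hb, hF.isArc_seg hc,
      seg_inter hF ha hb hab, seg_inter hF ha hc hac, seg_inter hF hb hc hbc⟩

/-- The origin is not an endpoint if there are two directions. -/
theorem Starlike.not_isEndpoint_top (hF : Starlike F) {a b : F} (ha : a ≠ hF.top)
    (hb : b ≠ hF.top) (hab : dir a ≠ dir b) : ¬ IsEndpoint hF.top := by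
  intro h
  obtain ⟨A, hA, h0⟩ := hF.isArc_two ha hb hab
  rcases h A a b hA h0 with h | h
  · exact ha h.symm
  · exact hb h.symm

/-- Points in the interior of a ray are not endpoints. -/
theorem Starlike.not_isEndpoint (hF : Starlike F) {p q : F} (hp : p ≠ hF.top)
    (hpq : p ∈ seg q) (hne : p ≠ q) : ¬ IsEndpoint p := by
  intro h
  have hq : q ≠ hF.top := by
    rintro rfl
    obtain ⟨u, _, _, hu⟩ := hpq
    apply hp
    apply Subtype.ext
    rw [hu]
    simp [Starlike.top]
  rcases h (seg q) hF.top q (hF.isArc_seg hq) hpq with h | h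
  · exact hp h
  · exact hne h

end Pool.Agent.Helper40.Fans
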