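import Mathlib
import Pool.Agent.Helper40.FanPlanar

/-!
# A smooth `{0, 1/2}`-endpoint-generated fan that is not endpoint-homogeneous

The blades of the fan are indexed by the finite subsets `s` of `ℕ`; the blade of `s` has direction
`d s` (a Cantor-type embedding of the finite subsets of `ℕ` in the line), length `height s`, and
the other endpoints accumulate on it at the origin and at height `mid s` only.
-/

set_option autoImplicit false

open Set Topology Filter unitInterval

namespace Pool.Agent.Helper40.Fans

/-- The point of the Cantor space given by a finite set. -/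
def chi (s : Finset ℕ) : ℕ → Bool := fun a => decide (a ∈ s)

/-- The part below `k` of a point of the Cantor space. -/
def trunc (A : ℕ → Bool) (k : ℕ) : Finset ℕ := (Finset.range k).filter (fun a => A a = true)

/-- The embedding of the Cantor space in the line. -/
noncomputable def cf (A : ℕ → Bool) : ℝ := Cardinal.cantorFunction (1 / 3) A

/-- The direction of the blade of `s`. -/
noncomputable def dr (s : Finset ℕ) : ℝ := cf (chi s)

/-- The height of the accumulation point on the blade of `s`. -/
noncomputable def mid (s : Finset ℕ) : ℝ :=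
  if s.card = 0 then 1 / 2 else if s.card = 1 then 1 / 2 - (1 / 2) ^ (s.sup id + 2)
  else (1 / 2) ^ (s.sup id + 3)

/-- The length of the blade of `s`. -/
noncomputable def height (s : Finset ℕ) : ℝ := if s = ∅ then 1 else mid (s.erase (s.sup id))

theorem continuous_cf : Continuous cf := by
  unfold cf Cardinal.cantorFunction
  apply continuous_tsum (u := fun n => (1 / 3 : ℝ) ^ n)
  · intro n
    unfold Cardinal.cantorFunctionAux
    have h1 : Continuous (fun b : Bool => (cond b ((1 / 3 : ℝ) ^ n) 0 : ℝ)) :=
      continuous_of_discreteTopology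
    exact h1.comp (continuous_apply n)
  · exact summable_geometric_of_lt_one (by norm_num) (by norm_num)
  · intro n A
    unfold Cardinal.cantorFunctionAux
    cases A n
    · simp
    · simp

theorem injective_cf : Function.Injective cf :=
  Cardinal.cantorFunction_injective (by norm_num) (by norm_num)

theorem isEmbedding_cf : IsEmbedding cf :=
  (continuous_cf.isClosedEmbedding injective_cf).isEmbedding

theorem injective_chi : Function.Injective chi := by
  intro s t h
  ext a
  have := congrFun h a
  simp only [chi, decide_eq_decide] at this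
  exact this

theorem injective_dr : Function.Injective dr := injective_cf.comp injective_chi

theorem trunc_chi (s : Finset ℕ) (k : ℕ) : trunc (chi s) k = s.filter (· < k) := by
  ext a
  simp [trunc, chi, and_comm]

/-- The set of points agreeing with `A` below `k` is a neighbourhood of `A`. -/
theorem agree_mem_nhds (A : ℕ → Bool) (k : ℕ) : {B : ℕ → Bool | ∀ a < k, B a = A a} ∈ 𝓝 A := by
  have h1 : IsOpen (⋂ a ∈ Finset.range k, {B : ℕ → Bool | B a = A a}) := by
    apply isOpen_biInter_finset
    intro a _
    have h2 : IsOpen ((fun B : ℕ → Bool => B a) ⁻¹' {A a}) :=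
      (isOpen_discrete _).preimage (continuous_apply a)
    exact h2
  have h2 : {B : ℕ → Bool | ∀ a < k, B a = A a} =
      ⋂ a ∈ Finset.range k, {B : ℕ → Bool | B a = A a} := by
    ext B
    simp
  rw [h2]
  apply h1.mem_nhds
  simp

theorem trunc_eq_of_agree {A B : ℕ → Bool} {k : ℕ} (h : ∀ a < k, B a = A a) :
    trunc B k = trunc A k := by
  unfold trunc
  apply Finset.filter_congr
  intro a ha
  rw [h a (Finset.mem_range.1 ha)]

theorem continuous_height_trunc (k : ℕ) : Continuous fun A => height (trunc A k) := by
  rw [continuous_iff_continuousAt]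
  intro A
  apply ContinuousAt.congr (f := fun _ => height (trunc A k)) continuousAt_const
  filter_upwards [agree_mem_nhds A k] with B hB
  rw [trunc_eq_of_agree hB]

/-- Closeness of directions means agreement on initial parts. -/
theorem exists_eps (s : Finset ℕ) (k : ℕ) :
    ∃ ε > 0, ∀ s' : Finset ℕ, |dr s' - dr s| < ε → s'.filter (· < k) = s.filter (· < k) := by
  have h1 := agree_mem_nhds (chi s) k
  rw [isEmbedding_cf.isInducing.nhds_eq_comap, Filter.mem_comap] at h1
  obtain ⟨t, ht, hts⟩ := h1
  obtain ⟨ε, hε, hball⟩ := Metric.mem_nhds_iff.1 ht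
  refine ⟨ε, hε, ?_⟩
  intro s' hs'
  have h2 : chi s' ∈ {B : ℕ → Bool | ∀ a < k, B a = chi s a} := by
    apply hts
    apply hball
    rw [Metric.mem_ball, Real.dist_eq]
    exact hs'
  rw [← trunc_chi, ← trunc_chi]
  exact trunc_eq_of_agree h2

theorem abs_dr_le (s : Finset ℕ) : |dr s| ≤ 3 / 2 := by
  have h1 : ∀ f : ℕ → Bool, 0 ≤ Cardinal.cantorFunction (1 / 3 : ℝ) f := by
    intro f
    exact tsum_nonneg (fun n => Cardinal.cantorFunctionAux_nonneg (by norm_num))
  have h2 : Cardinal.cantorFunction (1 / 3 : ℝ) (chi s) ≤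
      Cardinal.cantorFunction (1 / 3 : ℝ) (fun _ => true) :=
    Cardinal.cantorFunction_le (by norm_num) (by norm_num) (fun _ _ => rfl)
  have h3 : Cardinal.cantorFunction (1 / 3 : ℝ) (fun _ => true) = 3 / 2 := by
    unfold Cardinal.cantorFunction Cardinal.cantorFunctionAux
    simp only [cond_true]
    rw [tsum_geometric_of_lt_one (by norm_num) (by norm_num)]
    norm_num
  unfold dr cf
  rw [abs_of_nonneg (h1 _)]
  linarith

theorem tendsto_dr_insert (s : Finset ℕ) (g : ℕ → Finset ℕ)
    (hg : ∀ k, ∀ᶠ n in atTop, ∀ a < k, (a ∈ g n ↔ a ∈ s)) :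
    Tendsto (fun n => dr (g n)) atTop (𝓝 (dr s)) := by
  unfold dr
  apply (continuous_cf.tendsto _).comp
  rw [tendsto_pi_nhds]
  intro a
  apply tendsto_const_nhds.congr'
  filter_upwards [hg (a + 1)] with n hn
  have := hn a (Nat.lt_succ_self a)
  simp only [chi]
  rw [decide_eq_decide]
  exact this.symm

/-! ### The numbers `mid s` and `height s` -/

theorem sup_mem {s : Finset ℕ} (hs : s ≠ ∅) : s.sup id ∈ s := by
  obtain ⟨a, ha, ha'⟩ := Finset.exists_mem_eq_sup s (Finset.nonempty_iff_ne_empty.2 hs) id
  rw [ha']
  exact ha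

theorem le_sup_id {s : Finset ℕ} {a : ℕ} (ha : a ∈ s) : a ≤ s.sup id :=
  Finset.le_sup (f := id) ha

theorem mid_empty : mid ∅ = 1 / 2 := by simp [mid]

theorem mid_singleton (m : ℕ) : mid {m} = 1 / 2 - (1 / 2) ^ (m + 2) := by simp [mid]

theorem mid_of_two_le {s : Finset ℕ} (hs : 2 ≤ s.card) : mid s = (1 / 2) ^ (s.sup id + 3) := by
  unfold mid
  rw [if_neg (by omega), if_neg (by omega)]

theorem height_empty : height ∅ = 1 := by simp [height]

theorem height_of_ne {s : Finset ℕ} (hs : s ≠ ∅) : height s = mid (s.erase (s.sup id)) := by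
  unfold height
  rw [if_neg hs]

theorem pow_le_quarter (m : ℕ) : (1 / 2 : ℝ) ^ (m + 2) ≤ 1 / 4 := by
  rw [pow_add]
  have : (1 / 2 : ℝ) ^ m ≤ 1 := pow_le_one₀ (by norm_num) (by norm_num)
  nlinarith

theorem pow_le_eighth (m : ℕ) : (1 / 2 : ℝ) ^ (m + 3) ≤ 1 / 8 := by
  rw [pow_add]
  have : (1 / 2 : ℝ) ^ m ≤ 1 := pow_le_one₀ (by norm_num) (by norm_num)
  nlinarith

theorem mid_pos (s : Finset ℕ) : 0 < mid s := by
  unfold mid
  split_ifs
  · norm_num
  · have := pow_le_quarter (s.sup id)
    linarith
  · positivity

theorem mid_lt_height (s : Finset ℕ) : mid s < height s := by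
  by_cases hs : s = ∅
  · subst hs
    rw [mid_empty, height_empty]
    norm_num
  · rw [height_of_ne hs]
    have hmem := sup_mem hs
    have hcard := Finset.card_erase_of_mem hmem
    have hpos : 0 < s.card := Finset.card_pos.2 (Finset.nonempty_iff_ne_empty.2 hs)
    by_cases h1 : s.card = 1
    · have h2 : s.erase (s.sup id) = ∅ := by
        rw [← Finset.card_eq_zero, hcard, h1]
      rw [h2, mid_empty]
      unfold mid
      rw [if_neg (by omega), if_pos h1]
      have : (0 : ℝ) < (1 / 2) ^ (s.sup id + 2) := by positivity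
      linarith
    · rw [mid_of_two_le (by omega)]
      by_cases h3 : s.card = 2
      · have h4 : (s.erase (s.sup id)).card = 1 := by omega
        have h5 : mid (s.erase (s.sup id)) = 1 / 2 - (1 / 2) ^ ((s.erase (s.sup id)).sup id + 2) := by
          unfold mid
          rw [if_neg (by omega), if_pos h4]
        rw [h5]
        have h6 := pow_le_quarter ((s.erase (s.sup id)).sup id)
        have h7 := pow_le_eighth (s.sup id)
        linarith
      · rw [mid_of_two_le (by omega)]
        apply pow_lt_pow_right_of_lt_one₀ (by norm_num) (by norm_num)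
        have h8 : s.erase (s.sup id) ≠ ∅ := by
          rw [← Finset.card_pos.trans Finset.nonempty_iff_ne_empty]
          omega
        have h9 := sup_mem h8
        have h10 := le_sup_id (Finset.mem_of_mem_erase h9)
        have h11 := Finset.ne_of_mem_erase h9
        omega

theorem height_pos (s : Finset ℕ) : 0 < height s := (mid_pos s).trans (mid_lt_height s)

theorem height_le_one (s : Finset ℕ) : height s ≤ 1 := by
  by_cases hs : s = ∅
  · rw [hs, height_empty]
  · rw [height_of_ne hs]
    unfold mid
    split_ifs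
    · norm_num
    · have : (0 : ℝ) < (1 / 2) ^ ((s.erase (s.sup id)).sup id + 2) := by positivity
      linarith
    · have := pow_le_eighth ((s.erase (s.sup id)).sup id)
      linarith

/-- Removing the largest element increases the height. -/
theorem height_le_filter (k : ℕ) (s : Finset ℕ) : height s ≤ height (s.filter (· < k)) := by
  induction s using Finset.strongInduction with
  | H s ih =>
    by_cases h : s.filter (· < k) = s
    · rw [h]
    · have hs : s ≠ ∅ := by
        rintro rfl
        simp at h
      have hmem := sup_mem hs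
      have hk : k ≤ s.sup id := by
        by_contra hlt
        push Not at hlt
        apply h
        apply Finset.filter_true_of_mem
        intro a ha
        exact lt_of_le_of_lt (le_sup_id ha) hlt
      have h1 : s.filter (· < k) = (s.erase (s.sup id)).filter (· < k) := by
        ext a
        simp only [Finset.mem_filter, Finset.mem_erase]
        constructor
        · rintro ⟨ha, hak⟩
          exact ⟨⟨by omega, ha⟩, hak⟩
        · rintro ⟨⟨_, ha⟩, hak⟩
          exact ⟨ha, hak⟩
      rw [h1]
      refine le_trans ?_ (ih _ (Finset.erase_ssubset hmem))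
      rw [height_of_ne hs]
      exact (mid_lt_height _).le

theorem exists_pow_lt {δ : ℝ} (hδ : 0 < δ) : ∃ k : ℕ, ∀ m, k ≤ m → (1 / 2 : ℝ) ^ m < δ := by
  obtain ⟨k, hk⟩ := exists_pow_lt_of_lt_one hδ (show (1 / 2 : ℝ) < 1 by norm_num)
  refine ⟨k, fun m hm => lt_of_le_of_lt ?_ hk⟩
  exact pow_le_pow_of_le_one (by norm_num) (by norm_num) hm

/-- The cluster values of `height` at `s` are `mid s` and `0`. -/
theorem cluster (s : Finset ℕ) {δ : ℝ} (hδ : 0 < δ) :
    ∃ k0 : ℕ, ∀ k : ℕ, k0 ≤ k → ∀ s' : Finset ℕ, s'.filter (· < k) = s → s' ≠ s →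
      |height s' - mid s| < δ ∨ height s' < δ := by
  obtain ⟨k0, hk⟩ := exists_pow_lt hδ
  refine ⟨k0, ?_⟩
  intro k hk0 s' hs' hne
  have hs'0 : s' ≠ ∅ := by
    rintro rfl
    apply hne
    rw [← hs']
    simp
  have hsub : s ⊆ s' := by
    rw [← hs']
    exact Finset.filter_subset _ _
  -- an element of `s'` that is not in `s` is at least `k`
  have hnew : ∀ a ∈ s', a ∉ s → k ≤ a := by
    intro a ha has
    by_contra hlt
    push Not at hlt
    apply has
    rw [← hs']
    exact Finset.mem_filter.2 ⟨ha, hlt⟩
  have hold : ∀ a ∈ s, a < k := by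
    intro a ha
    rw [← hs'] at ha
    exact (Finset.mem_filter.1 ha).2
  obtain ⟨b, hb, hbs⟩ : ∃ b ∈ s', b ∉ s := by
    by_contra hcon
    push Not at hcon
    exact hne (Finset.Subset.antisymm hcon hsub)
  have hM : k ≤ s'.sup id := (hnew b hb hbs).trans (le_sup_id hb)
  have hMs : s'.sup id ∉ s := fun h => absurd (hold _ h) (not_lt.2 hM)
  set s'' := s'.erase (s'.sup id) with hs''
  have hsub'' : s ⊆ s'' := by
    intro a ha
    apply Finset.mem_erase.2
    refine ⟨?_, hsub ha⟩
    rintro rfl
    exact hMs ha
  rw [height_of_ne hs'0, ← hs'']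
  by_cases heq : s'' = s
  · left
    rw [heq, sub_self, abs_zero]
    exact hδ
  · obtain ⟨c, hc, hcs⟩ : ∃ c ∈ s'', c ∉ s := by
      by_contra hcon
      push Not at hcon
      exact heq (Finset.Subset.antisymm hcon hsub'')
    have hck : k ≤ c := hnew c (Finset.mem_of_mem_erase hc) hcs
    have hcsup : k ≤ s''.sup id := hck.trans (le_sup_id hc)
    by_cases h2 : 2 ≤ s''.card
    · right
      rw [mid_of_two_le h2]
      exact hk _ (by omega)
    · left
      have h1 : s''.card = 1 := by
        have : 0 < s''.card := Finset.card_pos.2 ⟨c, hc⟩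
        omega
      obtain ⟨m, hm⟩ := Finset.card_eq_one.1 h1
      have hcm : c = m := by
        rw [hm, Finset.mem_singleton] at hc
        exact hc
      have hs0 : s = ∅ := by
        rw [Finset.eq_empty_iff_forall_notMem]
        intro a ha
        have h3 := hsub'' ha
        rw [hm, Finset.mem_singleton] at h3
        rw [h3, ← hcm] at ha
        exact hcs ha
      rw [hm, mid_singleton, hs0, mid_empty]
      have h4 : (1 / 2 : ℝ) - (1 / 2) ^ (m + 2) - 1 / 2 = -((1 / 2) ^ (m + 2)) := by ring
      rw [h4, abs_neg, abs_of_nonneg (by positivity)]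
      exact hk _ (by omega)

/-- Along an infinite set the heights tend to `0`. -/
theorem exists_height_lt {A : ℕ → Bool} (hA : {a | A a = true}.Infinite) {δ : ℝ} (hδ : 0 < δ) :
    ∃ k, height (trunc A k) < δ := by
  obtain ⟨j, hj⟩ := exists_pow_lt hδ
  obtain ⟨a1, ha1, h1⟩ := hA.exists_gt j
  obtain ⟨a2, ha2, h2⟩ := hA.exists_gt a1
  obtain ⟨a3, ha3, h3⟩ := hA.exists_gt a2
  refine ⟨a3 + 1, ?_⟩
  have m1 : a1 ∈ trunc A (a3 + 1) := by
    simp only [trunc, Finset.mem_filter, Finset.mem_range]
    exact ⟨by omega, ha1⟩
  have m2 : a2 ∈ trunc A (a3 + 1) := by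
    simp only [trunc, Finset.mem_filter, Finset.mem_range]
    exact ⟨by omega, ha2⟩
  have m3 : a3 ∈ trunc A (a3 + 1) := by
    simp only [trunc, Finset.mem_filter, Finset.mem_range]
    exact ⟨by omega, ha3⟩
  have hsup : (trunc A (a3 + 1)).sup id = a3 := by
    apply le_antisymm
    · apply Finset.sup_le
      intro a ha
      simp only [trunc, Finset.mem_filter, Finset.mem_range] at ha
      simp only [id]
      omega
    · exact le_sup_id m3
  have hne : trunc A (a3 + 1) ≠ ∅ := Finset.nonempty_iff_ne_empty.1 ⟨a1, m1⟩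
  rw [height_of_ne hne, hsup]
  have n1 : a1 ∈ (trunc A (a3 + 1)).erase a3 := Finset.mem_erase.2 ⟨by omega, m1⟩
  have n2 : a2 ∈ (trunc A (a3 + 1)).erase a3 := Finset.mem_erase.2 ⟨by omega, m2⟩
  rw [mid_of_two_le (Finset.one_lt_card.2 ⟨a1, n1, a2, n2, by omega⟩)]
  apply hj
  have := le_sup_id n1
  omega

/-! ### The fan -/

/-- The fan: the union of the segments from the origin to `height s • (1, dr s)`. -/
noncomputable def fan : Set (ℝ × ℝ) :=
  {p | ∃ (s : Finset ℕ) (r : ℝ), 0 ≤ r ∧ r ≤ height s ∧ p = (r, r * dr s)}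

theorem fan_eq_image : fan = (fun q : (ℕ → Bool) × ℝ => (q.2, q.2 * cf q.1)) ''
    ((univ ×ˢ Icc (0 : ℝ) 1) ∩ ⋂ k : ℕ, {q : (ℕ → Bool) × ℝ | q.2 ≤ height (trunc q.1 k)}) := by
  ext p
  constructor
  · rintro ⟨s, r, h0, h1, rfl⟩
    refine ⟨(chi s, r), ⟨⟨mem_univ _, h0, h1.trans (height_le_one s)⟩, ?_⟩, rfl⟩
    rw [mem_iInter]
    intro k
    change r ≤ height (trunc (chi s) k)
    rw [trunc_chi]
    exact h1.trans (height_le_filter k s)
  · rintro ⟨⟨A, r⟩, ⟨⟨_, h0, _⟩, h1⟩, rfl⟩
    rw [mem_iInter] at h1
    have h1' : ∀ k, r ≤ height (trunc A k) := h1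
    have h0' : 0 ≤ r := h0
    rcases h0'.eq_or_lt with hr | hr
    · refine ⟨∅, 0, le_rfl, (height_pos _).le, ?_⟩
      rw [← hr]
      simp
    · have hfin : {a | A a = true}.Finite := by
        by_contra hinf
        obtain ⟨k, hk⟩ := exists_height_lt hinf hr
        exact absurd (h1' k) (not_le.2 hk)
      refine ⟨hfin.toFinset, r, h0', ?_, ?_⟩
      · have h2 := h1' (hfin.toFinset.sup id + 1)
        have h3 : trunc A (hfin.toFinset.sup id + 1) = hfin.toFinset := by
          ext a
          simp only [trunc, Finset.mem_filter, Finset.mem_range, Set.Finite.mem_toFinset,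
            mem_ofPred_eq]
          constructor
          · exact fun h => h.2
          · intro h
            refine ⟨?_, h⟩
            have : a ∈ hfin.toFinset := by
              rw [Set.Finite.mem_toFinset]
              exact h
            have := le_sup_id this
            omega
        rwa [h3] at h2
      · have h2 : chi hfin.toFinset = A := by
          funext a
          simp only [chi, Set.Finite.mem_toFinset, mem_ofPred_eq]
          cases A a <;> simp
        simp only [dr, h2]

theorem isCompact_fan : IsCompact fan := by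
  rw [fan_eq_image]
  apply IsCompact.image
  · apply IsCompact.inter_right
    · exact isCompact_univ.prod isCompact_Icc
    · apply isClosed_iInter
      intro k
      exact isClosed_le continuous_snd ((continuous_height_trunc k).comp continuous_fst)
  · exact continuous_snd.prodMk (continuous_snd.mul (continuous_cf.comp continuous_fst))

theorem starlike_fan : Starlike fan where
  compact := isCompact_fan
  zero_mem := ⟨∅, 0, le_rfl, (height_pos _).le, by ext <;> simp⟩
  star := by
    rintro _ ⟨s, r, h0, h1, rfl⟩ u hu0 hu1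
    refine ⟨s, u * r, mul_nonneg hu0 h0, ?_, ?_⟩
    · nlinarith
    · ext
      · simp
      · simp [mul_assoc]
  pos := by
    rintro _ ⟨s, r, h0, h1, rfl⟩ hne
    rcases h0.eq_or_lt with h | h
    · exfalso
      apply hne
      simp [← h]
    · exact h
  countable := by
    apply (countable_range dr).mono
    rintro _ ⟨_, ⟨s, r, h0, h1, rfl⟩, hne, rfl⟩
    refine ⟨s, ?_⟩
    rw [dir_mk]
    rintro rfl
    apply hne
    simp

/-- The endpoint of the blade of `s`. -/
noncomputable def ept (s : Finset ℕ) : fan :=
  ⟨(height s, height s * dr s), s, height s, (height_pos s).le, le_rfl, rfl⟩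

/-- The accumulation point on the blade of `s`. -/
noncomputable def mpt (s : Finset ℕ) : fan :=
  ⟨(mid s, mid s * dr s), s, mid s, (mid_pos s).le, (mid_lt_height s).le, rfl⟩

/-- The top of the fan. -/
noncomputable def ftop : fan := starlike_fan.top

theorem ept_ne_top (s : Finset ℕ) : ept s ≠ ftop := by
  intro h
  have h1 : (height s, height s * dr s) = (0 : ℝ × ℝ) := congrArg Subtype.val h
  exact (height_pos s).ne' (congrArg Prod.fst h1)

theorem mpt_ne_top (s : Finset ℕ) : mpt s ≠ ftop := by
  intro h
  have h1 : (mid s, mid s * dr s) = (0 : ℝ × ℝ) := congrArg Subtype.val h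
  exact (mid_pos s).ne' (congrArg Prod.fst h1)

theorem dir_ept (s : Finset ℕ) : dir (ept s) = dr s := dir_mk (height_pos s).ne'

theorem dir_mpt (s : Finset ℕ) : dir (mpt s) = dr s := dir_mk (mid_pos s).ne'

theorem mem_seg_ept {s : Finset ℕ} {q : fan} :
    q ∈ seg (ept s) ↔ ∃ r, 0 ≤ r ∧ r ≤ height s ∧ (q : ℝ × ℝ) = (r, r * dr s) := by
  have hpos := height_pos s
  constructor
  · rintro ⟨u, hu0, hu1, hu⟩
    refine ⟨u * height s, mul_nonneg hu0 hpos.le, by nlinarith, ?_⟩
    rw [hu]
    ext
    · simp [ept]
    · simp [ept, mul_assoc]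
  · rintro ⟨r, h0, h1, hr⟩
    refine ⟨r / height s, div_nonneg h0 hpos.le, (div_le_one hpos).2 h1, ?_⟩
    rw [hr]
    ext
    · simp only [ept, Prod.smul_fst, smul_eq_mul]
      field_simp
    · simp only [ept, Prod.smul_snd, smul_eq_mul]
      field_simp

theorem exists_seg (q : fan) : ∃ s, q ∈ seg (ept s) := by
  obtain ⟨s, r, h0, h1, hr⟩ := q.2
  exact ⟨s, mem_seg_ept.2 ⟨r, h0, h1, hr⟩⟩

theorem eq_of_mem_seg {s : Finset ℕ} {q : fan} (hq : q ∈ seg (ept s)) (hq0 : q ≠ ftop) :
    dir q = dr s := by
  obtain ⟨r, h0, h1, hr⟩ := mem_seg_ept.1 hq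
  rw [hr]
  apply dir_mk
  rintro rfl
  apply hq0
  apply Subtype.ext
  rw [hr]
  simp [ftop, Starlike.top]

theorem isFan_fan : IsFan ftop := by
  apply starlike_fan.isFan (ept_ne_top ∅) (ept_ne_top {0}) (ept_ne_top {1})
  · rw [dir_ept, dir_ept]
    exact fun h => by simpa using injective_dr h
  · rw [dir_ept, dir_ept]
    exact fun h => by simpa using injective_dr h
  · rw [dir_ept, dir_ept]
    exact fun h => by simpa using injective_dr h

theorem endpoints_fan : endpoints fan = range ept := by
  ext q
  constructor
  · intro hq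
    have hq0 : q ≠ ftop := by
      rintro rfl
      refine starlike_fan.not_isEndpoint_top (ept_ne_top ∅) (ept_ne_top {0}) ?_ hq
      rw [dir_ept, dir_ept]
      exact fun h => by simpa using injective_dr h
    obtain ⟨s, hs⟩ := exists_seg q
    refine ⟨s, ?_⟩
    by_contra hne
    exact starlike_fan.not_isEndpoint hq0 hs (Ne.symm hne) hq
  · rintro ⟨s, rfl⟩
    apply starlike_fan.isEndpoint (ept_ne_top s)
    rintro _ ⟨s', r, h0, h1, rfl⟩ hne hd
    have hr : r ≠ 0 := by
      rintro rfl
      apply hne
      simp
    rw [dir_ept, dir_mk hr] at hd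
    have := injective_dr hd
    subst this
    exact h1

/-! ### Accumulation of endpoints -/

theorem tendsto_of_coord {g : ℕ → fan} {s : ℕ → Finset ℕ} {r : ℕ → ℝ}
    (hg : ∀ n, (g n : ℝ × ℝ) = (r n, r n * dr (s n))) {q : fan} {r' d' : ℝ}
    (hq : (q : ℝ × ℝ) = (r', r' * d')) (hr : Tendsto r atTop (𝓝 r'))
    (hs : Tendsto (fun n => dr (s n)) atTop (𝓝 d')) : Tendsto g atTop (𝓝 q) := by
  rw [tendsto_subtype_rng]
  rw [hq]
  simp only [hg]
  exact hr.prodMk_nhds (hr.mul hs)

/-- If points `(r', r' * dr s')` approach `(r, r * dr s)` with `r > 0`, then `s'` agrees with `s`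
on long initial parts. -/
theorem exists_delta {s : Finset ℕ} {r : ℝ} (hr : 0 < r) (k : ℕ) :
    ∃ δ > 0, ∀ (s' : Finset ℕ) (r' : ℝ), dist (r', r' * dr s') (r, r * dr s) < δ →
      s'.filter (· < k) = s.filter (· < k) := by
  obtain ⟨ε, hε, h⟩ := exists_eps s k
  refine ⟨ε * r / 3, by positivity, ?_⟩
  intro s' r' hd
  apply h
  rw [Prod.dist_eq, max_lt_iff] at hd
  obtain ⟨h1, h2⟩ := hd
  simp only [Real.dist_eq] at h1 h2
  have h3 : r * (dr s' - dr s) = (r' * dr s' - r * dr s) - (r' - r) * dr s' := by ring
  have h4 : |r * (dr s' - dr s)| ≤ |r' * dr s' - r * dr s| + |r' - r| * |dr s'| := by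
    rw [h3, ← abs_mul]
    exact abs_sub _ _
  have h5 := abs_dr_le s'
  have h6 : |r' - r| * |dr s'| ≤ |r' - r| * (3 / 2) :=
    mul_le_mul_of_nonneg_left h5 (abs_nonneg _)
  rw [abs_mul, abs_of_pos hr] at h4
  have h7 : r * |dr s' - dr s| < r * ε := by nlinarith
  exact lt_of_mul_lt_mul_left h7 hr.le

theorem filter_lt_self {s : Finset ℕ} {k : ℕ} (hk : s.sup id < k) : s.filter (· < k) = s := by
  apply Finset.filter_true_of_mem
  intro a ha
  exact lt_of_le_of_lt (le_sup_id ha) hk

/-- The endpoints off the blade of `s` accumulate on this blade at the top and at `mpt s`. -/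
theorem blade_inter_closure (s : Finset ℕ) :
    seg (ept s) ∩ closure (endpoints fan \ seg (ept s)) = {ftop, mpt s} := by
  have hnotin : ∀ s', s' ≠ s → ept s' ∈ endpoints fan \ seg (ept s) := by
    intro s' hne
    refine ⟨by rw [endpoints_fan]; exact mem_range_self _, ?_⟩
    intro hmem
    have := eq_of_mem_seg hmem (ept_ne_top s')
    rw [dir_ept] at this
    exact hne (injective_dr this)
  ext q
  constructor
  · rintro ⟨hq1, hq2⟩
    by_contra hcon
    rw [mem_insert_iff, mem_singleton_iff] at hcon
    push Not at hcon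
    obtain ⟨r, h0, h1, hr⟩ := mem_seg_ept.1 hq1
    have hr0 : 0 < r := by
      rcases h0.eq_or_lt with h | h
      · exfalso
        apply hcon.1
        apply Subtype.ext
        rw [hr, ← h]
        simp [ftop, Starlike.top]
      · exact h
    have hrm : r ≠ mid s := by
      rintro rfl
      exact hcon.2 (Subtype.ext hr)
    -- choose `δ` smaller than half of both `r` and `|r - mid s|`
    set δ : ℝ := min (r / 2) (|r - mid s| / 2) with hδ
    have hδ0 : 0 < δ := by
      apply lt_min (by linarith)
      have : 0 < |r - mid s| := abs_pos.2 (sub_ne_zero.2 hrm)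
      linarith
    have hδ1 : δ ≤ r / 2 := min_le_left _ _
    have hδ2 : δ ≤ |r - mid s| / 2 := min_le_right _ _
    obtain ⟨k, hk⟩ := cluster s hδ0
    obtain ⟨η, hη, hη'⟩ := exists_delta (s := s) hr0 (max k (s.sup id + 1))
    rw [Metric.mem_closure_iff] at hq2
    obtain ⟨x, ⟨hx1, hx2⟩, hx3⟩ := hq2 (min η δ) (lt_min hη hδ0)
    rw [endpoints_fan] at hx1
    obtain ⟨s', rfl⟩ := hx1
    have hne : s' ≠ s := by
      rintro rfl
      apply hx2
      rw [mem_seg_ept]
      exact ⟨height s', (height_pos _).le, le_rfl, rfl⟩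
    have hd : dist ((height s', height s' * dr s') : ℝ × ℝ) (r, r * dr s) < min η δ := by
      rw [dist_comm, ← hr]
      exact hx3
    have hfil := hη' s' (height s') (hd.trans_le (min_le_left _ _))
    rw [filter_lt_self (s := s) (lt_of_lt_of_le (Nat.lt_succ_self _) (le_max_right _ _))] at hfil
    rcases hk _ (le_max_left _ _) s' hfil hne with h | h
    · -- `height s'` is close to `mid s`, hence so is `r`
      have h2 : |height s' - r| < δ := by
        have := hd.trans_le (min_le_right _ _)
        rw [Prod.dist_eq, max_lt_iff] at this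
        exact this.1
      have h3 : |r - mid s| < δ + δ := by
        have h4 : r - mid s = (height s' - mid s) - (height s' - r) := by ring
        rw [h4]
        exact lt_of_le_of_lt (abs_sub _ _) (add_lt_add h h2)
      linarith
    · have h2 : |height s' - r| < δ := by
        have := hd.trans_le (min_le_right _ _)
        rw [Prod.dist_eq, max_lt_iff] at this
        exact this.1
      rw [abs_lt] at h2
      linarith [h2.1]
  · intro hq
    rcases hq with rfl | hq
    · refine ⟨⟨0, le_rfl, zero_le_one, by simp [ftop, Starlike.top]⟩, ?_⟩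
      -- the endpoints of the blades `{n, n+1, n+2}` tend to the top
      have ht : Tendsto (fun n : ℕ => ept {n, n + 1, n + 2}) atTop (𝓝 ftop) := by
        have hh : ∀ n : ℕ, height {n, n + 1, n + 2} = (1 / 2) ^ (n + 4) := by
          intro n
          have h1 : ({n, n + 1, n + 2} : Finset ℕ).sup id = n + 2 := by
            simp
          rw [height_of_ne (by simp), h1]
          have h2 : ({n, n + 1, n + 2} : Finset ℕ).erase (n + 2) = {n, n + 1} := by
            ext a
            simp only [Finset.mem_erase, Finset.mem_insert, Finset.mem_singleton]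
            omega
          rw [h2, mid_of_two_le (by rw [Finset.card_pair (by omega)])]
          have h3 : ({n, n + 1} : Finset ℕ).sup id = n + 1 := by
            simp
          rw [h3]
        have hh0 : Tendsto (fun n : ℕ => height {n, n + 1, n + 2}) atTop (𝓝 0) := by
          simp only [hh]
          exact (tendsto_pow_atTop_nhds_zero_of_lt_one (by norm_num) (by norm_num)).comp
            (tendsto_add_atTop_nat 4)
        refine tendsto_of_coord (s := fun n => {n, n + 1, n + 2})
          (r := fun n => height {n, n + 1, n + 2}) (r' := 0) (d' := dr ∅) ?_ ?_ ?_ ?_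
        · intro n
          rfl
        · ext <;> simp [ftop, Starlike.top]
        · exact hh0
        · apply tendsto_dr_insert
          intro k
          filter_upwards [eventually_ge_atTop k] with n hn a ha
          simp only [Finset.mem_insert, Finset.mem_singleton, Finset.notMem_empty, iff_false]
          omega
      apply mem_closure_of_tendsto ht
      filter_upwards [eventually_gt_atTop (s.sup id)] with n hn
      apply hnotin
      intro heq
      have : n ∈ s := by
        rw [← heq]
        simp
      exact absurd (le_sup_id this) (not_le.2 hn)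
    · rw [mem_singleton_iff] at hq
      subst hq
      refine ⟨mem_seg_ept.2 ⟨mid s, (mid_pos s).le, (mid_lt_height s).le, rfl⟩, ?_⟩
      have hins : ∀ n, s.sup id < n → height (insert n s) = mid s := by
        intro n hn
        have hns : n ∉ s := fun h => absurd (le_sup_id h) (not_le.2 hn)
        have h1 : (insert n s).sup id = n := by
          rw [Finset.sup_insert]
          simp only [id]
          exact max_eq_left hn.le
        rw [height_of_ne (Finset.insert_ne_empty _ _), h1, Finset.erase_insert hns]
      have ht : Tendsto (fun n : ℕ => ept (insert n s)) atTop (𝓝 (mpt s)) := by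
        refine tendsto_of_coord (s := fun n => insert n s)
          (r := fun n => height (insert n s)) (r' := mid s) (d' := dr s) ?_ ?_ ?_ ?_
        · intro n
          rfl
        · rfl
        · apply tendsto_const_nhds.congr'
          filter_upwards [eventually_gt_atTop (s.sup id)] with n hn
          exact (hins n hn).symm
        · apply tendsto_dr_insert
          intro k
          filter_upwards [eventually_ge_atTop k] with n hn a ha
          rw [Finset.mem_insert]
          constructor
          · rintro (h | h)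
            · omega
            · exact h
          · exact Or.inr
      apply mem_closure_of_tendsto ht
      filter_upwards [eventually_gt_atTop (s.sup id)] with n hn
      apply hnotin
      intro heq
      have : n ∈ s := by
        rw [← heq]
        simp
      exact absurd (le_sup_id this) (not_le.2 hn)

/-! ### The fan is `{0, 1/2}`-endpoint-generated -/

/-- The set `{0, 1/2}`. -/
def halfSet : Set I := {x | (x : ℝ) = 0 ∨ (x : ℝ) = 1 / 2}

/-- The height function on the blade of `s`. -/
noncomputable def hgt (s : Finset ℕ) (v : ℝ) : ℝ :=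
  mid s * min (2 * v) 1 + (height s - mid s) * max (2 * v - 1) 0

theorem hgt_left (s : Finset ℕ) {v : ℝ} (hv : v ≤ 1 / 2) : hgt s v = mid s * (2 * v) := by
  unfold hgt
  rw [min_eq_left (by linarith), max_eq_right (by linarith)]
  ring

theorem hgt_right (s : Finset ℕ) {v : ℝ} (hv : 1 / 2 ≤ v) :
    hgt s v = mid s + (height s - mid s) * (2 * v - 1) := by
  unfold hgt
  rw [min_eq_right (by linarith), max_eq_left (by linarith)]
  ring

theorem strictMono_hgt (s : Finset ℕ) : StrictMono (hgt s) := by
  have h1 := mid_pos s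
  have h2 := mid_lt_height s
  intro v w hvw
  rcases le_total v (1 / 2) with hv | hv
  · rcases le_total w (1 / 2) with hw | hw
    · rw [hgt_left s hv, hgt_left s hw]
      nlinarith
    · rw [hgt_left s hv, hgt_right s hw]
      rcases hv.eq_or_lt with hv' | hv'
      · subst hv'
        nlinarith
      · nlinarith
  · have hw : 1 / 2 ≤ w := hv.trans hvw.le
    rw [hgt_right s hv, hgt_right s hw]
    nlinarith

theorem continuous_hgt (s : Finset ℕ) : Continuous (hgt s) := by
  unfold hgt
  fun_prop

theorem hgt_zero (s : Finset ℕ) : hgt s 0 = 0 := by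
  rw [hgt_left s (by norm_num)]
  ring

theorem hgt_half (s : Finset ℕ) : hgt s (1 / 2) = mid s := by
  rw [hgt_left s le_rfl]
  ring

theorem hgt_one (s : Finset ℕ) : hgt s 1 = height s := by
  rw [hgt_right s (by norm_num)]
  ring

theorem isEPG_fan : IsEPG halfSet ftop := by
  intro e B he hB
  rw [endpoints_fan] at he
  obtain ⟨s, rfl⟩ := he
  have hBs : B = seg (ept s) := starlike_fan.arc_unique hB
  have hmono := strictMono_hgt s
  have h0 : ∀ v : I, 0 ≤ hgt s v := fun v => by
    rw [← hgt_zero s]
    exact hmono.monotone v.2.1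
  have h1 : ∀ v : I, hgt s v ≤ height s := fun v => by
    rw [← hgt_one s]
    exact hmono.monotone v.2.2
  let φ : I → fan := fun v => ⟨(hgt s v, hgt s v * dr s), s, hgt s v, h0 v, h1 v, rfl⟩
  have hφ0 : φ 0 = ftop := by
    apply Subtype.ext
    have : hgt s ((0 : I) : ℝ) = 0 := hgt_zero s
    simp only [φ, this, ftop, Starlike.top]
    simp
  have hφh : φ ⟨1 / 2, by norm_num, by norm_num⟩ = mpt s := by
    apply Subtype.ext
    simp only [φ, mpt, hgt_half]
  refine ⟨φ, ?_, ?_, ?_, hφ0, ?_, ?_⟩
  · apply Continuous.subtype_mk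
    have := continuous_hgt s
    fun_prop
  · intro v w hvw
    have h2 : (hgt s v, hgt s v * dr s) = (hgt s w, hgt s w * dr s) := congrArg Subtype.val hvw
    exact Subtype.ext (hmono.injective (congrArg Prod.fst h2))
  · rw [hBs]
    ext q
    rw [mem_seg_ept]
    constructor
    · rintro ⟨v, rfl⟩
      exact ⟨hgt s v, h0 v, h1 v, rfl⟩
    · rintro ⟨r, hr0, hr1, hr⟩
      obtain ⟨v, hv, hvr⟩ := intermediate_value_Icc (zero_le_one (α := ℝ))
        (continuous_hgt s).continuousOn
        (show r ∈ Icc (hgt s 0) (hgt s 1) by rw [hgt_zero, hgt_one]; exact ⟨hr0, hr1⟩)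
      refine ⟨⟨v, hv⟩, ?_⟩
      apply Subtype.ext
      rw [hr]
      simp only [φ, hvr]
  · apply Subtype.ext
    have : hgt s ((1 : I) : ℝ) = height s := hgt_one s
    simp only [φ, this, ept]
  · rw [hBs, blade_inter_closure]
    ext q
    simp only [mem_image, mem_insert_iff, mem_singleton_iff]
    constructor
    · rintro ⟨v, hv, rfl⟩
      rcases hv with hv | hv
      · left
        rw [← hφ0]
        congr 1
        exact Subtype.ext hv
      · right
        rw [← hφh]
        congr 1
        exact Subtype.ext hv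
    · rintro (rfl | rfl)
      · exact ⟨0, Or.inl rfl, hφ0⟩
      · exact ⟨⟨1 / 2, by norm_num, by norm_num⟩, Or.inr rfl, hφh⟩

/-! ### The fan is not endpoint-homogeneous -/

/-- `mpt {0}` is isolated among the points `mpt s`. -/
theorem exists_isolated : ∃ δ > 0, ∀ s : Finset ℕ, dist (mpt s) (mpt {0}) < δ → s = {0} := by
  obtain ⟨η, hη, hη'⟩ := exists_delta (s := {0}) (mid_pos {0}) 1
  refine ⟨min η (1 / 16), lt_min hη (by norm_num), ?_⟩
  intro s hs
  have hd : dist ((mid s, mid s * dr s) : ℝ × ℝ) (mid {0}, mid {0} * dr {0}) <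
      min η (1 / 16) := hs
  have h1 := hη' s (mid s) (hd.trans_le (min_le_left _ _))
  have h0 : 0 ∈ s := by
    have : 0 ∈ s.filter (· < 1) := by
      rw [h1]
      simp
    exact (Finset.mem_filter.1 this).1
  by_contra hne
  have hcard : 2 ≤ s.card := by
    have hpos : 0 < s.card := Finset.card_pos.2 ⟨0, h0⟩
    by_contra hlt
    have h2 : s.card = 1 := by omega
    obtain ⟨a, ha⟩ := Finset.card_eq_one.1 h2
    rw [ha, Finset.mem_singleton] at h0
    exact hne (by rw [ha, h0])
  have h2 : |mid s - mid {0}| < 1 / 16 := by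
    have := hd.trans_le (min_le_right _ _)
    rw [Prod.dist_eq, max_lt_iff] at this
    exact this.1
  rw [mid_singleton, mid_of_two_le hcard] at h2
  have h3 := pow_le_eighth (s.sup id)
  rw [abs_lt] at h2
  norm_num at h2
  linarith [h2.1]

theorem tendsto_mpt_singleton : Tendsto (fun n : ℕ => mpt {n}) atTop (𝓝 (mpt ∅)) := by
  refine tendsto_of_coord (s := fun n => {n}) (r := fun n => mid {n}) (r' := mid ∅) (d' := dr ∅)
    ?_ ?_ ?_ ?_
  · intro n
    rfl
  · rfl
  · simp only [mid_singleton, mid_empty]
    have h1 : Tendsto (fun n : ℕ => (1 / 2 : ℝ) ^ (n + 2)) atTop (𝓝 0) :=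
      (tendsto_pow_atTop_nhds_zero_of_lt_one (by norm_num) (by norm_num)).comp
        (tendsto_add_atTop_nat 2)
    have h2 := h1.const_sub (1 / 2 : ℝ)
    simpa using h2
  · apply tendsto_dr_insert
    intro k
    filter_upwards [eventually_ge_atTop k] with n hn a ha
    simp only [Finset.mem_singleton, Finset.notMem_empty, iff_false]
    omega

theorem mpt_injective : Function.Injective mpt := by
  intro s t h
  apply injective_dr
  rw [← dir_mpt, ← dir_mpt, h]

theorem IsEndpoint.image {X : Type} [MetricSpace X] {e : X} (he : IsEndpoint e)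
    (h : X ≃ₜ X) : IsEndpoint (h e) := by
  intro A x y hA hmem
  have h1 := hA.image h.symm
  have h2 : e ∈ h.symm '' A := ⟨h e, hmem, h.symm_apply_apply e⟩
  rcases he _ _ _ h1 h2 with h3 | h3
  · left
    rw [h3, h.apply_symm_apply]
  · right
    rw [h3, h.apply_symm_apply]

theorem IsRamificationPoint.image {X : Type} [MetricSpace X] {p : X}
    (hp : IsRamificationPoint p) (h : X ≃ₜ X) : IsRamificationPoint (h p) := by
  obtain ⟨A, B, C, a, b, c, hA, hB, hC, hAB, hAC, hBC⟩ := hp
  refine ⟨h '' A, h '' B, h '' C, h a, h b, h c, hA.image h, hB.image h, hC.image h, ?_, ?_, ?_⟩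
  · rw [← image_inter h.injective, hAB, image_singleton]
  · rw [← image_inter h.injective, hAC, image_singleton]
  · rw [← image_inter h.injective, hBC, image_singleton]

theorem image_endpoints {X : Type} [MetricSpace X] (h : X ≃ₜ X) :
    h '' endpoints X = endpoints X := by
  apply Subset.antisymm
  · rintro _ ⟨e, he, rfl⟩
    exact IsEndpoint.image he h
  · intro e he
    exact ⟨h.symm e, IsEndpoint.image he h.symm, h.apply_symm_apply e⟩

/-- A homeomorphism of the fan maps accumulation points of blades to accumulation points. -/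
theorem map_mpt (h : fan ≃ₜ fan) {s s' : Finset ℕ} (hs : h (ept s) = ept s') :
    h (mpt s) = mpt s' := by
  have htop : h ftop = ftop := by
    have h1 : IsRamificationPoint ftop := (isFan_fan.2 ftop).2 rfl
    exact (isFan_fan.2 _).1 (h1.image h)
  have hseg : h '' seg (ept s) = seg (ept s') := by
    apply starlike_fan.arc_unique
    have h1 := (starlike_fan.isArc_seg (ept_ne_top s)).image h
    rw [hs] at h1
    have h2 : h starlike_fan.top = starlike_fan.top := htop
    rw [h2] at h1
    exact h1
  have h1 : h (mpt s) ∈ seg (ept s') ∩ closure (endpoints fan \ seg (ept s')) := by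
    have h2 : mpt s ∈ seg (ept s) ∩ closure (endpoints fan \ seg (ept s)) := by
      rw [blade_inter_closure]
      simp
    rw [← hseg]
    refine ⟨mem_image_of_mem _ h2.1, ?_⟩
    have h3 : h (mpt s) ∈ h '' closure (endpoints fan \ seg (ept s)) := mem_image_of_mem _ h2.2
    rw [h.image_closure, image_sdiff h.injective, image_endpoints] at h3
    exact h3
  rw [blade_inter_closure] at h1
  rcases h1 with h1 | h1
  · exfalso
    rw [← htop] at h1
    exact mpt_ne_top s (h.injective h1)
  · exact h1

theorem not_homogeneous : ¬ IsEndpointHomogeneous fan := by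
  intro hhom
  obtain ⟨h, hh⟩ := hhom (ept ∅) (by rw [endpoints_fan]; exact mem_range_self _) (ept {0})
    (by rw [endpoints_fan]; exact mem_range_self _)
  have h1 : h (mpt ∅) = mpt {0} := map_mpt h hh
  obtain ⟨δ, hδ, hiso⟩ := exists_isolated
  have h2 : Tendsto (fun n : ℕ => h (mpt {n})) atTop (𝓝 (mpt {0})) := by
    rw [← h1]
    exact (h.continuous.tendsto _).comp tendsto_mpt_singleton
  rw [Metric.tendsto_atTop] at h2
  obtain ⟨N, hN⟩ := h2 δ hδ
  have h3 := hN N le_rfl
  have h4 : h (ept {N}) ∈ endpoints fan := by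
    rw [← image_endpoints h]
    apply mem_image_of_mem
    rw [endpoints_fan]
    exact mem_range_self _
  rw [endpoints_fan] at h4
  obtain ⟨s, hs⟩ := h4
  have h5 := map_mpt h hs.symm
  rw [h5] at h3
  have h6 := hiso s h3
  rw [h6, ← h1] at h5
  have h7 := mpt_injective (h.injective h5)
  simp at h7

end Pool.Agent.Helper40.Fans
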