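import Mathlib

set_option autoImplicit false

/-!
Combinatorics on `ω₂`: a family `φ μ ν : Ω → ((Ω × Ω) →₀ ℚ)` which is coherent modulo finite
sets but cannot be made exactly coherent by a modification on finite sets.
-/

namespace Pool.Agent.Helper40.ValComb

open Set

/-- A generic construction by well-founded recursion. -/
theorem exists_rec {X V : Type*} [LinearOrder X] [WellFoundedLT X] [Nonempty V]
    (P : X → V → Prop) (R : X → X → V → V → Prop)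
    (h : ∀ x (v : X → V), (∀ y < x, P y (v y)) → (∀ y z, y < z → z < x → R y z (v y) (v z)) →
      ∃ w, P x w ∧ ∀ y < x, R y x (v y) w) :
    ∃ v : X → V, (∀ x, P x (v x)) ∧ ∀ y z, y < z → R y z (v y) (v z) := by
  classical
  let F : (x : X) → ((y : X) → y < x → V) → V := fun x ih =>
    Classical.epsilon fun w => P x w ∧ ∀ y (hy : y < x), R y x (ih y hy) w
  let v : X → V := (wellFounded_lt (α := X)).fix F
  have hv : ∀ x, v x = Classical.epsilon fun w => P x w ∧ ∀ y (hy : y < x), R y x (v y) w := by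
    intro x
    exact (wellFounded_lt (α := X)).fix_eq F x
  have key : ∀ x, P x (v x) ∧ ∀ y < x, R y x (v y) (v x) := by
    intro x
    induction x using WellFoundedLT.induction with
    | ind x ih =>
      have h1 := h x v (fun y hy => (ih y hy).1) (fun y z hyz hzx => (ih z hzx).2 y hyz)
      have h2 := Classical.epsilon_spec h1
      rw [← hv x] at h2
      exact h2
  exact ⟨v, fun x => (key x).1, fun y z hyz => (key z).2 y hyz⟩

section AE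

variable {Ω : Type} [LinearOrder Ω] {A : Type}

/-- equality below `μ` up to finitely many points -/
def AE (μ : Ω) (f g : Ω → A) : Prop := {ξ | ξ < μ ∧ f ξ ≠ g ξ}.Finite

theorem AE.refl (μ : Ω) (f : Ω → A) : AE μ f f := by
  unfold AE; simp

theorem AE.symm {μ : Ω} {f g : Ω → A} (h : AE μ f g) : AE μ g f := by
  refine h.subset ?_
  rintro ξ ⟨h1, h2⟩
  exact ⟨h1, Ne.symm h2⟩

theorem AE.trans {μ : Ω} {f g k : Ω → A} (h : AE μ f g) (h' : AE μ g k) : AE μ f k := by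
  refine (h.union h').subset ?_
  rintro ξ ⟨h1, h2⟩
  by_cases h3 : f ξ = g ξ
  · right; exact ⟨h1, by rwa [h3] at h2⟩
  · left; exact ⟨h1, h3⟩

theorem AE.mono {μ ν : Ω} {f g : Ω → A} (hνμ : ν ≤ μ) (h : AE μ f g) : AE ν f g := by
  refine h.subset ?_
  rintro ξ ⟨h1, h2⟩
  exact ⟨lt_of_lt_of_le h1 hνμ, h2⟩

/-- pointwise consequence of three almost-everywhere identities -/
theorem AE.of3 {μ : Ω} {a b c d e f g k : Ω → A} (h1 : AE μ a b) (h2 : AE μ c d) (h3 : AE μ e f)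
    (h : ∀ ξ < μ, a ξ = b ξ → c ξ = d ξ → e ξ = f ξ → g ξ = k ξ) : AE μ g k := by
  refine ((h1.union h2).union h3).subset ?_
  rintro ξ ⟨hξ, hne⟩
  by_contra hcon
  simp only [mem_union, mem_ofPred_eq, not_or, not_and, not_not] at hcon
  exact hne (h ξ hξ (hcon.1.1 hξ) (hcon.1.2 hξ) (hcon.2 hξ))

theorem AE.of2 {μ : Ω} {a b c d g k : Ω → A} (h1 : AE μ a b) (h2 : AE μ c d)
    (h : ∀ ξ < μ, a ξ = b ξ → c ξ = d ξ → g ξ = k ξ) : AE μ g k :=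
  AE.of3 h1 h2 h2 (fun ξ hξ a b _ => h ξ hξ a b)

/-- countable gluing -/
theorem glue [Nonempty A] (C : Set Ω) (hC : C.Countable) (h : Ω → Ω → A)
    (hh : ∀ y ∈ C, ∀ y' ∈ C, y < y' → AE y (h y) (h y')) :
    ∃ g : Ω → A, ∀ y ∈ C, AE y g (h y) := by
  classical
  rcases C.eq_empty_or_nonempty with rfl | hne
  · exact ⟨fun _ => Classical.arbitrary A, by simp⟩
  obtain ⟨e, rfl⟩ := hC.exists_eq_range hne
  refine ⟨fun ξ => if H : ∃ n, ξ < e n then h (e (Nat.find H)) ξ else Classical.arbitrary A, ?_⟩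
  rintro _ ⟨k, rfl⟩
  have hfin : (⋃ n ∈ Finset.range (k + 1),
      {ξ | ξ < e n ∧ ξ < e k ∧ h (e n) ξ ≠ h (e k) ξ}).Finite := by
    refine Set.Finite.biUnion (Finset.finite_toSet _) ?_
    intro n _
    rcases lt_trichotomy (e n) (e k) with hlt | heq | hgt
    · refine (hh _ ⟨n, rfl⟩ _ ⟨k, rfl⟩ hlt).subset ?_
      rintro ξ ⟨h1, _, h3⟩
      exact ⟨h1, h3⟩
    · refine Set.finite_empty.subset ?_
      rintro ξ ⟨_, _, h3⟩
      exact h3 (by rw [heq])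
    · refine (hh _ ⟨k, rfl⟩ _ ⟨n, rfl⟩ hgt).subset ?_
      rintro ξ ⟨_, h2, h3⟩
      exact ⟨h2, Ne.symm h3⟩
  refine hfin.subset ?_
  rintro ξ ⟨hξ, hne'⟩
  have H : ∃ n, ξ < e n := ⟨k, hξ⟩
  beta_reduce at hne'
  rw [dif_pos H] at hne'
  simp only [mem_iUnion]
  refine ⟨Nat.find H, ?_, Nat.find_spec H, hξ, hne'⟩
  rw [Finset.mem_range, Nat.lt_succ_iff]
  exact Nat.find_min' H hξ

end AE

/-- The properties of `ω₂` (as `Ω`) and `ω₁` (as `W`) that we use. -/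
structure Setting (Ω W : Type) [LinearOrder Ω] [LinearOrder W] : Prop where
  inj : ∀ ρ : Ω, ∃ i : Ω → W, Set.InjOn i (Set.Iio ρ)
  bdd : ∀ f : W → Ω, ∃ ρ, ∀ w, f w < ρ
  ctbl : ∀ w : W, (Set.Iic w).Countable
  cof : ∀ C : Set W, C.Countable → ∃ w, ∀ c ∈ C, c < w
  ne : Nonempty Ω

variable {Ω W : Type} [LinearOrder Ω] [WellFoundedLT Ω] [LinearOrder W] [WellFoundedLT W]

theorem exists_min (S : Set Ω) (h : S.Nonempty) : ∃ m ∈ S, ∀ x ∈ S, m ≤ x := by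
  refine ⟨(wellFounded_lt (α := Ω)).min S h, (wellFounded_lt (α := Ω)).min_mem S h, ?_⟩
  intro x hx
  exact not_lt.1 ((wellFounded_lt (α := Ω)).not_lt_min S hx)

theorem exists_cofinal (S : Setting Ω W) (ρ : Ω) :
    ∃ X : Set Ω, X ⊆ Iio ρ ∧ (∀ μ < ρ, ∃ x ∈ X, μ ≤ x) ∧ ∀ x ∈ X, (X ∩ Iio x).Countable := by
  obtain ⟨i, hi⟩ := S.inj ρ
  refine ⟨{x | x < ρ ∧ ∀ y < ρ, i y < i x → y < x}, ?_, ?_, ?_⟩
  · rintro x ⟨hx, _⟩; exact hx
  · intro μ hμ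
    obtain ⟨m, ⟨x, ⟨hxρ, hμx⟩, rfl⟩, hm⟩ :=
      exists_min (Ω := W) (i '' {x | x < ρ ∧ μ ≤ x}) ⟨i μ, μ, ⟨hμ, le_refl _⟩, rfl⟩
    refine ⟨x, ⟨hxρ, ?_⟩, hμx⟩
    intro y hy hyx
    by_contra hcon
    have h1 : i x ≤ i y := hm _ ⟨y, ⟨hy, hμx.trans (not_lt.1 hcon)⟩, rfl⟩
    exact absurd hyx (not_lt.2 h1)
  · rintro x ⟨hxρ, hx⟩
    have h1 : ({y | y < ρ ∧ ∀ z < ρ, i z < i y → z < y} ∩ Iio x) ⊆ Iio ρ := by
      rintro y ⟨⟨hy, _⟩, _⟩; exact hy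
    refine Set.MapsTo.countable_of_injOn (f := i) (t := Iic (i x)) ?_ (hi.mono h1) (S.ctbl _)
    rintro y ⟨⟨hyρ, hy⟩, hyx⟩
    by_contra hcon
    have h2 : i x < i y := not_le.1 hcon
    exact absurd (hy x hxρ h2) (not_lt.2 (le_of_lt hyx))

/-- every countable subset of `Iio ρ` is strictly bounded below `ρ` -/
def U (ρ : Ω) : Prop := ∀ C : Set Ω, C.Countable → C ⊆ Iio ρ → ∃ μ < ρ, ∀ c ∈ C, c < μ

/-- the value group -/
abbrev A (Ω : Type) : Type := (Ω × Ω) →₀ ℚ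

/-- the twisted extension step (inner recursion) -/
theorem inner (S : Setting Ω W) (ρ : Ω) (X : Set Ω) (hX1 : X ⊆ Iio ρ)
    (hX3 : ∀ x ∈ X, (X ∩ Iio x).Countable)
    (v : Ω → Ω → Ω → A Ω)
    (hcomp : ∀ ν < ρ, ∀ μ ≤ ν, ∀ ξ, ∀ p ∈ (v ν μ ξ).support, p.1 ≤ ν)
    (hcoh : ∀ μ ν κ : Ω, μ ≤ ν → ν ≤ κ → κ < ρ →
      AE μ (fun ξ => v ν μ ξ + v κ ν ξ) (v κ μ)) :
    ∃ g : Ω → Ω → A Ω, (∀ x ∈ X, ((∀ ξ, ∀ p ∈ (g x ξ).support, p.1 < ρ ∨ (p.1 = ρ ∧ p.2 ≤ x)) ∧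
      ((∃ Z : Set Ω, Z ⊆ X ∩ Iio x ∧ Z.Infinite ∧ ∀ y ∈ X, y < x → (Z ∩ Iio y).Finite) →
        ∃ Z : Set Ω, Z ⊆ X ∩ Iio x ∧ Z.Infinite ∧ ∀ ξ ∈ Z, g x ξ (ρ, x) = 1))) ∧
      ∀ y z, y < z → (y ∈ X → z ∈ X → AE y (g y) (fun ξ => v z y ξ + g z ξ)) := by
  classical
  have key := exists_rec (X := Ω) (V := Ω → A Ω)
    (P := fun x g => x ∈ X → ((∀ ξ, ∀ p ∈ (g ξ).support, p.1 < ρ ∨ (p.1 = ρ ∧ p.2 ≤ x)) ∧
      ((∃ Z : Set Ω, Z ⊆ X ∩ Iio x ∧ Z.Infinite ∧ ∀ y ∈ X, y < x → (Z ∩ Iio y).Finite) →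
        ∃ Z : Set Ω, Z ⊆ X ∩ Iio x ∧ Z.Infinite ∧ ∀ ξ ∈ Z, g ξ (ρ, x) = 1)))
    (R := fun y z gy gz => y ∈ X → z ∈ X → AE y gy (fun ξ => v z y ξ + gz ξ)) ?_
  · exact key
  intro x g hP hR
  by_cases hx : x ∈ X
  swap
  · exact ⟨0, fun h => absurd h hx, fun y hy _ h => absurd h hx⟩
  have hxρ : x < ρ := hX1 hx
  obtain ⟨g0, hg0⟩ := glue (X ∩ Iio x) (hX3 x hx) (fun y ξ => g y ξ - v x y ξ) (by
    rintro y ⟨hyX, hyx⟩ y' ⟨hy'X, hy'x⟩ hyy'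
    have h1 := hR y y' hyy' hy'x hyX hy'X
    have h2 := hcoh y y' x hyy'.le (le_of_lt hy'x) hxρ
    refine AE.of2 h1 h2 ?_
    intro ξ _ e1 e2
    show g y ξ - v x y ξ = g y' ξ - v x y' ξ
    rw [e1, ← e2]
    abel)
  -- the exceptional set
  obtain ⟨Z, hZsub, hZfin, hZinf⟩ : ∃ Z : Set Ω, Z ⊆ X ∩ Iio x ∧
      (∀ y ∈ X, y < x → (Z ∩ Iio y).Finite) ∧
      ((∃ Z : Set Ω, Z ⊆ X ∩ Iio x ∧ Z.Infinite ∧ ∀ y ∈ X, y < x → (Z ∩ Iio y).Finite) →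
        Z.Infinite) := by
    by_cases hZ : ∃ Z : Set Ω, Z ⊆ X ∩ Iio x ∧ Z.Infinite ∧ ∀ y ∈ X, y < x → (Z ∩ Iio y).Finite
    · obtain ⟨Z, h1, h2, h3⟩ := hZ
      exact ⟨Z, h1, h3, fun _ => h2⟩
    · exact ⟨∅, by simp, by simp, fun h => absurd h hZ⟩
  let q : Ω × Ω → Prop := fun p => p.1 < ρ ∨ (p.1 = ρ ∧ p.2 < x)
  let w : Ω → A Ω := fun ξ => (g0 ξ).filter q + if ξ ∈ Z then Finsupp.single (ρ, x) 1 else 0
  refine ⟨w, ?_, ?_⟩
  · intro _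
    refine ⟨?_, ?_⟩
    · intro ξ p hp
      have hp' := Finsupp.support_add hp
      rw [Finset.mem_union] at hp'
      rcases hp' with hp' | hp'
      · rw [Finsupp.support_filter, Finset.mem_filter] at hp'
        rcases hp'.2 with h | ⟨h, h'⟩
        · exact Or.inl h
        · exact Or.inr ⟨h, h'.le⟩
      · split_ifs at hp' with hξ
        · have := Finsupp.support_single_subset hp'
          rw [Finset.mem_singleton] at this
          subst this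
          exact Or.inr ⟨rfl, le_refl _⟩
        · simp at hp'
    · intro hZ
      refine ⟨Z, hZsub, hZinf hZ, ?_⟩
      intro ξ hξ
      have hnq : ¬ q (ρ, x) := by
        rintro (h | ⟨_, h⟩)
        · exact lt_irrefl _ h
        · exact lt_irrefl _ h
      have hw : w ξ = (g0 ξ).filter q + Finsupp.single (ρ, x) 1 := by
        show (g0 ξ).filter q + (if ξ ∈ Z then Finsupp.single (ρ, x) 1 else 0) = _
        rw [if_pos hξ]
      rw [hw, Finsupp.add_apply, Finsupp.filter_apply_neg _ _ hnq,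
        Finsupp.single_eq_same, zero_add]
  · intro y hyx hyX _
    have h1 := hg0 y ⟨hyX, hyx⟩
    have h2 := hZfin y hyX hyx
    refine (h1.union h2).subset ?_
    rintro ξ ⟨hξ, hne⟩
    by_contra hcon
    simp only [mem_union, mem_ofPred_eq, not_or, not_and, not_not, mem_inter_iff, mem_Iio] at hcon
    obtain ⟨c1, c2⟩ := hcon
    have c1' := c1 hξ
    have c2' : ξ ∉ Z := fun h => c2 h hξ
    apply hne
    show g y ξ = v x y ξ + ((g0 ξ).filter q + if ξ ∈ Z then Finsupp.single (ρ, x) 1 else 0)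
    rw [if_neg c2', add_zero, c1']
    have hfil : (g y ξ - v x y ξ).filter q = g y ξ - v x y ξ := by
      rw [Finsupp.filter_eq_self_iff]
      intro p hp
      have hp' : p ∈ (g y ξ - v x y ξ).support := by rwa [Finsupp.mem_support_iff]
      have hp'' := Finsupp.support_sub hp'
      rw [Finset.mem_union] at hp''
      rcases hp'' with h | h
      · rcases (hP y hyx hyX).1 ξ p h with h' | ⟨h', h''⟩
        · exact Or.inl h'
        · exact Or.inr ⟨h', lt_of_le_of_lt h'' hyx⟩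
      · exact Or.inl (lt_of_le_of_lt (hcomp x hxρ y (le_of_lt hyx) ξ p h) hxρ)
    rw [hfil]
    abel

/-- the outer extension step -/
theorem outer (S : Setting Ω W) (ρ : Ω) (v : Ω → Ω → Ω → A Ω)
    (hzero : ∀ ν < ρ, v ν ν = 0)
    (hcomp : ∀ ν < ρ, ∀ μ < ν, ∀ ξ, ∀ p ∈ (v ν μ ξ).support, p.1 ≤ ν)
    (hcoh : ∀ ν κ : Ω, ν < κ → κ < ρ → ∀ μ < ν, AE μ (fun ξ => v ν μ ξ + v κ ν ξ) (v κ μ)) :
    ∃ w : Ω → Ω → A Ω, (w ρ = 0 ∧ (∀ μ < ρ, ∀ ξ, ∀ p ∈ (w μ ξ).support, p.1 ≤ ρ) ∧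
      (U ρ → ¬ ∃ G : Ω → A Ω, ∀ μ < ρ, {ξ | ξ < μ ∧ ∃ β, w μ ξ (ρ, β) ≠ G ξ (ρ, β)}.Finite)) ∧
      ∀ ν < ρ, ∀ μ < ν, AE μ (fun ξ => v ν μ ξ + w ν ξ) (w μ) := by
  classical
  obtain ⟨X, hX1, hX2, hX3⟩ := exists_cofinal S ρ
  have hcomp' : ∀ ν < ρ, ∀ μ ≤ ν, ∀ ξ, ∀ p ∈ (v ν μ ξ).support, p.1 ≤ ν := by
    intro ν hν μ hμ ξ p hp
    rcases hμ.lt_or_eq with h | rfl
    · exact hcomp ν hν μ h ξ p hp
    · rw [hzero μ hν] at hp
      simp at hp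
  have hcoh' : ∀ μ ν κ : Ω, μ ≤ ν → ν ≤ κ → κ < ρ →
      AE μ (fun ξ => v ν μ ξ + v κ ν ξ) (v κ μ) := by
    intro μ ν κ h1 h2 h3
    rcases h1.lt_or_eq with h1 | rfl
    · rcases h2.lt_or_eq with h2 | rfl
      · exact hcoh ν κ h2 h3 μ h1
      · have : (fun ξ => v ν μ ξ + v ν ν ξ) = v ν μ := by
          funext ξ
          rw [hzero ν h3]
          simp
        rw [this]
        exact AE.refl _ _
    · have : (fun ξ => v μ μ ξ + v κ μ ξ) = v κ μ := by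
        funext ξ
        rw [hzero μ (lt_of_le_of_lt h2 h3)]
        simp
      rw [this]
      exact AE.refl _ _
  obtain ⟨g, hg1, hg2⟩ := inner S ρ X hX1 hX3 v hcomp' hcoh'
  -- the least element of `X` above `μ`
  have hxm : ∀ μ : Ω, ∃ x, μ < ρ → (x ∈ X ∧ μ ≤ x ∧ ∀ y ∈ X, μ ≤ y → x ≤ y) := by
    intro μ
    by_cases hμ : μ < ρ
    · obtain ⟨x, hx, hμx⟩ := hX2 μ hμ
      obtain ⟨m, ⟨hm1, hm2⟩, hm3⟩ := exists_min {x | x ∈ X ∧ μ ≤ x} ⟨x, hx, hμx⟩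
      exact ⟨m, fun _ => ⟨hm1, hm2, fun y hy hμy => hm3 y ⟨hy, hμy⟩⟩⟩
    · exact ⟨μ, fun h => absurd h hμ⟩
  choose xm hxm using hxm
  let w : Ω → Ω → A Ω := fun μ ξ => if μ < ρ then v (xm μ) μ ξ + g (xm μ) ξ else 0
  have hw : ∀ μ < ρ, w μ = fun ξ => v (xm μ) μ ξ + g (xm μ) ξ := by
    intro μ hμ
    funext ξ
    show (if μ < ρ then v (xm μ) μ ξ + g (xm μ) ξ else 0) = _
    rw [if_pos hμ]
  have hg2' : ∀ y z, y ∈ X → z ∈ X → y ≤ z → AE y (g y) (fun ξ => v z y ξ + g z ξ) := by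
    intro y z hy hz hyz
    rcases hyz.lt_or_eq with h | rfl
    · exact hg2 y z h hy hz
    · have : (fun ξ => v y y ξ + g y ξ) = g y := by
        funext ξ
        rw [hzero y (hX1 hy)]
        simp
      rw [this]
      exact AE.refl _ _
  refine ⟨w, ⟨?_, ?_, ?_⟩, ?_⟩
  · funext ξ
    show (if ρ < ρ then v (xm ρ) ρ ξ + g (xm ρ) ξ else 0) = 0
    rw [if_neg (lt_irrefl _)]
  · intro μ hμ ξ p hp
    rw [hw μ hμ] at hp
    obtain ⟨h1, h2, h3⟩ := hxm μ hμ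
    have h4 : xm μ < ρ := hX1 h1
    have hp' := Finsupp.support_add hp
    rw [Finset.mem_union] at hp'
    rcases hp' with h | h
    · exact (hcomp' _ h4 μ h2 ξ p h).trans h4.le
    · rcases (hg1 _ h1).1 ξ p h with h | h
      · exact h.le
      · exact h.1.le
  · rintro hU ⟨G, hG⟩
    -- closing off
    have hstep : ∀ x : Ω, ∃ x' : Ω, x ∈ X → (x' ∈ X ∧ x < x' ∧
        ∀ ζ ∈ X, ζ ≤ x → ∀ β < ρ, G ζ (ρ, β) ≠ 0 → β < x') := by
      intro x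
      by_cases hx : x ∈ X
      swap
      · exact ⟨x, fun h => absurd h hx⟩
      let C : Set Ω := insert x (⋃ ζ ∈ (insert x (X ∩ Iio x)),
        {β | β < ρ ∧ β ∈ (fun p : Ω × Ω => p.2) '' ((G ζ).support : Set (Ω × Ω))})
      have hCc : C.Countable := by
        refine Set.Countable.insert _ (Set.Countable.biUnion ((hX3 x hx).insert _) ?_)
        intro ζ _
        refine Set.Countable.mono ?_ ((Finset.finite_toSet (G ζ).support).image (fun p : Ω × Ω => p.2)).countable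
        rintro β ⟨_, hβ⟩
        exact hβ
      have hCρ : C ⊆ Iio ρ := by
        rintro β (rfl | hβ)
        · exact hX1 hx
        · simp only [mem_iUnion] at hβ
          obtain ⟨ζ, _, hβ, _⟩ := hβ
          exact hβ
      obtain ⟨μ, hμ, hCμ⟩ := hU C hCc hCρ
      obtain ⟨x', hx', hμx'⟩ := hX2 μ hμ
      refine ⟨x', fun _ => ⟨hx', lt_of_lt_of_le (hCμ x (mem_insert _ _)) hμx', ?_⟩⟩
      intro ζ hζ hζx β hβ hne
      refine lt_of_lt_of_le (hCμ β (mem_insert_of_mem _ ?_)) hμx'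
      simp only [mem_iUnion]
      refine ⟨ζ, ?_, hβ, (ρ, β), ?_, rfl⟩
      · rcases hζx.lt_or_eq with h | h
        · exact mem_insert_of_mem _ ⟨hζ, h⟩
        · rw [h]; exact mem_insert _ _
      · rw [Finset.mem_coe, Finsupp.mem_support_iff]
        exact hne
    choose nxt hnxt using hstep
    obtain ⟨μ0, hμ0, _⟩ := hU ∅ Set.countable_empty (Set.empty_subset _)
    obtain ⟨x0, hx0, _⟩ := hX2 μ0 hμ0
    let s : ℕ → Ω := fun n => nxt^[n] x0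
    have hsX : ∀ n, s n ∈ X := by
      intro n
      induction n with
      | zero => exact hx0
      | succ n ih =>
        show nxt^[n + 1] x0 ∈ X
        rw [Function.iterate_succ_apply']
        exact (hnxt _ ih).1
    have hssucc : ∀ n, s (n + 1) = nxt (s n) := fun n => Function.iterate_succ_apply' nxt n x0
    have hslt : ∀ n, s n < s (n + 1) := by
      intro n
      rw [hssucc]
      exact (hnxt _ (hsX n)).2.1
    have hsmono : StrictMono s := strictMono_nat_of_lt_succ hslt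
    obtain ⟨μ1, hμ1, hμ1'⟩ := hU (range s) (Set.countable_range s) (by
      rintro _ ⟨n, rfl⟩; exact hX1 (hsX n))
    obtain ⟨x1, hx1, hμx1⟩ := hX2 μ1 hμ1
    obtain ⟨x, ⟨hxX, hxs⟩, hxmin⟩ := exists_min {x | x ∈ X ∧ ∀ n, s n < x}
      ⟨x1, hx1, fun n => lt_of_lt_of_le (hμ1' _ ⟨n, rfl⟩) hμx1⟩
    have hbelow : ∀ y ∈ X, y < x → ∃ n, y ≤ s n := by
      intro y hy hyx
      by_contra hcon
      push Not at hcon
      exact absurd (hxmin y ⟨hy, hcon⟩) (not_le.2 hyx)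
    have hxρ : x < ρ := hX1 hxX
    obtain ⟨Z, hZ1, hZ2, hZ3⟩ := (hg1 x hxX).2 ⟨range s, by
      rintro _ ⟨n, rfl⟩; exact ⟨hsX n, hxs n⟩, Set.infinite_range_of_injective hsmono.injective, by
      intro y hy hyx
      obtain ⟨n, hn⟩ := hbelow y hy hyx
      refine ((Set.finite_Iio n).image s).subset ?_
      rintro _ ⟨⟨k, rfl⟩, hk⟩
      exact ⟨k, hsmono.lt_iff_lt.1 (lt_of_lt_of_le hk hn), rfl⟩⟩
    have hxx : xm x = x := by
      obtain ⟨h1, h2, h3⟩ := hxm x hxρ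
      exact le_antisymm (h3 x hxX le_rfl) h2
    have hwx : w x = g x := by
      rw [hw x hxρ, hxx]
      funext ξ
      rw [hzero x hxρ]
      simp
    have hGx := hG x hxρ
    rw [hwx] at hGx
    obtain ⟨ζ, hζZ, hζn⟩ := (hZ2.sdiff hGx).nonempty
    obtain ⟨hζX, hζx⟩ := hZ1 hζZ
    have hζ1 : g x ζ (ρ, x) = G ζ (ρ, x) := by
      by_contra hcon
      exact hζn ⟨hζx, x, hcon⟩
    rw [hZ3 ζ hζZ] at hζ1
    obtain ⟨n, hn⟩ := hbelow ζ hζX hζx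
    have h5 := (hnxt _ (hsX n)).2.2 ζ hζX hn x hxρ (by rw [← hζ1]; exact one_ne_zero)
    rw [← hssucc] at h5
    exact absurd h5 (not_lt.2 (hxs _).le)
  · intro ν hν μ hμ
    have hμρ : μ < ρ := hμ.trans hν
    obtain ⟨a1, a2, a3⟩ := hxm μ hμρ
    obtain ⟨b1, b2, b3⟩ := hxm ν hν
    have hab : xm μ ≤ xm ν := a3 _ b1 (hμ.le.trans b2)
    have e1 := (hg2' _ _ a1 b1 hab).mono a2
    have e2 := hcoh' μ (xm μ) (xm ν) a2 hab (hX1 b1)
    have e3 := hcoh' μ ν (xm ν) hμ.le b2 (hX1 b1)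
    rw [hw μ hμρ, hw ν hν]
    refine AE.of3 e1 e2 e3 ?_
    intro ξ _ f1 f2 f3
    show v ν μ ξ + (v (xm ν) ν ξ + g (xm ν) ξ) = v (xm μ) μ ξ + g (xm μ) ξ
    rw [f1, ← add_assoc, ← add_assoc, f2, f3]

/-- the main combinatorial theorem -/
theorem main (S : Setting Ω W) : ∃ φ : Ω → Ω → Ω → A Ω,
    (∀ μ, φ μ μ = 0) ∧
    (∀ μ ν ρ, μ < ν → ν < ρ → {ξ | ξ < μ ∧ φ μ ν ξ + φ ν ρ ξ ≠ φ μ ρ ξ}.Finite) ∧
    ¬ ∃ B : Ω → Ω → Ω → A Ω, (∀ μ ν, μ < ν → {ξ | ξ < μ ∧ B μ ν ξ ≠ 0}.Finite) ∧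
      ∀ ξ μ ν ρ, ξ < μ → μ < ν → ν < ρ →
        (φ μ ν ξ + B μ ν ξ) + (φ ν ρ ξ + B ν ρ ξ) = φ μ ρ ξ + B μ ρ ξ := by
  classical
  obtain ⟨v, hv1, hv2⟩ := exists_rec (X := Ω) (V := Ω → Ω → A Ω)
    (P := fun ρ w => w ρ = 0 ∧ (∀ μ < ρ, ∀ ξ, ∀ p ∈ (w μ ξ).support, p.1 ≤ ρ) ∧
      (U ρ → ¬ ∃ G : Ω → A Ω, ∀ μ < ρ, {ξ | ξ < μ ∧ ∃ β, w μ ξ (ρ, β) ≠ G ξ (ρ, β)}.Finite))
    (R := fun ν _ vν w => ∀ μ < ν, AE μ (fun ξ => vν μ ξ + w ν ξ) (w μ)) (by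
      intro ρ v h1 h2
      exact outer S ρ v (fun ν hν => (h1 ν hν).1) (fun ν hν => (h1 ν hν).2.1)
        (fun ν κ hνκ hκ => h2 ν κ hνκ hκ))
  refine ⟨fun μ ν => v ν μ, fun μ => (hv1 μ).1, ?_, ?_⟩
  · intro μ ν ρ hμν hνρ
    exact hv2 ν ρ hνρ μ hμν
  rintro ⟨B, hB1, hB2⟩
  -- strict bounds
  have hbdd : ∀ (α : Ω) (f : Ω → Ω), ∃ γ, ∀ ξ ≤ α, f ξ < γ := by
    intro α f
    obtain ⟨i, hi⟩ := S.inj α
    obtain ⟨γ, hγ⟩ := S.bdd (fun w => if h : ∃ ξ < α, i ξ = w then f h.choose else f α)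
    obtain ⟨γ', hγ'⟩ := S.bdd (fun _ => f α)
    refine ⟨max γ γ', ?_⟩
    intro ξ hξ
    rcases hξ.lt_or_eq with h | rfl
    · have h3 := hγ (i ξ)
      have hex : ∃ ζ < α, i ζ = i ξ := ⟨ξ, h, rfl⟩
      rw [dif_pos hex] at h3
      have h4 : hex.choose = ξ := hi hex.choose_spec.1 h hex.choose_spec.2
      rw [h4] at h3
      exact lt_max_of_lt_left h3
    · obtain ⟨w0, _⟩ := S.cof ∅ Set.countable_empty
      exact lt_max_of_lt_right (hγ' w0)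
  have hsucc : ∀ ξ : Ω, ∃ η, ξ < η ∧ ∀ ζ, ξ < ζ → η ≤ ζ := by
    intro ξ
    obtain ⟨γ, hγ⟩ := hbdd ξ id
    obtain ⟨η, h1, h2⟩ := exists_min {ζ | ξ < ζ} ⟨γ, hγ ξ le_rfl⟩
    exact ⟨η, h1, fun ζ hζ => h2 ζ hζ⟩
  choose sc hsc1 hsc2 using hsucc
  let F : Ω → Ω → Ω → A Ω := fun μ ν ξ => v ν μ ξ + B μ ν ξ
  let ψ : Ω → Ω → A Ω := fun μ ξ => if sc ξ < μ then F (sc ξ) μ ξ else 0
  have hψ : ∀ ξ μ ν, ξ < μ → μ < ν → F μ ν ξ = ψ ν ξ - ψ μ ξ := by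
    intro ξ μ ν h1 h2
    have h3 : sc ξ ≤ μ := hsc2 ξ μ h1
    have h4 : ψ ν ξ = F (sc ξ) ν ξ := if_pos (lt_of_le_of_lt h3 h2)
    rcases h3.lt_or_eq with h3 | h3
    · have h5 : ψ μ ξ = F (sc ξ) μ ξ := if_pos h3
      have h6 : F (sc ξ) μ ξ + F μ ν ξ = F (sc ξ) ν ξ := hB2 ξ (sc ξ) μ ν (hsc1 ξ) h3 h2
      rw [h4, h5, ← h6]
      abel
    · have h5 : ψ μ ξ = 0 := if_neg (by rw [h3]; exact lt_irrefl _)
      rw [h4, h5, h3, sub_zero]
  have hc : ∀ μ ξ : Ω, ∃ c : Ω, ∀ p ∈ (ψ μ ξ).support, p.1 < c := by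
    intro μ ξ
    obtain ⟨w0, _⟩ := S.cof ∅ Set.countable_empty
    rcases (ψ μ ξ).support.eq_empty_or_nonempty with h | h
    · exact ⟨ξ, by simp [h]⟩
    · obtain ⟨p0, hp0, hp0'⟩ := (ψ μ ξ).support.exists_max_image (fun p => p.1) h
      exact ⟨sc p0.1, fun p hp => lt_of_le_of_lt (hp0' p hp) (hsc1 _)⟩
  choose c hc using hc
  have hc' : ∀ μ : Ω, ∃ c' : Ω, ∀ ξ ≤ μ, c μ ξ < c' := fun μ => hbdd μ (c μ)
  choose c' hc' using hc'
  have hc'' : ∀ α : Ω, ∃ c'' : Ω, ∀ μ ≤ α, c' μ < c'' := fun α => hbdd α c'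
  choose c'' hc'' using hc''
  let b : Ω → Ω := fun α => max (c'' α) (sc α)
  have hb1 : ∀ α, α < b α := fun α => lt_max_of_lt_right (hsc1 α)
  have hb2 : ∀ α, ∀ μ ≤ α, ∀ ξ < μ, ∀ p ∈ (ψ μ ξ).support, p.1 < b α := by
    intro α μ hμ ξ hξ p hp
    exact lt_max_of_lt_left (((hc μ ξ p hp).trans (hc' μ ξ hξ.le)).trans (hc'' α μ hμ))
  have := S.ne
  obtain ⟨β, -, hβ⟩ := exists_rec (X := W) (V := Ω) (P := fun _ _ => True)
    (R := fun _ _ x y => b x < y) (by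
      intro w v _ _
      obtain ⟨γ, hγ⟩ := S.bdd (fun w => b (v w))
      exact ⟨γ, trivial, fun y _ => hγ y⟩)
  obtain ⟨γ0, hγ0⟩ := S.bdd β
  obtain ⟨ρ, hρ, hρmin⟩ := exists_min {x | ∀ w, β w < x} ⟨γ0, hγ0⟩
  have hcofin : ∀ μ < ρ, ∃ w, μ ≤ β w := by
    intro μ hμ
    by_contra hcon
    push Not at hcon
    exact absurd (hρmin μ hcon) (not_le.2 hμ)
  have hUρ : U ρ := by
    intro C hC hCρ
    have h1 : ∀ c, ∃ w, c ∈ C → c ≤ β w := by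
      intro c
      obtain ⟨w0, _⟩ := S.cof ∅ Set.countable_empty
      by_cases hc : c ∈ C
      · obtain ⟨w, hw⟩ := hcofin c (hCρ hc)
        exact ⟨w, fun _ => hw⟩
      · exact ⟨w0, fun h => absurd h hc⟩
    choose wc hwc using h1
    obtain ⟨w, hw⟩ := S.cof (wc '' C) (hC.image _)
    refine ⟨β w, hρ w, ?_⟩
    intro c hcC
    exact ((hwc c hcC).trans_lt (hb1 _)).trans (hβ _ _ (hw _ ⟨c, hcC, rfl⟩))
  refine (hv1 ρ).2.2 hUρ ⟨ψ ρ, ?_⟩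
  intro μ hμ
  refine (hB1 μ ρ hμ).subset ?_
  rintro ξ ⟨hξ, δ, hδ⟩
  refine ⟨hξ, ?_⟩
  intro hB
  apply hδ
  have h1 : v ρ μ ξ = ψ ρ ξ - ψ μ ξ := by
    rw [← hψ ξ μ ρ hξ hμ]
    show v ρ μ ξ = v ρ μ ξ + B μ ρ ξ
    rw [hB, add_zero]
  rw [h1, Finsupp.sub_apply]
  have h2 : ψ μ ξ (ρ, δ) = 0 := by
    by_contra hcon
    have h3 : (ρ, δ) ∈ (ψ μ ξ).support := by rwa [Finsupp.mem_support_iff]
    obtain ⟨w, hw⟩ := hcofin μ hμ
    have h4 := hb2 (β w) μ hw ξ hξ _ h3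
    obtain ⟨w', hw'⟩ := S.cof {w} (Set.countable_singleton w)
    have h5 := hβ w w' (hw' w rfl)
    exact absurd ((h4.trans h5).trans (hρ w')) (lt_irrefl _)
  rw [h2, sub_zero]

/-- a well-order of type `ω₂` -/
abbrev Om : Type := (Cardinal.aleph 2).ord.ToType

/-- a well-order of type `ω₁` -/
abbrev W1 : Type := (Cardinal.aleph 1).ord.ToType

open Cardinal in
theorem setting : Setting Om W1 := by
  have h12 : Order.succ (Cardinal.aleph 1) = Cardinal.aleph 2 := by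
    rw [Cardinal.succ_aleph]
    norm_num
  have h01 : Order.succ Cardinal.aleph0 = Cardinal.aleph 1 := Cardinal.succ_aleph0
  have hmkOm : #Om = Cardinal.aleph 2 := Cardinal.mk_ord_toType _
  have hmkW : #W1 = Cardinal.aleph 1 := Cardinal.mk_ord_toType _
  have hIio : ∀ ρ : Om, #(Iio ρ) ≤ Cardinal.aleph 1 := by
    intro ρ
    have h := Cardinal.mk_Iio_toType_ord_lt (c := Cardinal.aleph 2) ρ
    exact Order.lt_succ_iff.1 (lt_of_lt_of_eq h h12.symm)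
  have hIic : ∀ ρ : Om, #(Iic ρ) ≤ Cardinal.aleph 1 := by
    intro ρ
    have h1 : (Iic ρ) = insert ρ (Iio ρ) := by
      ext x; simp [le_iff_eq_or_lt]
    rw [h1]
    refine (Cardinal.mk_insert_le).trans ?_
    exact Cardinal.add_le_of_le (Cardinal.aleph0_le_aleph 1) (hIio ρ)
      (Cardinal.one_le_aleph0.trans (Cardinal.aleph0_le_aleph 1))
  have hctbl : ∀ w : W1, (Set.Iic w).Countable := by
    intro w
    have h := Cardinal.mk_Iio_toType_ord_lt (c := Cardinal.aleph 1) w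
    have h2 : (Iio w).Countable := Cardinal.le_aleph0_iff_set_countable.1
      (Order.lt_succ_iff.1 (lt_of_lt_of_eq h h01.symm))
    have h1 : (Iic w) = insert w (Iio w) := by
      ext x; simp [le_iff_eq_or_lt]
    rw [h1]
    exact h2.insert _
  refine ⟨?_, ?_, hctbl, ?_, ?_⟩
  · intro ρ
    have h := hIio ρ
    rw [← hmkW] at h
    obtain ⟨e⟩ := Cardinal.le_def _ _ |>.1 h
    have hW : Nonempty W1 := by
      rw [← Cardinal.mk_ne_zero_iff, hmkW]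
      exact (Cardinal.aleph_pos 1).ne'
    classical
    refine ⟨fun ξ => if h : ξ < ρ then e ⟨ξ, h⟩ else Classical.arbitrary _, ?_⟩
    intro x hx y hy hxy
    have hx' : x < ρ := hx
    have hy' : y < ρ := hy
    simp only [dif_pos hx', dif_pos hy'] at hxy
    exact congrArg Subtype.val (e.injective hxy)
  · intro f
    by_contra hcon
    push Not at hcon
    have h1 : (Set.univ : Set Om) = ⋃ w, Iic (f w) := by
      refine (eq_univ_of_forall ?_).symm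
      intro x
      obtain ⟨w, hw⟩ := hcon x
      exact mem_iUnion.2 ⟨w, hw⟩
    have h2 := Cardinal.mk_iUnion_le (fun w => Iic (f w))
    rw [← h1, Cardinal.mk_univ, hmkOm, hmkW] at h2
    have h3 : (⨆ w, #(Iic (f w))) ≤ Cardinal.aleph 1 := ciSup_le' (fun w => hIic _)
    have h4 : Cardinal.aleph 2 ≤ Cardinal.aleph 1 := by
      refine h2.trans ?_
      calc Cardinal.aleph 1 * (⨆ w, #(Iic (f w))) ≤ Cardinal.aleph 1 * Cardinal.aleph 1 := by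
            gcongr
        _ = Cardinal.aleph 1 := Cardinal.mul_eq_self (Cardinal.aleph0_le_aleph 1)
    rw [← h12] at h4
    exact absurd h4 (not_le.2 (Order.lt_succ _))
  · intro C hC
    by_contra hcon
    push Not at hcon
    have h1 : (⋃ c ∈ C, Iic c : Set W1) = Set.univ := by
      refine eq_univ_of_forall ?_
      intro x
      obtain ⟨w, hw, hw'⟩ := hcon x
      exact mem_biUnion hw hw'
    have h2 : (Set.univ : Set W1).Countable := by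
      rw [← h1]
      exact hC.biUnion (fun c _ => hctbl c)
    have h3 := Cardinal.le_aleph0_iff_set_countable.2 h2
    rw [Cardinal.mk_univ, hmkW, ← h01] at h3
    exact absurd h3 (not_le.2 (Order.lt_succ _))
  · rw [← Cardinal.mk_ne_zero_iff, hmkOm]
    exact (Cardinal.aleph_pos 2).ne'

end Pool.Agent.Helper40.ValComb
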