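import Pool.Agent.Helper40.ValRing

set_option autoImplicit false
set_option linter.unusedSectionVars false

/-!
The chain ring `RR` and the analysis of a module with the hull properties.
-/

namespace Pool.Agent.Helper40.ValRing

noncomputable section

variable {Ω : Type} [LinearOrder Ω] [WellFoundedLT Ω] [SuccOrder Ω] [NoMaxOrder Ω] [Nonempty Ω]
variable {K : Type} [Field K]

section Quot

variable (φ : Ω → Ω → Ω → K) (hφ : Coh φ)

/-- the ideal of infinitesimals in the second coordinate -/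
def Jt : Ideal (Rt φ hφ) where
  carrier := {z | z.1.fst = 0 ∧ NN z.1.snd}
  add_mem' := by
    rintro a b ⟨h1, h2⟩ ⟨h3, h4⟩
    refine ⟨?_, ?_⟩
    · show a.1.fst + b.1.fst = 0
      rw [h1, h3, add_zero]
    · exact h2.add h4
  zero_mem' := ⟨rfl, NN.zero⟩
  smul_mem' := by
    rintro c a ⟨h1, h2⟩
    have hc : PP φ c.1.fst c.1.snd := c.2
    refine ⟨?_, ?_⟩
    · show (c.1 * a.1).fst = 0
      rw [TrivSqZeroExt.fst_mul, h1, mul_zero]
    · show NN (c.1 * a.1).snd
      rw [TrivSqZeroExt.snd_mul, h1]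
      have h3 := hc.nn.mul h2
      simpa using h3

/-- the chain ring -/
abbrev RR : Type := Rt φ hφ ⧸ Jt φ hφ

variable {φ}

/-- elements of the chain ring given by pairs -/
def el (f h : HH Ω K) (H : PP φ f h) : RR φ hφ :=
  Ideal.Quotient.mk (Jt φ hφ) ⟨((f, h) : DualNumber (HH Ω K)), H⟩

theorem exists_el (r : RR φ hφ) : ∃ f h, ∃ H : PP φ f h, r = el hφ f h H := by
  obtain ⟨⟨z, hz⟩, rfl⟩ := Ideal.Quotient.mk_surjective r
  exact ⟨z.fst, z.snd, hz, rfl⟩

theorem el_eq_iff {f h g k : HH Ω K} (H : PP φ f h) (H' : PP φ g k) :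
    el hφ f h H = el hφ g k H' ↔ f = g ∧ NN (h - k) := by
  unfold el
  rw [Ideal.Quotient.eq]
  constructor
  · rintro ⟨h1, h2⟩
    exact ⟨sub_eq_zero.1 h1, h2⟩
  · rintro ⟨h1, h2⟩
    exact ⟨sub_eq_zero.2 h1, h2⟩

theorem el_mul {f h g k : HH Ω K} (H : PP φ f h) (H' : PP φ g k) :
    el hφ f h H * el hφ g k H' = el hφ (f * g) (f * k + h * g) (H.mul hφ H') := by
  unfold el
  rw [← map_mul]
  exact congrArg _ (Subtype.ext (TrivSqZeroExt.ext rfl rfl))

theorem el_sub {f h g k : HH Ω K} (H : PP φ f h) (H' : PP φ g k) (H'' : PP φ (f - g) (h - k)) :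
    el hφ f h H - el hφ g k H' = el hφ (f - g) (h - k) H'' := by
  unfold el
  rw [← map_sub]
  rfl

theorem el_one : (1 : RR φ hφ) = el hφ 1 0 (PP.one φ) := rfl

theorem el_zero : (0 : RR φ hφ) = el hφ 0 0 (PP.ofQD φ QD.zero) := rfl

theorem el_congr {f h g k : HH Ω K} (H : PP φ f h) (H' : PP φ g k) (h1 : f = g) (h2 : h = k) :
    el hφ f h H = el hφ g k H' := by
  subst h1; subst h2; rfl

/-- first coordinate -/
def fstR : RR φ hφ →+* HH Ω K :=
  Ideal.Quotient.lift (Jt φ hφ)
    { toFun := fun z => z.1.fst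
      map_one' := rfl
      map_mul' := fun _ _ => rfl
      map_zero' := rfl
      map_add' := fun _ _ => rfl } (by
    rintro a ⟨h1, _⟩
    exact h1)

theorem fstR_el {f h : HH Ω K} (H : PP φ f h) : fstR hφ (el hφ f h H) = f := rfl

theorem dvd_of_div {f h g k : HH Ω K} (H : PP φ f h) (H' : PP φ g k) (hf : f ≠ 0)
    (hn : NN (g / f)) : ∃ c : RR φ hφ, c * el hφ f h H = el hφ g k H' := by
  obtain ⟨p, hp⟩ := PP.exists_lift φ (H'.inQ.div H.inQ) hn
  have hgf : g / f * f = g := div_mul_cancel₀ g hf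
  have H1 := hp.mul hφ H
  rw [hgf] at H1
  obtain ⟨q, d, hq, hd, hqd⟩ := PP.diff hφ H' H1
  have H2 : PP φ (g / f) (p + q / f) := by
    have := hp.add hφ (PP.ofQD φ (QD.ofQ (hq.div H.inQ)))
    rwa [add_zero] at this
  refine ⟨el hφ _ _ H2, ?_⟩
  rw [el_mul, el_eq_iff]
  refine ⟨hgf, ?_⟩
  have : (g / f * h + (p + q / f) * f) - k = -d := by
    rw [add_mul, div_mul_cancel₀ q hf]
    have e1 : (g / f * h + (p * f + q)) - k = q - (k - (g / f * h + p * f)) := by ring
    rw [e1, hqd]
    ring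
  rw [this]
  exact hd.neg

theorem dvd_total (a b : RR φ hφ) :
    (∃ c : RR φ hφ, c * a = b) ∨ (∃ c : RR φ hφ, c * b = a) := by
  obtain ⟨f, h, H, rfl⟩ := exists_el hφ a
  obtain ⟨g, k, H', rfl⟩ := exists_el hφ b
  by_cases hf : f = 0
  · by_cases hg : g = 0
    · subst hf; subst hg
      obtain ⟨q, d, hq, hd, rfl⟩ := H.toQD
      obtain ⟨q', d', hq', hd', rfl⟩ := H'.toQD
      have Hq : PP φ 0 q := PP.ofQD φ (QD.ofQ hq)
      have Hq' : PP φ 0 q' := PP.ofQD φ (QD.ofQ hq')
      have e1 : el hφ 0 (q + d) H = el hφ 0 q Hq := by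
        rw [el_eq_iff]
        exact ⟨rfl, by rwa [add_sub_cancel_left]⟩
      have e2 : el hφ 0 (q' + d') H' = el hφ 0 q' Hq' := by
        rw [el_eq_iff]
        exact ⟨rfl, by rwa [add_sub_cancel_left]⟩
      rw [e1, e2]
      by_cases hq0 : q = 0
      · right
        subst hq0
        exact ⟨0, by rw [zero_mul, el_zero]⟩
      · rcases NN_or_inv (q' / q) with hn | ⟨hne, hn⟩
        · left
          obtain ⟨p, hp⟩ := PP.exists_lift φ (hq'.div hq) hn
          refine ⟨el hφ _ _ hp, ?_⟩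
          rw [el_mul]
          apply el_congr
          · rw [mul_zero]
          · rw [mul_zero, add_zero, div_mul_cancel₀ q' hq0]
        · right
          rw [inv_div] at hn
          have hq'0 : q' ≠ 0 := by
            rintro rfl
            simp at hne
          obtain ⟨p, hp⟩ := PP.exists_lift φ (hq.div hq') hn
          refine ⟨el hφ _ _ hp, ?_⟩
          rw [el_mul]
          apply el_congr
          · rw [mul_zero]
          · rw [mul_zero, add_zero, div_mul_cancel₀ q hq'0]
    · right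
      apply dvd_of_div hφ H' H hg
      rw [hf, zero_div]
      exact NN.zero
  · by_cases hg : g = 0
    · left
      apply dvd_of_div hφ H H' hf
      rw [hg, zero_div]
      exact NN.zero
    · rcases NN_or_inv (g / f) with hn | ⟨hne, hn⟩
      · left
        exact dvd_of_div hφ H H' hf hn
      · right
        rw [inv_div] at hn
        exact dvd_of_div hφ H' H hg hn

theorem fstR_NN (r : RR φ hφ) : NN (fstR hφ r) := by
  obtain ⟨f, h, H, rfl⟩ := exists_el hφ r
  exact H.nn

/-- the ideal `I` -/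
def II (a : Dl Ω) : Ideal (RR φ hφ) where
  carrier := {r | GT a (fstR hφ r)}
  add_mem' := by
    intro x y hx hy
    show GT a (fstR hφ (x + y))
    rw [map_add]
    exact GT.add hx hy
  zero_mem' := by
    show GT a (fstR hφ 0)
    rw [map_zero]
    exact GT.zero a
  smul_mem' := by
    intro c x hx
    show GT a (fstR hφ (c * x))
    rw [map_mul]
    exact GT.mul (fstR_NN hφ c) hx

theorem one_notMem_II {a : Dl Ω} (ha : 0 < a) : (1 : RR φ hφ) ∉ II hφ a := by
  intro h
  have h1 : GT a (fstR hφ (1 : RR φ hφ)) := h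
  rw [map_one] at h1
  have h2 := h1 0 ha.le
  rw [← xx_zero] at h2
  simp at h2

end Quot

end

end Pool.Agent.Helper40.ValRing
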