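import Mathlib

set_option autoImplicit false

/-!
Injective hulls of cyclic modules over chain rings, and what a pure uniserial submodule gives.
-/

namespace Pool.Agent.Helper40.ValHull

open scoped TensorProduct Pointwise

/-- every module embeds in an injective module -/
theorem exists_injective (R : Type) [CommRing R] (M : Type) [AddCommGroup M] [Module R M] :
    ∃ (W : Type) (_ : AddCommGroup W) (_ : Module R W) (j : M →ₗ[R] W),
      Function.Injective j ∧ Module.Injective R W := by
  let P := (CategoryTheory.EnoughInjectives.presentation (ModuleCat.of R M)).some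
  have hP : CategoryTheory.Injective P.J := P.injective
  have hmono : CategoryTheory.Mono P.f := P.mono
  refine ⟨P.J, inferInstance, inferInstance, P.f.hom, ?_, ?_⟩
  · exact (ModuleCat.mono_iff_injective P.f).1 hmono
  · exact Module.injective_module_of_injective_object R P.J

/-- a direct summand construction of the injective hull of a cyclic module -/
theorem exists_hull (R : Type) [CommRing R] (I : Ideal R) (hI : I ≠ ⊤) :
    ∃ (N : Type) (_ : AddCommGroup N) (_ : Module R N) (x : N),
      (∀ r : R, r • x = 0 ↔ r ∈ I) ∧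
      (∀ y : N, y ≠ 0 → ∃ r : R, r • y ≠ 0 ∧ ∃ s : R, r • y = s • x) ∧
      Module.Injective R N := by
  obtain ⟨W, _, _, j, hj, hW⟩ := exists_injective R (R ⧸ I)
  let x : W := j (Submodule.Quotient.mk 1)
  have hx : ∀ r : R, r • x = 0 ↔ r ∈ I := by
    intro r
    show r • j (Submodule.Quotient.mk 1) = 0 ↔ _
    rw [← map_smul, ← Submodule.Quotient.mk_smul, map_eq_zero_iff j hj,
      Submodule.Quotient.mk_eq_zero, smul_eq_mul, mul_one]
  let s : Set (Submodule R W) := {E | ∀ y ∈ E, y ≠ 0 → ∃ r : R, r • y ≠ 0 ∧ ∃ s : R, r • y = s • x}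
  have hspan : Submodule.span R {x} ∈ s := by
    intro y hy hy0
    obtain ⟨s, rfl⟩ := Submodule.mem_span_singleton.1 hy
    exact ⟨1, by rwa [one_smul], s, one_smul _ _⟩
  obtain ⟨E, hxE, hE⟩ := zorn_le_nonempty₀ s (by
    intro c hc hchain y hy
    refine ⟨sSup c, ?_, fun z hz => le_sSup hz⟩
    intro w hw hw0
    rw [Submodule.mem_sSup_of_directed ⟨y, hy⟩ hchain.directedOn] at hw
    obtain ⟨E', hE', hwE'⟩ := hw
    exact hc hE' w hwE' hw0) _ hspan
  have hxE' : x ∈ E := hxE (Submodule.mem_span_singleton_self x)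
  obtain ⟨C, -, hC⟩ := zorn_le_nonempty₀ {C : Submodule R W | Disjoint E C} (by
    intro c hc hchain y hy
    refine ⟨sSup c, ?_, fun z hz => le_sSup hz⟩
    show Disjoint E (sSup c)
    rw [Submodule.disjoint_def]
    intro w hw hw'
    rw [Submodule.mem_sSup_of_directed ⟨y, hy⟩ hchain.directedOn] at hw'
    obtain ⟨E', hE', hwE'⟩ := hw'
    exact (Submodule.disjoint_def.1 (hc hE')) w hw hwE') ⊥ disjoint_bot_right
  have hdisj : Disjoint E C := hC.1
  let f : E →ₗ[R] (W ⧸ C) := C.mkQ ∘ₗ E.subtype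
  have hf : Function.Injective f := by
    rw [← LinearMap.ker_eq_bot, LinearMap.ker_eq_bot']
    rintro ⟨e, he⟩ h0
    have h1 : e ∈ C := by
      rw [← Submodule.Quotient.mk_eq_zero C]
      exact h0
    have h2 := (Submodule.disjoint_def.1 hdisj) e he h1
    exact Subtype.ext h2
  obtain ⟨g, hg⟩ := hW.out f hf E.subtype
  have hg' : ∀ e ∈ E, g (C.mkQ e) = e := fun e he => hg ⟨e, he⟩
  have hginj : Function.Injective g := by
    rw [← LinearMap.ker_eq_bot, LinearMap.ker_eq_bot']
    intro z hz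
    obtain ⟨w, rfl⟩ := Submodule.mkQ_surjective C z
    have h1 : Disjoint E ((LinearMap.ker g).comap C.mkQ) := by
      rw [Submodule.disjoint_def]
      intro e he he'
      have : g (C.mkQ e) = 0 := he'
      rwa [hg' e he] at this
    have h2 : C ≤ (LinearMap.ker g).comap C.mkQ := by
      intro c hc
      show g (C.mkQ c) = 0
      have : C.mkQ c = 0 := by
        rw [Submodule.mkQ_apply, Submodule.Quotient.mk_eq_zero]; exact hc
      rw [this, map_zero]
    have h3 : (LinearMap.ker g).comap C.mkQ ≤ C := hC.2 h1 h2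
    have h4 : w ∈ C := h3 hz
    rw [Submodule.mkQ_apply, Submodule.Quotient.mk_eq_zero]
    exact h4
  have hEr : E ≤ LinearMap.range g := fun e he => ⟨C.mkQ e, hg' e he⟩
  have hrs : LinearMap.range g ∈ s := by
    rintro y ⟨z, rfl⟩ hy0
    obtain ⟨w, rfl⟩ := Submodule.mkQ_surjective C z
    have hw : w ∉ C := by
      intro hw
      apply hy0
      have : C.mkQ w = 0 := by
        rw [Submodule.mkQ_apply, Submodule.Quotient.mk_eq_zero]; exact hw
      rw [this, map_zero]
    have h1 : ¬ Disjoint E (C ⊔ Submodule.span R {w}) := by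
      intro h
      have h2 := hC.2 h le_sup_left
      exact hw (h2 ((le_sup_right : Submodule.span R {w} ≤ C ⊔ _)
        (Submodule.mem_span_singleton_self w)))
    rw [Submodule.disjoint_def] at h1
    push Not at h1
    obtain ⟨e, he, he', he0⟩ := h1
    obtain ⟨c, hc, v, hv, hcv⟩ := Submodule.mem_sup.1 he'
    obtain ⟨r, rfl⟩ := Submodule.mem_span_singleton.1 hv
    have h3 : g (C.mkQ e) = r • g (C.mkQ w) := by
      rw [← hcv, map_add, map_smul, map_add, map_smul]
      have : C.mkQ c = 0 := by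
        rw [Submodule.mkQ_apply, Submodule.Quotient.mk_eq_zero]; exact hc
      rw [this, map_zero, zero_add]
    rw [hg' e he] at h3
    obtain ⟨t, ht, s', hs'⟩ := hE.1 e he he0
    refine ⟨t * r, ?_, s', ?_⟩
    · rw [mul_smul, ← h3]; exact ht
    · rw [mul_smul, ← h3]; exact hs'
  have hEr' : LinearMap.range g ≤ E := hE.2 hrs hEr
  let ret : W →ₗ[R] E := (g ∘ₗ C.mkQ).codRestrict E (fun w => hEr' ⟨C.mkQ w, rfl⟩)
  have hret : ∀ e : E, ret e = e := by
    intro e
    apply Subtype.ext
    exact hg' e e.2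
  refine ⟨E, inferInstance, inferInstance, ⟨x, hxE'⟩, ?_, ?_, ⟨?_⟩⟩
  · intro r
    rw [← hx r]
    constructor
    · intro h
      exact congrArg Subtype.val h
    · intro h
      exact Subtype.ext h
  · rintro ⟨y, hy⟩ hy0
    obtain ⟨r, hr, s', hs'⟩ := hE.1 y hy (fun h => hy0 (Subtype.ext h))
    refine ⟨r, fun h => hr (congrArg Subtype.val h), s', Subtype.ext hs'⟩
  · intro X Y _ _ _ _ f' hf' g'
    obtain ⟨h, hh⟩ := hW.out f' hf' (E.subtype ∘ₗ g')
    refine ⟨ret ∘ₗ h, ?_⟩
    intro z
    rw [LinearMap.comp_apply, hh z]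
    exact hret (g' z)

/-- divisibility from purity -/
theorem pure_div {R : Type} [CommRing R] {M N : Type} [AddCommGroup M] [Module R M]
    [AddCommGroup N] [Module R N] (i : M →ₗ[R] N)
    (hi : ∀ (Y : Type) [AddCommGroup Y] [Module R Y], Function.Injective (LinearMap.lTensor Y i))
    (r : R) (m : M) (n : N) (h : i m = r • n) : ∃ m' : M, m = r • m' := by
  have h1 := hi (R ⧸ Ideal.span {r})
  have h2 : (LinearMap.lTensor (R ⧸ Ideal.span {r}) i)
      ((Ideal.Quotient.mk (Ideal.span {r}) 1) ⊗ₜ[R] m) = 0 := by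
    rw [LinearMap.lTensor_tmul, h, ← TensorProduct.smul_tmul]
    have : r • (Ideal.Quotient.mk (Ideal.span {r}) 1) = 0 := by
      rw [← Ideal.Quotient.mk_eq_mk, ← Submodule.Quotient.mk_smul, Submodule.Quotient.mk_eq_zero,
        smul_eq_mul, mul_one]
      exact Ideal.mem_span_singleton_self r
    rw [this, TensorProduct.zero_tmul]
  have h3 : ((Ideal.Quotient.mk (Ideal.span {r}) 1) ⊗ₜ[R] m : (R ⧸ Ideal.span {r}) ⊗[R] M) = 0 := by
    apply h1
    rw [h2, map_zero]
  have h4 := congrArg (TensorProduct.quotTensorEquivQuotSMul M (Ideal.span {r})) h3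
  rw [TensorProduct.quotTensorEquivQuotSMul_mk_tmul, map_zero, one_smul,
    Submodule.Quotient.mk_eq_zero, Submodule.ideal_span_singleton_smul,
    Submodule.mem_smul_pointwise_iff_exists] at h4
  obtain ⟨m', _, hm'⟩ := h4
  exact ⟨m', hm'.symm⟩

theorem inj_of_pure {R : Type} [CommRing R] {M N : Type} [AddCommGroup M] [Module R M]
    [AddCommGroup N] [Module R N] (i : M →ₗ[R] N)
    (hi : ∀ (Y : Type) [AddCommGroup Y] [Module R Y], Function.Injective (LinearMap.lTensor Y i)) :
    Function.Injective i := by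
  intro x y hxy
  have h1 := hi R
  have h2 : (1 : R) ⊗ₜ[R] x = (1 : R) ⊗ₜ[R] y := by
    apply h1
    rw [LinearMap.lTensor_tmul, LinearMap.lTensor_tmul, hxy]
  have h3 := congrArg (TensorProduct.lid R M) h2
  rwa [TensorProduct.lid_tmul, TensorProduct.lid_tmul, one_smul, one_smul] at h3

/-- what the positive statement would give for the hull of `R ⧸ I` -/
theorem hull_step (R : Type) [CommRing R] (hR : ∀ a b : R, a ∣ b ∨ b ∣ a) (I : Ideal R)
    (hI : I ≠ ⊤)
    (hpos : ∀ (N : Type) [AddCommGroup N] [Module R N],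
      Nontrivial N →
      (∀ A B : Submodule R N, IsCompl A B → A = ⊥ ∨ B = ⊥) →
      (∀ (X : Type) [AddCommGroup X] [Module R X] (g : N →ₗ[R] X),
        (∀ (Y : Type) [AddCommGroup Y] [Module R Y],
          Function.Injective (LinearMap.lTensor Y g)) →
        ∃ h : X →ₗ[R] N, h ∘ₗ g = LinearMap.id) →
      ∃ (M : Type) (_ : AddCommGroup M) (_ : Module R M),
        (∀ A B : Submodule R M, A ≤ B ∨ B ≤ A) ∧
        ∃ i : M →ₗ[R] N,
          (∀ (Y : Type) [AddCommGroup Y] [Module R Y],
            Function.Injective (LinearMap.lTensor Y i)) ∧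
          ∀ (X : Type) [AddCommGroup X] [Module R X] (g : N →ₗ[R] X),
            (∀ (Y : Type) [AddCommGroup Y] [Module R Y],
              Function.Injective (LinearMap.lTensor Y (g ∘ₗ i))) →
            (∀ (Y : Type) [AddCommGroup Y] [Module R Y],
              Function.Injective (LinearMap.lTensor Y g))) :
    ∃ (E : Type) (_ : AddCommGroup E) (_ : Module R E) (S : Submodule R E) (m : E),
      (∀ r : R, r • m = 0 ↔ r ∈ I) ∧ m ∈ S ∧
      (∀ y ∈ S, ∀ y' ∈ S, (∃ s : R, y = s • y') ∨ (∃ s : R, y' = s • y)) ∧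
      ∀ r : R, (∀ s, s * r = 0 → s ∈ I) → ∃ y ∈ S, r • y = m := by
  obtain ⟨N, _, _, x, hx, hess, hinj⟩ := exists_hull R I hI
  have h1I : (1 : R) ∉ I := fun h => hI ((Ideal.eq_top_iff_one I).2 h)
  have hx0 : x ≠ 0 := by
    intro h
    apply h1I
    rw [← hx 1, h, smul_zero]
  have hnt : Nontrivial N := ⟨x, 0, hx0⟩
  obtain ⟨M, _, _, huni, i, hi, hpe⟩ := hpos N hnt (by
    intro A B hAB
    by_contra hcon
    push Not at hcon
    obtain ⟨hA, hB⟩ := hcon
    obtain ⟨a, ha, ha0⟩ := (Submodule.ne_bot_iff A).1 hA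
    obtain ⟨b, hb, hb0⟩ := (Submodule.ne_bot_iff B).1 hB
    obtain ⟨r, hr, s, hs⟩ := hess a ha0
    obtain ⟨r', hr', s', hs'⟩ := hess b hb0
    have hd := Submodule.disjoint_def.1 hAB.disjoint
    rcases hR s s' with ⟨t, ht⟩ | ⟨t, ht⟩
    · apply hr'
      apply hd _ _ (B.smul_mem r' hb)
      rw [hs', ht, mul_comm, mul_smul, ← hs]
      exact A.smul_mem _ (A.smul_mem _ ha)
    · apply hr
      apply hd _ (A.smul_mem r ha)
      rw [hs, ht, mul_comm, mul_smul, ← hs']
      exact B.smul_mem _ (B.smul_mem _ hb)) (by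
    intro X _ _ g hg
    obtain ⟨h, hh⟩ := hinj.out g (inj_of_pure g hg) LinearMap.id
    exact ⟨h, LinearMap.ext hh⟩)
  have hiinj := inj_of_pure i hi
  -- `M` is nontrivial
  have hM : ∃ m0 : M, m0 ≠ 0 := by
    by_contra hcon
    push Not at hcon
    have h1 := hpe PUnit (0 : N →ₗ[R] PUnit) (by
      intro Y _ _
      have : Subsingleton (Y ⊗[R] M) := by
        have hsub : Subsingleton M := ⟨fun a b => by rw [hcon a, hcon b]⟩
        exact inferInstance
      exact Function.injective_of_subsingleton _)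
    have h2 := inj_of_pure _ h1
    exact hx0 (h2 rfl)
  obtain ⟨m0, hm0⟩ := hM
  obtain ⟨t, ht, s, hs⟩ := hess (i m0) (fun h => hm0 (hiinj (by rw [h, map_zero])))
  -- `s • x ∈ range i`
  have hsx : i (t • m0) = s • x := by rw [map_smul]; exact hs
  obtain ⟨m1, hm1⟩ := pure_div i hi s (t • m0) x hsx
  have hsm : s • i m1 = s • x := by
    rw [← map_smul, ← hm1, hsx]
  have hsx0 : s • x ≠ 0 := by rw [← hs]; exact ht
  have hann : ∀ r : R, r • i m1 = 0 ↔ r ∈ I := by
    intro r
    rw [← hx r]
    have key : ∀ a b : N, s • a = s • b → s • a ≠ 0 → r • a = 0 → r • b = 0 := by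
      intro a b hab ha0 hra
      rcases hR r s with ⟨c, hc⟩ | ⟨c, hc⟩
      · exfalso
        apply ha0
        rw [hc, mul_comm, mul_smul, hra, smul_zero]
      · rw [hc, mul_comm, mul_smul, ← hab, ← mul_smul, mul_comm, ← hc, hra]
    exact ⟨key _ _ hsm (by rw [hsm]; exact hsx0), key _ _ hsm.symm hsx0⟩
  refine ⟨N, inferInstance, inferInstance, LinearMap.range i, i m1, hann, ⟨m1, rfl⟩, ?_, ?_⟩
  · rintro _ ⟨a, rfl⟩ _ ⟨b, rfl⟩
    rcases huni (Submodule.span R {a}) (Submodule.span R {b}) with h | h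
    · left
      obtain ⟨c, hc⟩ := Submodule.mem_span_singleton.1 (h (Submodule.mem_span_singleton_self a))
      exact ⟨c, by rw [← map_smul, hc]⟩
    · right
      obtain ⟨c, hc⟩ := Submodule.mem_span_singleton.1 (h (Submodule.mem_span_singleton_self b))
      exact ⟨c, by rw [← map_smul, hc]⟩
  · intro r hr
    -- solve `r z = i m1` in `N`
    have hz : ∃ z : N, r • z = i m1 := by
      let f : R →ₗ[R] R := LinearMap.toSpanSingleton R R r
      let gg : R →ₗ[R] N := LinearMap.toSpanSingleton R N (i m1)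
      have hker : LinearMap.ker f ≤ LinearMap.ker gg := by
        intro u hu
        have hu' : u * r = 0 := hu
        show u • i m1 = 0
        rw [hann]
        exact hr u hu'
      let f' : (R ⧸ LinearMap.ker f) →ₗ[R] R := (LinearMap.ker f).liftQ f le_rfl
      let g' : (R ⧸ LinearMap.ker f) →ₗ[R] N := (LinearMap.ker f).liftQ gg hker
      have hf' : Function.Injective f' := by
        rw [← LinearMap.ker_eq_bot]
        exact Submodule.ker_liftQ_eq_bot _ _ _ le_rfl
      have hinj' : Module.Injective R N := hinj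
      obtain ⟨h, hh⟩ := Module.Injective.extension_property R N (R ⧸ LinearMap.ker f) R f' hf' g'
      refine ⟨h 1, ?_⟩
      have h5 := LinearMap.congr_fun hh (Submodule.Quotient.mk 1)
      rw [LinearMap.comp_apply] at h5
      have h6 : f' (Submodule.Quotient.mk 1) = r := by
        show (1 : R) • r = r
        rw [one_smul]
      have h7 : g' (Submodule.Quotient.mk 1) = i m1 := by
        show (1 : R) • i m1 = i m1
        rw [one_smul]
      rw [h6, h7] at h5
      rw [← h5, ← map_smul, smul_eq_mul, mul_one]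
    obtain ⟨z, hz⟩ := hz
    obtain ⟨m2, hm2⟩ := pure_div i hi r m1 z hz.symm
    exact ⟨i m2, ⟨m2, rfl⟩, by rw [← map_smul, ← hm2]⟩

end Pool.Agent.Helper40.ValHull
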