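import Pool.Agent.Helper40.ValCore

set_option autoImplicit false
set_option linter.unusedSectionVars false

/-!
A module with the hull properties over the chain ring gives exact coherence: contradiction.
-/

namespace Pool.Agent.Helper40.ValRing

noncomputable section

variable {Ω : Type} [LinearOrder Ω] [WellFoundedLT Ω] [SuccOrder Ω] [NoMaxOrder Ω] [Nonempty Ω]
variable {K : Type} [Field K]
variable {φ : Ω → Ω → Ω → K} (hφ : Coh φ)

theorem InQ.xx {γ : Dl Ω} (hγ : deg γ = 0) : InQ (ValRing.xx γ : HH Ω K) := InQ.single hγ 1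

theorem neg_us_lt (μ : Ω) : - us μ 1 < (0 : Dl Ω) := by
  rw [lt_iff_cd]
  refine ⟨μ, ?_, ?_⟩
  · intro j hj
    rw [cd_neg, cd_us_ne _ hj.ne', cd_zero, neg_zero]
  · rw [cd_neg, cd_us_self, cd_zero]
    norm_num

theorem PP.sub (hφ : Coh φ) {f h g k : HH Ω K} (H : PP φ f h) (H' : PP φ g k) :
    PP φ (f - g) (h - k) := by
  rw [sub_eq_add_neg, sub_eq_add_neg]
  exact H.add hφ H'.neg

theorem xx_inv (γ : Dl Ω) : (xx γ : HH Ω K)⁻¹ = xx (-γ) := by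
  rw [HahnSeries.inv_single, inv_one]

/-- the positive element of degree `-1` -/
def aa (z0 : Ω) : Dl Ω := us z0 1 - us (Order.succ z0) 2

theorem aa_pos (z0 : Ω) : 0 < aa z0 := by
  rw [lt_iff_cd]
  have h := Order.lt_succ z0
  refine ⟨z0, ?_, ?_⟩
  · intro j hj
    rw [aa, cd_zero, cd_sub, cd_us_ne _ hj.ne', cd_us_ne _ (hj.trans h).ne', sub_zero]
  · rw [aa, cd_zero, cd_sub, cd_us_self, cd_us_ne _ h.ne']
    norm_num

theorem deg_aa (z0 : Ω) : deg (aa z0) = -1 := by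
  rw [aa, deg_sub, deg_us, deg_us]
  norm_num

/-- the elements `r μ` -/
theorem PP.rr (φ : Ω → Ω → Ω → K) (z0 μ : Ω) : PP φ 0 (xx (-aa z0 - us μ 1)) :=
  PP.ofQD φ (QD.ofQ (InQ.xx (by rw [deg_sub, deg_neg, deg_aa, deg_us]; norm_num)))

/-- the elements `r μ` -/
def rr (z0 μ : Ω) : RR φ hφ := el hφ 0 (xx (-aa z0 - us μ 1)) (PP.rr φ z0 μ)

theorem rr_ann (z0 μ : Ω) (s : RR φ hφ) (h : s * rr hφ z0 μ = 0) : s ∈ II hφ (aa z0) := by
  obtain ⟨f, k, H, rfl⟩ := exists_el hφ s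
  rw [rr, el_mul, el_zero, el_eq_iff] at h
  obtain ⟨_, h⟩ := h
  show GT (aa z0) f
  intro γ hγ
  have h1 := h (γ + (-aa z0 - us μ 1)) (by
    have h2 : γ - aa z0 ≤ 0 := sub_nonpos.2 hγ
    have h3 := add_lt_add_of_le_of_lt h2 (neg_us_lt μ)
    rw [add_zero] at h3
    have e : γ + (-aa z0 - us μ 1) = γ - aa z0 + - us μ 1 := by abel
    rw [e]; exact h3)
  rw [mul_zero, add_zero, sub_zero, mul_comm, coeff_xx_mul, add_sub_cancel_right] at h1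
  exact h1

section Mod

variable {E : Type} [AddCommGroup E] [Module (RR φ hφ) E] (S : Submodule (RR φ hφ) E) (m : E)
  (z0 : Ω) (hm : ∀ r : RR φ hφ, r • m = 0 ↔ r ∈ II hφ (aa z0))
  (hcmp : ∀ y ∈ S, ∀ y' ∈ S, (∃ s : RR φ hφ, y = s • y') ∨ (∃ s : RR φ hφ, y' = s • y))

include hm

theorem m_ne : m ≠ 0 := by
  intro h
  apply one_notMem_II hφ (aa_pos z0)
  rw [← hm 1, h, smul_zero]

theorem ann1 {μ : Ω} {y : E} (hy : rr hφ z0 μ • y = m) {f h : HH Ω K} (H : PP φ f h)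
    (h0 : el hφ f h H • y = 0) : f = 0 := by
  by_contra hf
  obtain ⟨c, hc⟩ := dvd_of_div hφ H (PP.rr φ z0 μ) hf (by
    rw [zero_div]
    exact NN.zero)
  apply m_ne hφ m z0 hm
  rw [← hy, rr, ← hc, mul_smul, h0, smul_zero]

theorem ann2 {μ : Ω} {y : E} (hy : rr hφ z0 μ • y = m) {q : HH Ω K} (hq : InQ q)
    (H : PP φ 0 q) (h0 : el hφ 0 q H • y = 0) : GT (- us μ 1) q := by
  have hcQ : InQ (xx (aa z0 + us μ 1) * q) :=
    InQ.mul (InQ.xx (by rw [deg_add, deg_aa, deg_us]; norm_num)) hq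
  have hback : xx (-aa z0 - us μ 1) * (xx (aa z0 + us μ 1) * q) = q := by
    rw [← mul_assoc, xx_mul]
    have : -aa z0 - us μ 1 + (aa z0 + us μ 1) = 0 := by abel
    rw [this, xx_zero, one_mul]
  rcases NN_or_inv (xx (aa z0 + us μ 1) * q) with hn | ⟨hne, hn⟩
  · obtain ⟨p, hp⟩ := PP.exists_lift φ hcQ hn
    have h1 : el hφ _ _ hp * rr hφ z0 μ = el hφ 0 q H := by
      rw [rr, el_mul]
      apply el_congr
      · rw [mul_zero]
      · rw [mul_zero, add_zero, mul_comm, hback]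
    have h2 : el hφ _ _ hp • m = 0 := by
      rw [← hy, ← mul_smul, h1, h0]
    rw [hm] at h2
    have h3 : GT (aa z0) (xx (aa z0 + us μ 1) * q) := h2
    have h4 := GT_xx_mul h3
    have e : aa z0 - (aa z0 + us μ 1) = - us μ 1 := by abel
    rwa [e] at h4
  · exfalso
    obtain ⟨p, hp⟩ := PP.exists_lift φ hcQ.inv hn
    have h1 : el hφ _ _ hp * el hφ 0 q H = rr hφ z0 μ := by
      rw [rr, el_mul]
      apply el_congr
      · rw [mul_zero]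
      · rw [mul_zero, add_zero]
        have hq0 : q ≠ 0 := by
          rintro rfl
          rw [mul_zero] at hne
          exact hne rfl
        rw [mul_inv, mul_assoc, inv_mul_cancel₀ hq0, mul_one, xx_inv]
        congr 1
        abel
    apply m_ne hφ m z0 hm
    rw [← hy, ← h1, mul_smul, h0, smul_zero]

theorem ann {μ : Ω} {y : E} (hy : rr hφ z0 μ • y = m) {f h : HH Ω K} (H : PP φ f h)
    (h0 : el hφ f h H • y = 0) : f = 0 ∧ GT (- us μ 1) h := by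
  have hf := ann1 hφ m z0 hm hy H h0
  refine ⟨hf, ?_⟩
  subst hf
  obtain ⟨q, d, hq, hd, rfl⟩ := H.toQD
  have Hq : PP φ 0 q := PP.ofQD φ (QD.ofQ hq)
  have e1 : el hφ 0 (q + d) H = el hφ 0 q Hq := by
    rw [el_eq_iff]
    exact ⟨rfl, by rwa [add_sub_cancel_left]⟩
  rw [e1] at h0
  exact (ann2 hφ m z0 hm hy hq Hq h0).add (hd.gt (neg_us_lt μ))

include hcmp in
theorem step_e {μ ν : Ω} (hμν : μ < ν) {y y' : E} (hyS : y ∈ S) (hyS' : y' ∈ S)
    (hy : rr hφ z0 μ • y = m) (hy' : rr hφ z0 ν • y' = m) : ∃ s : RR φ hφ, y = s • y' := by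
  rcases hcmp y hyS y' hyS' with h | ⟨s, hs⟩
  · exact h
  exfalso
  obtain ⟨f, h, H, rfl⟩ := exists_el hφ s
  have h1 : (rr hφ z0 ν * el hφ f h H - rr hφ z0 μ) • y = 0 := by
    rw [sub_smul, mul_smul, ← hs, hy, hy', sub_self]
  have hfQ : InQ f := H.inQ
  have Q1 : InQ (xx (-aa z0 - us ν 1) : HH Ω K) :=
    InQ.xx (by rw [deg_sub, deg_neg, deg_aa, deg_us]; norm_num)
  have Q2 : InQ (xx (-aa z0 - us μ 1) : HH Ω K) :=
    InQ.xx (by rw [deg_sub, deg_neg, deg_aa, deg_us]; norm_num)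
  have H1 : PP φ 0 (xx (-aa z0 - us ν 1) * f - xx (-aa z0 - us μ 1)) :=
    PP.ofQD φ (QD.ofQ ((Q1.mul hfQ).sub Q2))
  have h2 : rr hφ z0 ν * el hφ f h H - rr hφ z0 μ =
      el hφ 0 (xx (-aa z0 - us ν 1) * f - xx (-aa z0 - us μ 1)) H1 := by
    rw [rr, rr, el_mul]
    have H2 : PP φ (0 * f - 0) (0 * h + xx (-aa z0 - us ν 1) * f - xx (-aa z0 - us μ 1)) := by
      simpa using H1
    rw [el_sub hφ _ _ H2]
    apply el_congr
    · rw [zero_mul, sub_zero]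
    · rw [zero_mul, zero_add]
  rw [h2] at h1
  have h3 := (ann hφ m z0 hm hy H1 h1).2 (-aa z0 - us μ 1) (by
    rw [sub_eq_add_neg]
    exact add_le_of_nonpos_left (neg_nonpos.2 (aa_pos z0).le))
  rw [HahnSeries.coeff_sub, coeff_xx_mul, HahnSeries.coeff_single_same] at h3
  have h4 : f.coeff (-aa z0 - us μ 1 - (-aa z0 - us ν 1)) = 0 := by
    apply H.nn
    have e : -aa z0 - us μ 1 - (-aa z0 - us ν 1) = us ν 1 - us μ 1 := by abel
    rw [e, lt_iff_cd]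
    refine ⟨μ, ?_, ?_⟩
    · intro j hj
      rw [cd_sub, cd_us_ne _ hj.ne', cd_us_ne _ (hj.trans hμν).ne', cd_zero, sub_zero]
    · rw [cd_sub, cd_us_self, cd_us_ne _ hμν.ne', cd_zero]
      norm_num
  rw [h4, zero_sub, neg_eq_zero] at h3
  exact one_ne_zero h3

theorem step_f {μ ν : Ω} {y y' : E}
    (hy : rr hφ z0 μ • y = m) (hy' : rr hφ z0 ν • y' = m) {f h : HH Ω K} (H : PP φ f h)
    (hs : y = el hφ f h H • y') : GT (aa z0 + us μ 1 - us ν 1) (f - xx (us μ 1 - us ν 1)) := by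
  have h1 : (rr hφ z0 μ * el hφ f h H - rr hφ z0 ν) • y' = 0 := by
    rw [sub_smul, mul_smul, ← hs, hy, hy', sub_self]
  have hfQ : InQ f := H.inQ
  have Q1 : InQ (xx (-aa z0 - us ν 1) : HH Ω K) :=
    InQ.xx (by rw [deg_sub, deg_neg, deg_aa, deg_us]; norm_num)
  have Q2 : InQ (xx (-aa z0 - us μ 1) : HH Ω K) :=
    InQ.xx (by rw [deg_sub, deg_neg, deg_aa, deg_us]; norm_num)
  have H1 : PP φ 0 (xx (-aa z0 - us μ 1) * f - xx (-aa z0 - us ν 1)) :=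
    PP.ofQD φ (QD.ofQ ((Q2.mul hfQ).sub Q1))
  have h2 : rr hφ z0 μ * el hφ f h H - rr hφ z0 ν =
      el hφ 0 (xx (-aa z0 - us μ 1) * f - xx (-aa z0 - us ν 1)) H1 := by
    rw [rr, rr, el_mul]
    have H2 : PP φ (0 * f - 0) (0 * h + xx (-aa z0 - us μ 1) * f - xx (-aa z0 - us ν 1)) := by
      simpa using H1
    rw [el_sub hφ _ _ H2]
    apply el_congr
    · rw [zero_mul, sub_zero]
    · rw [zero_mul, zero_add]
  rw [h2] at h1
  have h3 := (ann hφ m z0 hm hy' H1 h1).2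
  have e1 : (xx (-aa z0 - us μ 1) * f - xx (-aa z0 - us ν 1) : HH Ω K) =
      xx (-aa z0 - us μ 1) * (f - xx (us μ 1 - us ν 1)) := by
    rw [mul_sub, xx_mul]
    congr 2
    abel
  rw [e1] at h3
  have h4 := GT_xx_mul h3
  have e2 : - us ν 1 - (-aa z0 - us μ 1) = aa z0 + us μ 1 - us ν 1 := by abel
  rwa [e2] at h4

include hcmp in
/-- the base comparison -/
theorem step_g {ν : Ω} (hν : z0 < ν) {y y' : E} (hyS : y ∈ S) (hyS' : y' ∈ S)
    (hy : rr hφ z0 z0 • y = m) (hy' : rr hφ z0 ν • y' = m) :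
    ∃ (ε p : HH Ω K) (H : PP φ ε p) (E' : RR φ hφ), ε ≠ 0 ∧ NN ε⁻¹ ∧
      E' * el hφ ε p H = 1 ∧
      ∃ (f h : HH Ω K) (H' : PP φ f h), y = el hφ f h H' • y' ∧ f = xx (us z0 1 - us ν 1) * ε := by
  obtain ⟨s, hs⟩ := step_e hφ S m z0 hm hcmp hν hyS hyS' hy hy'
  obtain ⟨f, h, H', rfl⟩ := exists_el hφ s
  have h1 := step_f hφ m z0 hm hy hy' H' hs
  have hfQ : InQ f := H'.inQ
  have hε : f = xx (us z0 1 - us ν 1) * (xx (-(us z0 1 - us ν 1)) * f) := by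
    rw [← mul_assoc, xx_mul, add_neg_cancel, xx_zero, one_mul]
  have h2 : GT (aa z0) (xx (-(us z0 1 - us ν 1)) * f - 1) := by
    have h3 := xx_mul_GT (b := -(us z0 1 - us ν 1)) h1
    have e1 : aa z0 + us z0 1 - us ν 1 + -(us z0 1 - us ν 1) = aa z0 := by abel
    rw [e1, mul_sub, xx_mul, neg_add_cancel, xx_zero] at h3
    exact h3
  have h3 : ∀ γ ≤ aa z0, (xx (-(us z0 1 - us ν 1)) * f).coeff γ = (1 : HH Ω K).coeff γ := by
    intro γ hγ
    have := h2 γ hγ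
    rwa [HahnSeries.coeff_sub, sub_eq_zero] at this
  have h4 : (xx (-(us z0 1 - us ν 1)) * f).coeff 0 ≠ 0 := by
    rw [h3 0 (aa_pos z0).le, ← xx_zero, HahnSeries.coeff_single_same]
    exact one_ne_zero
  have h5 : NN (xx (-(us z0 1 - us ν 1)) * f) := by
    intro γ hγ
    rw [h3 γ (hγ.le.trans (aa_pos z0).le), ← xx_zero]
    exact HahnSeries.coeff_single_of_ne hγ.ne
  have h6 : NN (xx (-(us z0 1 - us ν 1)) * f : HH Ω K)⁻¹ := NN_inv_of_coeff_zero h4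
  have h7 : xx (-(us z0 1 - us ν 1)) * f ≠ 0 := HahnSeries.ne_zero_of_coeff_ne_zero h4
  have h8 : InQ (xx (-(us z0 1 - us ν 1)) * f) :=
    InQ.mul (InQ.xx (by rw [deg_neg, deg_sub, deg_us, deg_us]; norm_num)) hfQ
  obtain ⟨p, hp⟩ := PP.exists_lift φ h8 h5
  obtain ⟨E', hE'⟩ := dvd_of_div hφ hp (PP.one φ) h7 (by rwa [one_div])
  exact ⟨_, p, hp, E', h7, h6, hE', f, h, H', hs, hε⟩

include hcmp in
theorem step_z (hS : ∀ μ, ∃ y ∈ S, rr hφ z0 μ • y = m) :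
    ∃ z : Ω → E,
      (∀ ν, z0 < ν → ∀ f h (H : PP φ f h), el hφ f h H • z ν = 0 → f = 0 ∧ GT (- us ν 1) h) ∧
      ∀ μ ν, z0 < μ → μ < ν → ∃ n : HH Ω K, InQ n ∧
        ∃ H : PP φ (xx (us μ 1 - us ν 1)) (xx (us μ 1 - us ν 1) * (hat μ (φ μ ν) + n)),
          z μ = el hφ _ _ H • z ν := by
  choose y hyS hy using hS
  have hg : ∀ ν, z0 < ν → ∃ (ε p : HH Ω K) (H : PP φ ε p) (E' : RR φ hφ), ε ≠ 0 ∧ NN ε⁻¹ ∧
      E' * el hφ ε p H = 1 ∧
      ∃ (f h : HH Ω K) (H' : PP φ f h), y z0 = el hφ f h H' • y ν ∧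
        f = xx (us z0 1 - us ν 1) * ε :=
    fun ν hν => step_g hφ S m z0 hm hcmp hν (hyS z0) (hyS ν) (hy z0) (hy ν)
  choose! ε p hεp E' hε0 hεi hE' f0 h0 H0 hf0 hfε using hg
  refine ⟨fun ν => if hν : z0 < ν then el hφ (ε ν) (p ν) (hεp ν hν) • y ν else 0, ?_, ?_⟩
  · intro ν hν f h H hzero
    beta_reduce at hzero
    rw [dif_pos hν, ← mul_smul, el_mul] at hzero
    obtain ⟨h1, h2⟩ := ann hφ m z0 hm (hy ν) _ hzero
    have hf : f = 0 := by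
      rcases mul_eq_zero.1 h1 with h | h
      · exact h
      · exact absurd h (hε0 ν hν)
    refine ⟨hf, ?_⟩
    rw [hf, zero_mul, zero_add] at h2
    have h3 := GT.mul (hεi ν hν) h2
    have e : (ε ν)⁻¹ * (h * ε ν) = h := by
      rw [mul_comm h, ← mul_assoc, inv_mul_cancel₀ (hε0 ν hν), one_mul]
    rwa [e] at h3
  · intro μ ν hμ hμν
    have hν : z0 < ν := hμ.trans hμν
    obtain ⟨s, hs⟩ := step_e hφ S m z0 hm hcmp hμν (hyS μ) (hyS ν) (hy μ) (hy ν)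
    obtain ⟨f1, h1, H1, rfl⟩ := exists_el hφ s
    -- first coordinates
    have hfst : ε μ * f1 = xx (us μ 1 - us ν 1) * ε ν := by
      have e1 : (el hφ (f0 μ) (h0 μ) (H0 μ hμ) * el hφ f1 h1 H1 -
          el hφ (f0 ν) (h0 ν) (H0 ν hν)) • y ν = 0 := by
        rw [sub_smul, mul_smul, ← hs, ← hf0 μ hμ, ← hf0 ν hν, sub_self]
      rw [el_mul, el_sub hφ _ _ (((H0 μ hμ).mul hφ H1).sub hφ (H0 ν hν))] at e1
      have e2 := (ann hφ m z0 hm (hy ν) _ e1).1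
      rw [hfε μ hμ, hfε ν hν, sub_eq_zero] at e2
      have e3 : (xx (us z0 1 - us ν 1) : HH Ω K) =
          xx (us z0 1 - us μ 1) * xx (us μ 1 - us ν 1) := by
        rw [xx_mul]
        congr 1
        abel
      rw [e3, mul_assoc, mul_assoc] at e2
      exact mul_left_cancel₀ (xx_ne _) e2
    obtain ⟨fw, hw, Hw, hweq⟩ := exists_el hφ
      (el hφ (ε μ) (p μ) (hεp μ hμ) * el hφ f1 h1 H1 * E' ν)
    have hfw : fw = xx (us μ 1 - us ν 1) := by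
      have e1 : fstR hφ (E' ν) * ε ν = 1 := by
        have := congrArg (fstR hφ) (hE' ν hν)
        rwa [map_mul, map_one, fstR_el] at this
      have e2 : fw = ε μ * f1 * fstR hφ (E' ν) := by
        have := congrArg (fstR hφ) hweq
        rw [map_mul, map_mul, fstR_el, fstR_el, fstR_el] at this
        exact this.symm
      have e3 : fw * ε ν = xx (us μ 1 - us ν 1) * ε ν := by
        rw [e2, mul_assoc, e1, mul_one, hfst]
      exact mul_right_cancel₀ (hε0 ν hν) e3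
    subst hfw
    obtain ⟨q, d, hq, hd, hqd⟩ := PP.diff hφ Hw (PP.tt φ hφ hμν)
    have e4 : xx (us μ 1 - us ν 1) * (hat μ (φ μ ν) + xx (-(us μ 1 - us ν 1)) * q) =
        xx (us μ 1 - us ν 1) * hat μ (φ μ ν) + q := by
      rw [mul_add, ← mul_assoc (xx (us μ 1 - us ν 1)) (xx (-(us μ 1 - us ν 1))) q, xx_mul,
        add_neg_cancel, xx_zero, one_mul]
    have Hn : PP φ (xx (us μ 1 - us ν 1))
        (xx (us μ 1 - us ν 1) * (hat μ (φ μ ν) + xx (-(us μ 1 - us ν 1)) * q)) := by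
      rw [e4]
      have := (PP.tt φ hφ hμν).add hφ (PP.ofQD φ (QD.ofQ hq))
      rwa [add_zero] at this
    refine ⟨xx (-(us μ 1 - us ν 1)) * q,
      InQ.mul (InQ.xx (by rw [deg_neg, deg_sub, deg_us, deg_us]; norm_num)) hq, Hn, ?_⟩
    have e5 : el hφ _ _ Hn = el hφ _ _ Hw := by
      rw [el_eq_iff]
      refine ⟨rfl, ?_⟩
      rw [e4]
      have : xx (us μ 1 - us ν 1) * hat μ (φ μ ν) + q - hw = -d := by
        have e6 : xx (us μ 1 - us ν 1) * hat μ (φ μ ν) + q - hw =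
          q - (hw - xx (us μ 1 - us ν 1) * hat μ (φ μ ν)) := by ring
        rw [e6, hqd]
        ring
      rw [this]
      exact hd.neg
    rw [e5, ← hweq]
    beta_reduce
    rw [dif_pos hμ, dif_pos hν, hs, mul_smul, mul_smul, ← mul_smul (E' ν), hE' ν hν, one_smul]

end Mod

theorem ideal_total (I J : Ideal (RR φ hφ)) : I ≤ J ∨ J ≤ I := by
  by_contra hcon
  push Not at hcon
  obtain ⟨h1, h2⟩ := hcon
  obtain ⟨a, ha, ha'⟩ := SetLike.not_le_iff_exists.1 h1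
  obtain ⟨b, hb, hb'⟩ := SetLike.not_le_iff_exists.1 h2
  rcases dvd_total hφ a b with ⟨c, hc⟩ | ⟨c, hc⟩
  · exact hb' (by rw [← hc]; exact I.mul_mem_left c ha)
  · exact ha' (by rw [← hc]; exact J.mul_mem_left c hb)

theorem InQ.finite_ee {q : HH Ω K} (hq : InQ q) : {ξ : Ω | q.coeff (ee ξ) ≠ 0}.Finite := by
  obtain ⟨F, hF⟩ := hq
  have h1 : {ξ : Ω | q.coeff (ee ξ) ≠ 0} ⊆ Order.succ ⁻¹' (F : Set Ω) := by
    intro ξ hξ
    apply (hF _ hξ).2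
    rw [cd_ee_succ]
    norm_num
  refine (Set.Finite.preimage ?_ F.finite_toSet).subset h1
  intro x _ y _ hxy
  exact Order.succ_injective hxy

theorem core {A : Type} [AddCommGroup A] (ι : A →+ K) (r : K →+ A) (hr : ∀ a, r (ι a) = a)
    (ψ : Ω → Ω → Ω → A) (hφ : Coh (fun μ ν ξ => ι (ψ μ ν ξ))) (z0 : Ω) (hz0 : ∀ x, z0 ≤ x)
    {E : Type} [AddCommGroup E] [Module (RR (fun μ ν ξ => ι (ψ μ ν ξ)) hφ) E]
    (S : Submodule (RR (fun μ ν ξ => ι (ψ μ ν ξ)) hφ) E) (m : E)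
    (hm : ∀ r : RR (fun μ ν ξ => ι (ψ μ ν ξ)) hφ, r • m = 0 ↔ r ∈ II hφ (aa z0))
    (hcmp : ∀ y ∈ S, ∀ y' ∈ S, (∃ s : RR (fun μ ν ξ => ι (ψ μ ν ξ)) hφ, y = s • y') ∨
      (∃ s : RR (fun μ ν ξ => ι (ψ μ ν ξ)) hφ, y' = s • y))
    (hS : ∀ μ, ∃ y ∈ S, rr hφ z0 μ • y = m) :
    ∃ B : Ω → Ω → Ω → A, (∀ μ ν, μ < ν → {ξ | ξ < μ ∧ B μ ν ξ ≠ 0}.Finite) ∧
      ∀ ξ μ ν ρ, ξ < μ → μ < ν → ν < ρ →
        (ψ μ ν ξ + B μ ν ξ) + (ψ ν ρ ξ + B ν ρ ξ) = ψ μ ρ ξ + B μ ρ ξ := by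
  obtain ⟨z, hz1, hz2⟩ := step_z hφ S m z0 hm hcmp hS
  choose! n hnQ hnH hnz using hz2
  refine ⟨fun μ ν ξ => r ((n μ ν).coeff (ee ξ)), ?_, ?_⟩
  · intro μ ν hμν
    by_cases hμ : z0 < μ
    · refine ((hnQ μ ν hμ hμν).finite_ee).subset ?_
      rintro ξ ⟨_, h2⟩ h3
      apply h2
      show r ((n μ ν).coeff (ee ξ)) = 0
      rw [h3, map_zero]
    · refine Set.finite_empty.subset ?_
      rintro ξ ⟨h1, _⟩
      exact hμ (lt_of_le_of_lt (hz0 ξ) h1)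
  · intro ξ μ ν ρ hξμ hμν hνρ
    have hμ : z0 < μ := lt_of_le_of_lt (hz0 ξ) hξμ
    have hν : z0 < ν := hμ.trans hμν
    have hρ : z0 < ρ := hν.trans hνρ
    have hμρ : μ < ρ := hμν.trans hνρ
    have e1 : (el hφ _ _ (hnH μ ν hμ hμν) * el hφ _ _ (hnH ν ρ hν hνρ) -
        el hφ _ _ (hnH μ ρ hμ hμρ)) • z ρ = 0 := by
      rw [sub_smul, mul_smul, ← hnz ν ρ hν hνρ, ← hnz μ ν hμ hμν, ← hnz μ ρ hμ hμρ, sub_self]
    rw [el_mul, el_sub hφ _ _ (((hnH μ ν hμ hμν).mul hφ (hnH ν ρ hν hνρ)).sub hφ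
      (hnH μ ρ hμ hμρ))] at e1
    have e2 := (hz1 ρ hρ _ _ _ e1).2
    have e3 : (xx (us μ 1 - us ρ 1) : HH Ω K) = xx (us μ 1 - us ν 1) * xx (us ν 1 - us ρ 1) := by
      rw [xx_mul]
      congr 1
      abel
    have e4 : (xx (us μ 1 - us ν 1) * (xx (us ν 1 - us ρ 1) *
          (hat ν (fun ξ => ι (ψ ν ρ ξ)) + n ν ρ)) +
        xx (us μ 1 - us ν 1) * (hat μ (fun ξ => ι (ψ μ ν ξ)) + n μ ν) * xx (us ν 1 - us ρ 1) -
        xx (us μ 1 - us ρ 1) * (hat μ (fun ξ => ι (ψ μ ρ ξ)) + n μ ρ) : HH Ω K) =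
        xx (us μ 1 - us ρ 1) * ((hat ν (fun ξ => ι (ψ ν ρ ξ)) + n ν ρ) +
          (hat μ (fun ξ => ι (ψ μ ν ξ)) + n μ ν) - (hat μ (fun ξ => ι (ψ μ ρ ξ)) + n μ ρ)) := by
      rw [e3]
      ring
    rw [e4] at e2
    have e5 := GT_xx_mul e2
    have e6 : - us ρ 1 - (us μ 1 - us ρ 1) = - us μ 1 := by abel
    rw [e6] at e5
    have e7 := e5 (ee ξ) (ee_lt hξμ).le
    rw [HahnSeries.coeff_sub, HahnSeries.coeff_add, HahnSeries.coeff_add, HahnSeries.coeff_add,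
      HahnSeries.coeff_add, coeff_hat_ee, coeff_hat_ee, coeff_hat_ee, if_pos hξμ, if_pos hξμ,
      if_pos (hξμ.trans hμν)] at e7
    have e8 := congrArg r (sub_eq_zero.1 e7)
    rw [map_add, map_add, map_add, map_add, hr, hr, hr] at e8
    beta_reduce
    rw [add_comm, e8]

/-- embedding of a free `ℚ`-module in a field, with a retraction -/
theorem exists_field_aux (P K : Type) [Field K] [Algebra (MvPolynomial P ℚ) K] [Algebra ℚ K]
    [IsScalarTower ℚ (MvPolynomial P ℚ) K] [IsFractionRing (MvPolynomial P ℚ) K] :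
    ∃ (ι : (P →₀ ℚ) →+ K) (r : K →+ (P →₀ ℚ)), ∀ a, r (ι a) = a := by
  let f : MvPolynomial P ℚ →ₗ[ℚ] K :=
    (IsScalarTower.toAlgHom ℚ (MvPolynomial P ℚ) K).toLinearMap
  have hf : Function.Injective f := IsFractionRing.injective (MvPolynomial P ℚ) K
  have hli : LinearIndependent ℚ (fun p : P => (MvPolynomial.X p : MvPolynomial P ℚ)) :=
    MvPolynomial.linearIndependent_X P ℚ
  let g : (P →₀ ℚ) →ₗ[ℚ] K :=
    f ∘ₗ Finsupp.linearCombination ℚ (fun p : P => (MvPolynomial.X p : MvPolynomial P ℚ))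
  have hg : LinearMap.ker g = ⊥ := by
    rw [LinearMap.ker_eq_bot]
    exact hf.comp hli
  obtain ⟨s, hs⟩ := g.exists_leftInverse_of_injective hg
  refine ⟨g.toAddMonoidHom, s.toAddMonoidHom, ?_⟩
  intro a
  exact LinearMap.congr_fun hs a

theorem exists_field (P : Type) : ∃ (K : Type) (_ : Field K) (ι : (P →₀ ℚ) →+ K)
    (r : K →+ (P →₀ ℚ)), ∀ a, r (ι a) = a := by
  obtain ⟨ι, r, h⟩ := exists_field_aux P (FractionRing (MvPolynomial P ℚ))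
  exact ⟨FractionRing (MvPolynomial P ℚ), inferInstance, ι, r, h⟩

end

end Pool.Agent.Helper40.ValRing
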