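import Mathlib

set_option autoImplicit false
set_option linter.unusedSectionVars false

/-!
A chain ring built from Hahn series.
-/

namespace Pool.Agent.Helper40.ValRing

open Finset

noncomputable section

section Group

variable {Ω : Type} [LinearOrder Ω]

/-- the value group -/
abbrev Dl (Ω : Type) : Type := Lex (Ω →₀ ℤ)

/-- coordinate -/
def cd (ν : Ω) (γ : Dl Ω) : ℤ := (ofLex γ) ν

@[simp] theorem cd_zero (ν : Ω) : cd ν (0 : Dl Ω) = 0 := rfl
@[simp] theorem cd_add (ν : Ω) (γ δ : Dl Ω) : cd ν (γ + δ) = cd ν γ + cd ν δ := rfl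
@[simp] theorem cd_neg (ν : Ω) (γ : Dl Ω) : cd ν (-γ) = - cd ν γ := rfl
@[simp] theorem cd_sub (ν : Ω) (γ δ : Dl Ω) : cd ν (γ - δ) = cd ν γ - cd ν δ := rfl

/-- `n` times the basis vector `μ` -/
def us (μ : Ω) (n : ℤ) : Dl Ω := toLex (Finsupp.single μ n)

theorem cd_us (ν μ : Ω) (n : ℤ) : cd ν (us μ n) = if μ = ν then n else 0 := by
  show (Finsupp.single μ n) ν = _
  rw [Finsupp.single_apply]

@[simp] theorem cd_us_self (μ : Ω) (n : ℤ) : cd μ (us μ n) = n := by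
  rw [cd_us, if_pos rfl]

theorem cd_us_ne {μ ν : Ω} (n : ℤ) (h : μ ≠ ν) : cd ν (us μ n) = 0 := by
  rw [cd_us, if_neg h]

/-- total degree -/
def deg (γ : Dl Ω) : ℤ := (ofLex γ).degree

@[simp] theorem deg_zero : deg (0 : Dl Ω) = 0 := by
  show Finsupp.degree (0 : Ω →₀ ℤ) = 0
  rw [map_zero]
@[simp] theorem deg_add (γ δ : Dl Ω) : deg (γ + δ) = deg γ + deg δ := by
  show Finsupp.degree (ofLex γ + ofLex δ) = _
  rw [map_add]; rfl
@[simp] theorem deg_neg (γ : Dl Ω) : deg (-γ) = - deg γ := by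
  show Finsupp.degree (-ofLex γ) = _
  rw [map_neg]; rfl
@[simp] theorem deg_sub (γ δ : Dl Ω) : deg (γ - δ) = deg γ - deg δ := by
  rw [sub_eq_add_neg, deg_add, deg_neg, sub_eq_add_neg]
@[simp] theorem deg_us (μ : Ω) (n : ℤ) : deg (us μ n) = n := by
  show Finsupp.degree (Finsupp.single μ n) = n
  simp

theorem deg_eq_sum (γ : Dl Ω) (F : Finset Ω) (h : ∀ ν, cd ν γ ≠ 0 → ν ∈ F) :
    deg γ = ∑ ν ∈ F, cd ν γ := by
  show Finsupp.degree (ofLex γ) = _
  rw [Finsupp.degree_apply]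
  refine Finset.sum_subset ?_ ?_
  · intro ν hν
    exact h ν (Finsupp.mem_support_iff.1 hν)
  · intro ν _ hν
    exact Finsupp.notMem_support_iff.1 hν

theorem lt_iff_cd {γ δ : Dl Ω} : γ < δ ↔ ∃ ℓ, (∀ j < ℓ, cd j γ = cd j δ) ∧ cd ℓ γ < cd ℓ δ :=
  Finsupp.Lex.lt_iff

/-- the exponents `e ξ` -/
def ee [SuccOrder Ω] (ξ : Ω) : Dl Ω := us (Order.succ (Order.succ ξ)) 2 - us (Order.succ ξ) 2

theorem deg_ee [SuccOrder Ω] (ξ : Ω) : deg (ee ξ) = 0 := by
  simp [ee]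

variable [SuccOrder Ω] [NoMaxOrder Ω]

theorem cd_ee_of_le {ξ ν : Ω} (h : ν ≤ ξ) : cd ν (ee ξ) = 0 := by
  have h1 : ν < Order.succ ξ := Order.lt_succ_iff.2 h
  have h2 : ν < Order.succ (Order.succ ξ) := h1.trans (Order.lt_succ _)
  rw [ee, cd_sub, cd_us_ne _ h2.ne', cd_us_ne _ h1.ne', sub_zero]

theorem cd_ee_succ (ξ : Ω) : cd (Order.succ ξ) (ee ξ) = -2 := by
  rw [ee, cd_sub, cd_us_ne _ (Order.lt_succ (Order.succ ξ)).ne', cd_us_self]
  norm_num

theorem ee_strictMono : StrictMono (ee : Ω → Dl Ω) := by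
  intro ξ ξ' h
  rw [lt_iff_cd]
  refine ⟨Order.succ ξ, ?_, ?_⟩
  · intro j hj
    have hj' : j ≤ ξ := Order.lt_succ_iff.1 hj
    rw [cd_ee_of_le hj', cd_ee_of_le (hj'.trans h.le)]
  · rw [cd_ee_succ, cd_ee_of_le (Order.succ_le_of_lt h)]
    norm_num

theorem ee_lt {ξ μ : Ω} (h : ξ < μ) : ee ξ < - us μ 1 := by
  rw [lt_iff_cd]
  have h1 : Order.succ ξ ≤ μ := Order.succ_le_of_lt h
  refine ⟨Order.succ ξ, ?_, ?_⟩
  · intro j hj
    have hj' : j ≤ ξ := Order.lt_succ_iff.1 hj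
    rw [cd_ee_of_le hj', cd_neg, cd_us_ne _ (lt_of_lt_of_le hj h1).ne', neg_zero]
  · rw [cd_ee_succ, cd_neg, cd_us]
    split_ifs <;> norm_num

end Group

section Series

variable {Ω : Type} [LinearOrder Ω] {K : Type} [Field K]

/-- the big field -/
abbrev HH (Ω K : Type) [LinearOrder Ω] [Field K] : Type := HahnSeries (Dl Ω) K

/-- the finitely generated degree zero subgroups -/
def GF (F : Finset Ω) : AddSubgroup (Dl Ω) where
  carrier := {γ | deg γ = 0 ∧ ∀ ν, cd ν γ ≠ 0 → ν ∈ F}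
  zero_mem' := by simp
  add_mem' := by
    rintro γ δ ⟨h1, h2⟩ ⟨h3, h4⟩
    refine ⟨by rw [deg_add, h1, h3, add_zero], ?_⟩
    intro ν hν
    by_contra hcon
    apply hν
    have h5 : cd ν γ = 0 := by by_contra h; exact hcon (h2 ν h)
    have h6 : cd ν δ = 0 := by by_contra h; exact hcon (h4 ν h)
    rw [cd_add, h5, h6, add_zero]
  neg_mem' := by
    rintro γ ⟨h1, h2⟩
    refine ⟨by rw [deg_neg, h1, neg_zero], ?_⟩
    intro ν hν
    apply h2
    rwa [cd_neg, neg_ne_zero] at hν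

theorem GF_mono {F F' : Finset Ω} (h : F ⊆ F') : GF F ≤ GF F' := by
  rintro γ ⟨h1, h2⟩
  exact ⟨h1, fun ν hν => h (h2 ν hν)⟩

/-- support contained in `GF F` -/
def SuppIn (F : Finset Ω) (f : HH Ω K) : Prop := ∀ γ, f.coeff γ ≠ 0 → γ ∈ GF F

theorem SuppIn.mono {F F' : Finset Ω} (h : F ⊆ F') {f : HH Ω K} (hf : SuppIn F f) :
    SuppIn F' f := fun γ hγ => GF_mono h (hf γ hγ)

theorem SuppIn.zero (F : Finset Ω) : SuppIn F (0 : HH Ω K) := by
  intro γ hγ; simp at hγ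

theorem SuppIn.add {F : Finset Ω} {f g : HH Ω K} (hf : SuppIn F f) (hg : SuppIn F g) :
    SuppIn F (f + g) := by
  intro γ hγ
  by_contra hcon
  apply hγ
  have h1 : f.coeff γ = 0 := by by_contra h; exact hcon (hf γ h)
  have h2 : g.coeff γ = 0 := by by_contra h; exact hcon (hg γ h)
  rw [HahnSeries.coeff_add, h1, h2, add_zero]

theorem SuppIn.neg {F : Finset Ω} {f : HH Ω K} (hf : SuppIn F f) : SuppIn F (-f) := by
  intro γ hγ
  apply hf
  rwa [HahnSeries.coeff_neg, neg_ne_zero] at hγ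

theorem SuppIn.sub {F : Finset Ω} {f g : HH Ω K} (hf : SuppIn F f) (hg : SuppIn F g) :
    SuppIn F (f - g) := by
  rw [sub_eq_add_neg]; exact hf.add hg.neg

theorem SuppIn.mul {F : Finset Ω} {f g : HH Ω K} (hf : SuppIn F f) (hg : SuppIn F g) :
    SuppIn F (f * g) := by
  intro γ hγ
  have h1 : γ ∈ (f * g).support := hγ
  obtain ⟨α, hα, β, hβ, rfl⟩ := HahnSeries.support_mul_subset h1
  exact (GF F).add_mem (hf α hα) (hg β hβ)

theorem SuppIn.single {F : Finset Ω} {γ : Dl Ω} (hγ : γ ∈ GF F) (k : K) :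
    SuppIn F (HahnSeries.single γ k : HH Ω K) := by
  intro δ hδ
  have : δ = γ := by
    by_contra h
    exact hδ (HahnSeries.coeff_single_of_ne h)
  rwa [this]

theorem SuppIn.inv {F : Finset Ω} {f : HH Ω K} (hf : SuppIn F f) : SuppIn F f⁻¹ := by
  let φ : GF F →+ Dl Ω := (GF F).subtype
  have hφ : Function.Injective φ := Subtype.val_injective
  have hle : ∀ g g' : GF F, φ g ≤ φ g' ↔ g ≤ g' := fun g g' => Iff.rfl
  let Φ : HahnSeries (GF F) K →+* HH Ω K := HahnSeries.embDomainRingHom φ hφ hle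
  have himg : ∀ x : HahnSeries (GF F) K, SuppIn F (Φ x) := by
    intro x γ hγ
    by_contra hcon
    apply hγ
    show (HahnSeries.embDomain _ x).coeff γ = 0
    apply HahnSeries.embDomain_of_notMem_range
    rintro ⟨y, hy⟩
    apply hcon
    have : γ = (y : Dl Ω) := hy.symm
    rw [this]
    exact y.2
  let g : HahnSeries (GF F) K :=
    { coeff := fun γ => f.coeff γ
      isPWO_support' := by
        have h1 := f.isPWO_support
        intro u
        obtain ⟨m, n, hmn, hle⟩ := h1 (fun n => ⟨((u n).1 : Dl Ω), (u n).2⟩)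
        exact ⟨m, n, hmn, hle⟩ }
  have hg : Φ g = f := by
    ext γ
    by_cases hγ : γ ∈ GF F
    · exact HahnSeries.embDomain_coeff (f := ⟨⟨φ, hφ⟩, hle _ _⟩) (x := g) (a := ⟨γ, hγ⟩)
    · have h1 : f.coeff γ = 0 := by by_contra h; exact hγ (hf γ h)
      have h2 : (Φ g).coeff γ = 0 := by by_contra h; exact hγ (himg g γ h)
      rw [h1, h2]
  rw [← hg, ← map_inv₀]
  exact himg _

/-- the field `Q` -/
def InQ (f : HH Ω K) : Prop := ∃ F : Finset Ω, SuppIn F f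

theorem InQ.zero : InQ (0 : HH Ω K) := ⟨∅, SuppIn.zero _⟩

theorem InQ.add {f g : HH Ω K} (hf : InQ f) (hg : InQ g) : InQ (f + g) := by
  classical
  obtain ⟨F, hF⟩ := hf
  obtain ⟨F', hF'⟩ := hg
  exact ⟨F ∪ F', (hF.mono subset_union_left).add (hF'.mono subset_union_right)⟩

theorem InQ.neg {f : HH Ω K} (hf : InQ f) : InQ (-f) := by
  obtain ⟨F, hF⟩ := hf
  exact ⟨F, hF.neg⟩

theorem InQ.sub {f g : HH Ω K} (hf : InQ f) (hg : InQ g) : InQ (f - g) := by
  rw [sub_eq_add_neg]; exact hf.add hg.neg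

theorem InQ.mul {f g : HH Ω K} (hf : InQ f) (hg : InQ g) : InQ (f * g) := by
  classical
  obtain ⟨F, hF⟩ := hf
  obtain ⟨F', hF'⟩ := hg
  exact ⟨F ∪ F', (hF.mono subset_union_left).mul (hF'.mono subset_union_right)⟩

theorem InQ.inv {f : HH Ω K} (hf : InQ f) : InQ f⁻¹ := by
  obtain ⟨F, hF⟩ := hf
  exact ⟨F, hF.inv⟩

theorem InQ.div {f g : HH Ω K} (hf : InQ f) (hg : InQ g) : InQ (f / g) := by
  rw [div_eq_mul_inv]; exact hf.mul hg.inv

theorem InQ.sum {ι : Type} (s : Finset ι) (f : ι → HH Ω K) (h : ∀ i ∈ s, InQ (f i)) :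
    InQ (∑ i ∈ s, f i) := by
  classical
  induction s using Finset.induction_on with
  | empty => rw [Finset.sum_empty]; exact InQ.zero
  | insert a s ha ih =>
    rw [Finset.sum_insert ha]
    exact (h a (Finset.mem_insert_self _ _)).add (ih fun i hi => h i (Finset.mem_insert_of_mem hi))

theorem InQ.single {γ : Dl Ω} (hγ : deg γ = 0) (k : K) :
    InQ (HahnSeries.single γ k : HH Ω K) := by
  refine ⟨(ofLex γ).support, SuppIn.single ⟨hγ, fun ν hν => ?_⟩ k⟩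
  rw [Finsupp.mem_support_iff]
  exact hν

/-- all exponents are `> c` -/
def GT (c : Dl Ω) (f : HH Ω K) : Prop := ∀ γ ≤ c, f.coeff γ = 0

/-- all exponents are nonnegative -/
def NN (f : HH Ω K) : Prop := ∀ γ < 0, f.coeff γ = 0

theorem NN.zero : NN (0 : HH Ω K) := by intro γ _; simp

theorem NN.add {f g : HH Ω K} (hf : NN f) (hg : NN g) : NN (f + g) := by
  intro γ hγ
  rw [HahnSeries.coeff_add, hf γ hγ, hg γ hγ, add_zero]

theorem NN.neg {f : HH Ω K} (hf : NN f) : NN (-f) := by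
  intro γ hγ
  rw [HahnSeries.coeff_neg, hf γ hγ, neg_zero]

theorem NN.sub {f g : HH Ω K} (hf : NN f) (hg : NN g) : NN (f - g) := by
  rw [sub_eq_add_neg]; exact hf.add hg.neg

theorem NN.mul {f g : HH Ω K} (hf : NN f) (hg : NN g) : NN (f * g) := by
  intro γ hγ
  by_contra h
  have h1 : γ ∈ (f * g).support := h
  obtain ⟨α, hα, β, hβ, rfl⟩ := HahnSeries.support_mul_subset h1
  have h2 : 0 ≤ α := not_lt.1 fun h => hα (hf α h)
  have h3 : 0 ≤ β := not_lt.1 fun h => hβ (hg β h)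
  exact absurd hγ (not_lt.2 (add_nonneg h2 h3))

theorem NN.single {γ : Dl Ω} (hγ : 0 ≤ γ) (k : K) : NN (HahnSeries.single γ k : HH Ω K) := by
  intro δ hδ
  apply HahnSeries.coeff_single_of_ne
  exact (lt_of_lt_of_le hδ hγ).ne

theorem NN_iff_order {f : HH Ω K} (hf : f ≠ 0) : NN f ↔ 0 ≤ f.order := by
  constructor
  · intro h
    by_contra hcon
    have h1 := h f.order (not_le.1 hcon)
    rw [HahnSeries.coeff_order_eq_zero] at h1
    exact hf h1
  · intro h γ hγ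
    exact HahnSeries.coeff_eq_zero_of_lt_order (lt_of_lt_of_le hγ h)

theorem order_inv {f : HH Ω K} (hf : f ≠ 0) : f⁻¹.order = - f.order := by
  have h1 : f * f⁻¹ = 1 := mul_inv_cancel₀ hf
  have h2 := HahnSeries.order_mul hf (inv_ne_zero hf)
  rw [h1, HahnSeries.order_one] at h2
  exact (neg_eq_of_add_eq_zero_right h2.symm).symm

theorem NN_or_inv (f : HH Ω K) : NN f ∨ (f ≠ 0 ∧ NN f⁻¹) := by
  by_cases hf : f = 0
  · left; rw [hf]; exact NN.zero
  · rcases le_total 0 f.order with h | h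
    · left; exact (NN_iff_order hf).2 h
    · right
      refine ⟨hf, (NN_iff_order (inv_ne_zero hf)).2 ?_⟩
      rw [order_inv hf]
      exact neg_nonneg.2 h

theorem NN_inv_of_coeff_zero {f : HH Ω K} (h : f.coeff 0 ≠ 0) : NN f⁻¹ := by
  have hf : f ≠ 0 := HahnSeries.ne_zero_of_coeff_ne_zero h
  rw [NN_iff_order (inv_ne_zero hf), order_inv hf]
  exact neg_nonneg.2 (HahnSeries.order_le_of_coeff_ne_zero h)

theorem GT.zero (c : Dl Ω) : GT c (0 : HH Ω K) := by intro γ _; simp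

theorem GT.add {c : Dl Ω} {f g : HH Ω K} (hf : GT c f) (hg : GT c g) : GT c (f + g) := by
  intro γ hγ
  rw [HahnSeries.coeff_add, hf γ hγ, hg γ hγ, add_zero]

theorem GT.neg {c : Dl Ω} {f : HH Ω K} (hf : GT c f) : GT c (-f) := by
  intro γ hγ
  rw [HahnSeries.coeff_neg, hf γ hγ, neg_zero]

theorem GT.sub {c : Dl Ω} {f g : HH Ω K} (hf : GT c f) (hg : GT c g) : GT c (f - g) := by
  rw [sub_eq_add_neg]; exact hf.add hg.neg

theorem GT.mul {c : Dl Ω} {f g : HH Ω K} (hf : NN f) (hg : GT c g) : GT c (f * g) := by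
  intro γ hγ
  by_contra h
  have h1 : γ ∈ (f * g).support := h
  obtain ⟨α, hα, β, hβ, rfl⟩ := HahnSeries.support_mul_subset h1
  have h2 : 0 ≤ α := not_lt.1 fun h => hα (hf α h)
  have h3 : c < β := not_le.1 fun h => hβ (hg β h)
  exact absurd hγ (not_le.2 (lt_of_lt_of_le h3 (le_add_of_nonneg_left h2)))

theorem GT.mono {c d : Dl Ω} (h : d ≤ c) {f : HH Ω K} (hf : GT c f) : GT d f :=
  fun γ hγ => hf γ (hγ.trans h)

theorem NN.gt {c : Dl Ω} (hc : c < 0) {f : HH Ω K} (hf : NN f) : GT c f :=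
  fun γ hγ => hf γ (lt_of_le_of_lt hγ hc)

/-- monomials -/
abbrev xx (γ : Dl Ω) : HH Ω K := HahnSeries.single γ 1

theorem xx_mul (γ δ : Dl Ω) : (xx γ : HH Ω K) * xx δ = xx (γ + δ) := by
  rw [HahnSeries.single_mul_single, mul_one]

theorem xx_zero : (xx 0 : HH Ω K) = 1 := rfl

theorem xx_ne (γ : Dl Ω) : (xx γ : HH Ω K) ≠ 0 := HahnSeries.single_ne_zero one_ne_zero

theorem coeff_xx_mul (γ δ : Dl Ω) (f : HH Ω K) : (xx γ * f).coeff δ = f.coeff (δ - γ) := by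
  rw [HahnSeries.coeff_single_mul, one_mul]

theorem GT_xx_mul {b c : Dl Ω} {f : HH Ω K} (h : GT c (xx b * f)) : GT (c - b) f := by
  intro γ hγ
  have h1 := h (γ + b) (by rwa [← le_sub_iff_add_le])
  rwa [coeff_xx_mul, add_sub_cancel_right] at h1

theorem xx_mul_GT {b c : Dl Ω} {f : HH Ω K} (h : GT c f) : GT (c + b) (xx b * f) := by
  intro γ hγ
  rw [coeff_xx_mul]
  exact h _ (by rwa [sub_le_iff_le_add])

end Series

section Deriv

variable {Ω : Type} [LinearOrder Ω] {K : Type} [Field K]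

/-- the derivation given by the coordinate `ν` -/
def dd (ν : Ω) (f : HH Ω K) : HH Ω K where
  coeff := fun γ => (cd ν γ : K) * f.coeff γ
  isPWO_support' := by
    refine f.isPWO_support.mono ?_
    intro γ hγ
    rw [HahnSeries.mem_support]
    intro h
    apply hγ
    show (cd ν γ : K) * f.coeff γ = 0
    rw [h, mul_zero]

theorem coeff_dd (ν : Ω) (f : HH Ω K) (γ : Dl Ω) :
    (dd ν f).coeff γ = (cd ν γ : K) * f.coeff γ := rfl

theorem support_dd (ν : Ω) (f : HH Ω K) : (dd ν f).support ⊆ f.support := by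
  intro γ hγ h
  apply hγ
  rw [coeff_dd, h, mul_zero]

theorem dd_zero (ν : Ω) : dd ν (0 : HH Ω K) = 0 := by
  ext γ; simp [coeff_dd]

theorem dd_add (ν : Ω) (f g : HH Ω K) : dd ν (f + g) = dd ν f + dd ν g := by
  ext γ
  rw [coeff_dd, HahnSeries.coeff_add, HahnSeries.coeff_add, coeff_dd, coeff_dd, mul_add]

theorem dd_neg (ν : Ω) (f : HH Ω K) : dd ν (-f) = - dd ν f := by
  ext γ
  rw [coeff_dd, HahnSeries.coeff_neg, HahnSeries.coeff_neg, coeff_dd, mul_neg]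

theorem dd_mul (ν : Ω) (f g : HH Ω K) : dd ν (f * g) = dd ν f * g + f * dd ν g := by
  ext γ
  rw [coeff_dd, HahnSeries.coeff_add,
    HahnSeries.coeff_mul_left' f.isPWO_support (support_dd ν f),
    HahnSeries.coeff_mul_right' g.isPWO_support (support_dd ν g), HahnSeries.coeff_mul,
    Finset.mul_sum, ← Finset.sum_add_distrib]
  refine Finset.sum_congr rfl ?_
  rintro ⟨α, β⟩ h
  rw [Finset.mem_antidiagonal] at h
  obtain ⟨_, _, h⟩ := h
  simp only at h
  rw [coeff_dd, coeff_dd, ← h, cd_add]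
  push_cast
  ring

theorem dd_xx (ν : Ω) (γ : Dl Ω) : dd ν (xx γ : HH Ω K) = (cd ν γ : K) • xx γ := by
  ext δ
  rw [coeff_dd, HahnSeries.coeff_smul, smul_eq_mul]
  by_cases h : δ = γ
  · rw [h]
  · rw [HahnSeries.coeff_single_of_ne h, mul_zero, mul_zero]

theorem dd_one (ν : Ω) : dd ν (1 : HH Ω K) = 0 := by
  rw [← xx_zero, dd_xx, cd_zero, Int.cast_zero, zero_smul]

theorem SuppIn.dd {F : Finset Ω} {f : HH Ω K} (hf : SuppIn F f) (ν : Ω) : SuppIn F (dd ν f) := by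
  intro γ hγ
  exact hf γ (support_dd ν f hγ)

theorem SuppIn.dd_eq_zero {F : Finset Ω} {f : HH Ω K} (hf : SuppIn F f) {ν : Ω} (hν : ν ∉ F) :
    ValRing.dd ν f = 0 := by
  ext γ
  rw [coeff_dd, HahnSeries.coeff_zero]
  by_cases h : f.coeff γ = 0
  · rw [h, mul_zero]
  · have h1 := hf γ h
    have h2 : cd ν γ = 0 := by
      by_contra h3
      exact hν (h1.2 ν h3)
    rw [h2, Int.cast_zero, zero_mul]

variable [WellFoundedLT Ω] [SuccOrder Ω] [NoMaxOrder Ω]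

/-- the exponents as an order embedding -/
def eemb : Ω ↪o Dl Ω := OrderEmbedding.ofStrictMono ee ee_strictMono

/-- the series `∑_{ξ < μ} b ξ x^{e ξ}` -/
def hat (μ : Ω) (b : Ω → K) : HH Ω K := by
  classical
  exact HahnSeries.embDomain (eemb : Ω ↪o Dl Ω)
    { coeff := fun ξ => if ξ < μ then b ξ else 0
      isPWO_support' := Set.IsPWO.of_linearOrder _ }

theorem coeff_hat_ee (μ : Ω) (b : Ω → K) (ξ : Ω) :
    (hat μ b).coeff (ee ξ) = if ξ < μ then b ξ else 0 := by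
  classical
  exact HahnSeries.embDomain_coeff (f := (eemb : Ω ↪o Dl Ω)) (a := ξ)

theorem coeff_hat_of_notMem (μ : Ω) (b : Ω → K) {γ : Dl Ω} (h : ∀ ξ, ee ξ ≠ γ) :
    (hat μ b).coeff γ = 0 := by
  classical
  apply HahnSeries.embDomain_of_notMem_range
  rintro ⟨ξ, hξ⟩
  exact h ξ hξ

theorem hat_ext {f g : HH Ω K} (h1 : ∀ γ, (∀ ξ, ee ξ ≠ γ) → f.coeff γ = 0)
    (h2 : ∀ γ, (∀ ξ, ee ξ ≠ γ) → g.coeff γ = 0)
    (h : ∀ ξ, f.coeff (ee ξ) = g.coeff (ee ξ)) : f = g := by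
  ext γ
  by_cases hγ : ∃ ξ, ee ξ = γ
  · obtain ⟨ξ, rfl⟩ := hγ
    exact h ξ
  · push Not at hγ
    rw [h1 γ hγ, h2 γ hγ]

/-- `hat μ b` is in `Q` when `b` is finite below `μ` -/
theorem InQ_hat (μ : Ω) (b : Ω → K) (hb : {ξ | ξ < μ ∧ b ξ ≠ 0}.Finite) : InQ (hat μ b) := by
  classical
  have h1 : hat μ b = ∑ ξ ∈ hb.toFinset, HahnSeries.single (ee ξ) (b ξ) := by
    apply hat_ext
    · exact fun γ hγ => coeff_hat_of_notMem μ b hγ
    · intro γ hγ
      rw [HahnSeries.coeff_sum]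
      refine Finset.sum_eq_zero ?_
      intro ξ _
      exact HahnSeries.coeff_single_of_ne (fun h => hγ ξ h.symm)
    · intro ξ
      rw [coeff_hat_ee, HahnSeries.coeff_sum]
      by_cases hξ : ξ ∈ hb.toFinset
      · rw [Finset.sum_eq_single_of_mem ξ hξ]
        · rw [HahnSeries.coeff_single_same]
          have := (hb.mem_toFinset.1 hξ).1
          rw [if_pos this]
        · intro ζ _ hζ
          apply HahnSeries.coeff_single_of_ne
          intro h
          exact hζ (ee_strictMono.injective h).symm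
      · rw [Finset.sum_eq_zero]
        · rw [hb.mem_toFinset] at hξ
          by_cases h : ξ < μ
          · rw [if_pos h]
            by_contra hne
            exact hξ ⟨h, hne⟩
          · rw [if_neg h]
        · intro ζ hζ
          apply HahnSeries.coeff_single_of_ne
          intro h
          rw [ee_strictMono.injective h] at hξ
          exact hξ hζ
  rw [h1]
  exact InQ.sum _ _ (fun ξ _ => InQ.single (deg_ee ξ) _)

theorem isPWO_range_ee : (Set.range (ee : Ω → Dl Ω)).IsPWO := by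
  rw [← Set.image_univ]
  exact (Set.IsPWO.of_linearOrder _).image_of_monotone ee_strictMono.monotone

theorem support_hat (μ : Ω) (b : Ω → K) : (hat μ b).support ⊆ Set.range (ee : Ω → Dl Ω) := by
  intro γ hγ
  by_contra hcon
  apply hγ
  apply coeff_hat_of_notMem
  intro ξ hξ
  exact hcon ⟨ξ, hξ⟩

/-- the tail lemma -/
theorem NN_tail (F : Finset Ω) (f : HH Ω K) (hf : SuppIn F f) (hn : NN f) (b : Ω → K) :
    NN (∑ ν ∈ F, dd ν f * hat ν b) := by
  intro δ hδ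
  rw [HahnSeries.coeff_sum]
  have h1 : ∀ ν ∈ F, (dd ν f * hat ν b).coeff δ =
      ∑ ij ∈ Finset.antidiagonal f.isPWO_support (isPWO_range_ee (Ω := Ω)) δ,
        (cd ν ij.1 : K) * f.coeff ij.1 * (hat ν b).coeff ij.2 := by
    intro ν _
    rw [HahnSeries.coeff_mul_left' f.isPWO_support (support_dd ν f)]
    have hsub : Finset.antidiagonal f.isPWO_support (hat ν b).isPWO_support δ ⊆
        Finset.antidiagonal f.isPWO_support (isPWO_range_ee (Ω := Ω)) δ :=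
      Finset.antidiagonal_mono_right (support_hat ν b)
    refine Finset.sum_subset_zero_on_sdiff hsub ?_ (fun _ _ => rfl)
    rintro ⟨i, j⟩ hij
    rw [Finset.mem_sdiff, Finset.mem_antidiagonal, Finset.mem_antidiagonal] at hij
    obtain ⟨⟨h1, _, h3⟩, h4⟩ := hij
    have : (hat ν b).coeff j = 0 := by
      by_contra hne
      exact h4 ⟨h1, hne, h3⟩
    simp only [this, mul_zero]
  rw [Finset.sum_congr rfl h1, Finset.sum_comm]
  refine Finset.sum_eq_zero ?_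
  rintro ⟨i, j⟩ hij
  rw [Finset.mem_antidiagonal] at hij
  obtain ⟨hi, ⟨ξ, rfl⟩, hsum⟩ := hij
  simp only at hi hsum ⊢
  have hi1 := hf i hi
  have hi0 : 0 ≤ i := not_lt.1 fun h => hi (hn i h)
  -- coordinates `≤ ξ` vanish
  have hlow : ∀ ν ≤ ξ, cd ν i = 0 := by
    by_contra hcon
    push Not at hcon
    obtain ⟨ν0, hν0, hν0'⟩ := hcon
    have hpos : 0 < i := by
      refine lt_of_le_of_ne hi0 ?_
      rintro rfl
      exact hν0' (cd_zero _)
    obtain ⟨ℓ, hℓ, hℓ'⟩ := lt_iff_cd.1 hpos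
    have hℓξ : ℓ ≤ ξ := by
      by_contra h
      have h2 := hℓ ν0 (lt_of_le_of_lt hν0 (not_le.1 h))
      rw [cd_zero] at h2
      exact hν0' h2.symm
    have : 0 < i + ee ξ := by
      rw [lt_iff_cd]
      refine ⟨ℓ, ?_, ?_⟩
      · intro j hj
        rw [cd_add, cd_ee_of_le (hj.le.trans hℓξ), add_zero]
        exact hℓ j hj
      · rw [cd_add, cd_ee_of_le hℓξ, add_zero]
        exact hℓ'
    rw [hsum] at this
    exact absurd this (not_lt.2 hδ.le)
  have hsum0 : ∑ ν ∈ F, (if ξ < ν then cd ν i else 0) = 0 := by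
    have h3 : ∑ ν ∈ F, (if ξ < ν then cd ν i else 0) = ∑ ν ∈ F, cd ν i := by
      refine Finset.sum_congr rfl ?_
      intro ν _
      split_ifs with h
      · rfl
      · rw [hlow ν (not_lt.1 h)]
    rw [h3, ← deg_eq_sum i F hi1.2, hi1.1]
  have h2 : ∀ ν ∈ F, (cd ν i : K) * f.coeff i * (hat ν b).coeff (ee ξ) =
      ((if ξ < ν then cd ν i else 0 : ℤ) : K) * (f.coeff i * b ξ) := by
    intro ν _
    rw [coeff_hat_ee]
    split_ifs
    · ring
    · simp
  rw [Finset.sum_congr rfl h2, ← Finset.sum_mul, ← Int.cast_sum, hsum0, Int.cast_zero, zero_mul]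

end Deriv

section Ring

variable {Ω : Type} [LinearOrder Ω] [WellFoundedLT Ω] [SuccOrder Ω] [NoMaxOrder Ω]
variable {K : Type} [Field K]

/-- `Q + D̂` -/
def QD (h : HH Ω K) : Prop := ∃ q d : HH Ω K, InQ q ∧ NN d ∧ h = q + d

theorem QD.ofQ {q : HH Ω K} (h : InQ q) : QD q := ⟨q, 0, h, NN.zero, (add_zero _).symm⟩
theorem QD.ofNN {q : HH Ω K} (h : NN q) : QD q := ⟨0, q, InQ.zero, h, (zero_add _).symm⟩
theorem QD.zero : QD (0 : HH Ω K) := QD.ofQ InQ.zero

theorem QD.add {f g : HH Ω K} (hf : QD f) (hg : QD g) : QD (f + g) := by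
  obtain ⟨q, d, h1, h2, rfl⟩ := hf
  obtain ⟨q', d', h3, h4, rfl⟩ := hg
  exact ⟨q + q', d + d', h1.add h3, h2.add h4, by ring⟩

theorem QD.neg {f : HH Ω K} (hf : QD f) : QD (-f) := by
  obtain ⟨q, d, h1, h2, rfl⟩ := hf
  exact ⟨-q, -d, h1.neg, h2.neg, by ring⟩

theorem QD.sub {f g : HH Ω K} (hf : QD f) (hg : QD g) : QD (f - g) := by
  rw [sub_eq_add_neg]; exact hf.add hg.neg

theorem QD.mul {f g : HH Ω K} (hf : InQ f) (hf' : NN f) (hg : QD g) : QD (f * g) := by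
  obtain ⟨q, d, h1, h2, rfl⟩ := hg
  exact ⟨f * q, f * d, hf.mul h1, hf'.mul h2, by ring⟩

/-- coherence data with values in `K` -/
def Coh (φ : Ω → Ω → Ω → K) : Prop :=
  (∀ μ, φ μ μ = 0) ∧
    ∀ μ ν ρ, μ < ν → ν < ρ → {ξ | ξ < μ ∧ φ μ ν ξ + φ ν ρ ξ ≠ φ μ ρ ξ}.Finite

/-- the twisting operator -/
def th (φ : Ω → Ω → Ω → K) (m : Ω) (F : Finset Ω) (f : HH Ω K) : HH Ω K :=
  ∑ ν ∈ F, dd ν f * hat ν (φ ν m)

theorem th_zero (φ : Ω → Ω → Ω → K) (m : Ω) (F : Finset Ω) : th φ m F (0 : HH Ω K) = 0 := by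
  unfold th
  refine Finset.sum_eq_zero ?_
  intro ν _
  rw [dd_zero, zero_mul]

theorem th_add (φ : Ω → Ω → Ω → K) (m : Ω) (F : Finset Ω) (f g : HH Ω K) :
    th φ m F (f + g) = th φ m F f + th φ m F g := by
  unfold th
  rw [← Finset.sum_add_distrib]
  refine Finset.sum_congr rfl ?_
  intro ν _
  rw [dd_add, add_mul]

theorem th_neg (φ : Ω → Ω → Ω → K) (m : Ω) (F : Finset Ω) (f : HH Ω K) :
    th φ m F (-f) = - th φ m F f := by
  unfold th
  rw [← Finset.sum_neg_distrib]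
  refine Finset.sum_congr rfl ?_
  intro ν _
  rw [dd_neg, neg_mul]

theorem th_mul (φ : Ω → Ω → Ω → K) (m : Ω) (F : Finset Ω) (f g : HH Ω K) :
    th φ m F (f * g) = th φ m F f * g + f * th φ m F g := by
  unfold th
  rw [Finset.sum_mul, Finset.mul_sum, ← Finset.sum_add_distrib]
  refine Finset.sum_congr rfl ?_
  intro ν _
  rw [dd_mul]
  ring

theorem th_one (φ : Ω → Ω → Ω → K) (m : Ω) (F : Finset Ω) : th φ m F (1 : HH Ω K) = 0 := by
  unfold th
  refine Finset.sum_eq_zero ?_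
  intro ν _
  rw [dd_one, zero_mul]

theorem th_mono (φ : Ω → Ω → Ω → K) (m : Ω) {F F' : Finset Ω} (hF : F ⊆ F') {f : HH Ω K}
    (hf : SuppIn F f) : th φ m F f = th φ m F' f := by
  unfold th
  refine Finset.sum_subset hF ?_
  intro ν _ hν
  rw [hf.dd_eq_zero hν, zero_mul]

theorem hat_add (μ : Ω) (b c : Ω → K) : (hat μ b : HH Ω K) + hat μ c = hat μ (b + c) := by
  apply hat_ext
  · intro γ hγ
    rw [HahnSeries.coeff_add, coeff_hat_of_notMem _ _ hγ, coeff_hat_of_notMem _ _ hγ, add_zero]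
  · intro γ hγ
    rw [coeff_hat_of_notMem _ _ hγ]
  · intro ξ
    rw [HahnSeries.coeff_add, coeff_hat_ee, coeff_hat_ee, coeff_hat_ee]
    split_ifs
    · rfl
    · rw [add_zero]

theorem hat_sub (μ : Ω) (b c : Ω → K) : (hat μ b : HH Ω K) - hat μ c = hat μ (b - c) := by
  rw [sub_eq_iff_eq_add, hat_add, sub_add_cancel]

/-- independence of the base point modulo `Q + D̂` -/
theorem th_change {φ : Ω → Ω → Ω → K} (hφ : Coh φ) {m m' : Ω} {F : Finset Ω}
    (hF : ∀ ν ∈ F, ν ≤ m) (hm : m ≤ m') {f : HH Ω K} (hf : SuppIn F f) (hn : NN f) :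
    QD (th φ m F f - th φ m' F f) := by
  rcases hm.lt_or_eq with hm | rfl
  swap
  · rw [sub_self]; exact QD.zero
  have h1 : th φ m F f - th φ m' F f =
      ∑ ν ∈ F, dd ν f * hat ν (φ ν m - φ ν m' + φ m m') - ∑ ν ∈ F, dd ν f * hat ν (φ m m') := by
    unfold th
    rw [← Finset.sum_sub_distrib, ← Finset.sum_sub_distrib]
    refine Finset.sum_congr rfl ?_
    intro ν _
    rw [← mul_sub, ← mul_sub, hat_sub, hat_sub, add_sub_cancel_right]
  rw [h1]
  refine QD.sub (QD.ofQ ?_) (QD.ofNN (NN_tail F f hf hn _))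
  refine InQ.sum _ _ ?_
  intro ν hν
  refine InQ.mul ⟨F, hf.dd ν⟩ (InQ_hat _ _ ?_)
  rcases (hF ν hν).lt_or_eq with h | rfl
  · refine (hφ.2 ν m m' h hm).subset ?_
    rintro ξ ⟨hξ, hne⟩
    refine ⟨hξ, ?_⟩
    intro heq
    apply hne
    show φ ν m ξ - φ ν m' ξ + φ m m' ξ = 0
    rw [← heq]
    ring
  · refine Set.finite_empty.subset ?_
    rintro ξ ⟨_, hne⟩
    apply hne
    show φ ν ν ξ - φ ν m' ξ + φ ν m' ξ = 0
    rw [hφ.1 ν]
    simp

/-- membership predicate for the big ring -/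
def PP (φ : Ω → Ω → Ω → K) (f h : HH Ω K) : Prop :=
  NN f ∧ ∃ (F : Finset Ω) (m : Ω), (∀ ν ∈ F, ν ≤ m) ∧ SuppIn F f ∧ QD (h - th φ m F f)

theorem PP.inQ {φ : Ω → Ω → Ω → K} {f h : HH Ω K} (H : PP φ f h) : InQ f := by
  obtain ⟨_, F, _, _, h2, _⟩ := H
  exact ⟨F, h2⟩

theorem PP.nn {φ : Ω → Ω → Ω → K} {f h : HH Ω K} (H : PP φ f h) : NN f := H.1

theorem PP.uniform {φ : Ω → Ω → Ω → K} (hφ : Coh φ) {f h : HH Ω K} (H : PP φ f h) :
    ∃ (F : Finset Ω) (m : Ω), (∀ ν ∈ F, ν ≤ m) ∧ ∀ F' m', F ⊆ F' → m ≤ m' →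
      SuppIn F' f ∧ QD (h - th φ m' F' f) := by
  obtain ⟨h0, F, m, h1, h2, h3⟩ := H
  refine ⟨F, m, h1, ?_⟩
  intro F' m' hF hm
  refine ⟨h2.mono hF, ?_⟩
  rw [← th_mono φ m' hF h2]
  have := h3.add (th_change hφ h1 hm h2 h0)
  rwa [sub_add_sub_cancel] at this

theorem PP.pair {φ : Ω → Ω → Ω → K} (hφ : Coh φ) {f h g k : HH Ω K} (H : PP φ f h)
    (H' : PP φ g k) : ∃ (F : Finset Ω) (m : Ω), (∀ ν ∈ F, ν ≤ m) ∧
      SuppIn F f ∧ SuppIn F g ∧ QD (h - th φ m F f) ∧ QD (k - th φ m F g) := by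
  classical
  obtain ⟨F, m, h1, h2⟩ := H.uniform hφ
  obtain ⟨F', m', h3, h4⟩ := H'.uniform hφ
  refine ⟨F ∪ F', max m m', ?_, ?_⟩
  · intro ν hν
    rcases Finset.mem_union.1 hν with h | h
    · exact (h1 ν h).trans (le_max_left _ _)
    · exact (h3 ν h).trans (le_max_right _ _)
  · obtain ⟨a1, a2⟩ := h2 (F ∪ F') (max m m') subset_union_left (le_max_left _ _)
    obtain ⟨b1, b2⟩ := h4 (F ∪ F') (max m m') subset_union_right (le_max_right _ _)
    exact ⟨a1, b1, a2, b2⟩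

theorem PP.add {φ : Ω → Ω → Ω → K} (hφ : Coh φ) {f h g k : HH Ω K} (H : PP φ f h)
    (H' : PP φ g k) : PP φ (f + g) (h + k) := by
  obtain ⟨F, m, h1, h2, h3, h4, h5⟩ := H.pair hφ H'
  refine ⟨H.1.add H'.1, F, m, h1, h2.add h3, ?_⟩
  rw [th_add, add_sub_add_comm]
  exact h4.add h5

theorem PP.neg {φ : Ω → Ω → Ω → K} {f h : HH Ω K} (H : PP φ f h) : PP φ (-f) (-h) := by
  obtain ⟨h0, F, m, h1, h2, h3⟩ := H
  refine ⟨h0.neg, F, m, h1, h2.neg, ?_⟩
  rw [th_neg, ← neg_sub']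
  exact h3.neg

theorem PP.mul {φ : Ω → Ω → Ω → K} (hφ : Coh φ) {f h g k : HH Ω K} (H : PP φ f h)
    (H' : PP φ g k) : PP φ (f * g) (f * k + h * g) := by
  obtain ⟨F, m, h1, h2, h3, h4, h5⟩ := H.pair hφ H'
  refine ⟨H.1.mul H'.1, F, m, h1, h2.mul h3, ?_⟩
  have : f * k + h * g - th φ m F (f * g) = f * (k - th φ m F g) + g * (h - th φ m F f) := by
    rw [th_mul]; ring
  rw [this]
  exact (QD.mul ⟨F, h2⟩ H.1 h5).add (QD.mul ⟨F, h3⟩ H'.1 h4)

theorem PP.ofQD (φ : Ω → Ω → Ω → K) [Nonempty Ω] {h : HH Ω K} (H : QD h) : PP φ 0 h := by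
  refine ⟨NN.zero, ∅, Classical.arbitrary Ω, by simp, SuppIn.zero _, ?_⟩
  rw [th_zero, sub_zero]
  exact H

theorem PP.one (φ : Ω → Ω → Ω → K) [Nonempty Ω] : PP φ (1 : HH Ω K) 0 := by
  refine ⟨NN.single le_rfl 1, ∅, Classical.arbitrary Ω, by simp,
    SuppIn.single (AddSubgroup.zero_mem _) 1, ?_⟩
  rw [th_one, sub_zero]
  exact QD.zero

theorem PP.toQD {φ : Ω → Ω → Ω → K} {h : HH Ω K} (H : PP φ 0 h) : QD h := by
  obtain ⟨_, F, m, h1, h2, h3⟩ := H
  rwa [th_zero, sub_zero] at h3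

theorem PP.diff {φ : Ω → Ω → Ω → K} (hφ : Coh φ) {f h k : HH Ω K} (H : PP φ f h)
    (H' : PP φ f k) : QD (h - k) := by
  have := PP.add hφ H H'.neg
  rw [add_neg_cancel, ← sub_eq_add_neg] at this
  exact this.toQD

theorem PP.exists_lift (φ : Ω → Ω → Ω → K) [Nonempty Ω] {f : HH Ω K} (hf : InQ f) (hn : NN f) :
    ∃ h, PP φ f h := by
  classical
  obtain ⟨F, hF⟩ := hf
  obtain ⟨m, hm⟩ : ∃ m, ∀ ν ∈ F, ν ≤ m := by
    rcases F.eq_empty_or_nonempty with rfl | hne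
    · exact ⟨Classical.arbitrary Ω, by simp⟩
    · obtain ⟨m, _, hm⟩ := F.exists_max_image id hne
      exact ⟨m, hm⟩
  refine ⟨th φ m F f, hn, F, m, hm, hF, ?_⟩
  rw [sub_self]
  exact QD.zero

/-- the elements `T μ ν` -/
theorem PP.tt (φ : Ω → Ω → Ω → K) (hφ : Coh φ) {μ ν : Ω} (h : μ < ν) :
    PP φ (xx (us μ 1 - us ν 1)) (xx (us μ 1 - us ν 1) * hat μ (φ μ ν)) := by
  classical
  refine ⟨NN.single ?_ 1, {μ, ν}, ν, ?_, SuppIn.single ⟨by simp, ?_⟩ 1, ?_⟩
  · refine le_of_lt (lt_iff_cd.2 ⟨μ, ?_, ?_⟩)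
    · intro j hj
      rw [cd_sub, cd_us_ne _ hj.ne', cd_us_ne _ (hj.trans h).ne', cd_zero, sub_zero]
    · rw [cd_sub, cd_us_self, cd_us_ne _ h.ne', cd_zero]
      norm_num
  · intro κ hκ
    rw [Finset.mem_insert, Finset.mem_singleton] at hκ
    rcases hκ with rfl | rfl
    · exact h.le
    · exact le_rfl
  · intro κ hκ
    rw [Finset.mem_insert, Finset.mem_singleton]
    by_contra hcon
    push Not at hcon
    apply hκ
    rw [cd_sub, cd_us_ne _ hcon.1.symm, cd_us_ne _ hcon.2.symm, sub_zero]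
  · have h1 : th φ ν {μ, ν} (xx (us μ 1 - us ν 1)) = xx (us μ 1 - us ν 1) * hat μ (φ μ ν) := by
      unfold th
      rw [Finset.sum_pair h.ne, dd_xx, dd_xx, cd_sub, cd_us_self, cd_us_ne _ h.ne', sub_zero,
        Int.cast_one, one_smul, hφ.1 ν]
      have h2 : hat ν (0 : Ω → K) = 0 := by
        have := hat_add ν (0 : Ω → K) 0
        rw [add_zero] at this
        exact add_eq_left.1 this
      rw [h2, mul_zero, add_zero]
    rw [h1, sub_self]
    exact QD.zero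

/-- the big ring -/
def Rt (φ : Ω → Ω → Ω → K) (hφ : Coh φ) [Nonempty Ω] : Subring (DualNumber (HH Ω K)) where
  carrier := {z | PP φ z.fst z.snd}
  mul_mem' := by
    intro a b ha hb
    have := PP.mul hφ ha hb
    show PP φ (a * b).fst (a * b).snd
    rw [TrivSqZeroExt.fst_mul, TrivSqZeroExt.snd_mul]
    simpa [mul_comm] using this
  one_mem' := PP.one φ
  add_mem' := by
    intro a b ha hb
    exact PP.add hφ ha hb
  zero_mem' := PP.ofQD φ QD.zero
  neg_mem' := by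
    intro a ha
    exact PP.neg ha

end Ring

end

end Pool.Agent.Helper40.ValRing
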